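import Pool.Agent.NMD.Stmts

set_option autoImplicit false

namespace NMD

open Set Topology

universe u

namespace BR

theorem inter_closed {X : Type u} [TopologicalSpace X] (n : ℕ) :
    ∀ (S C : Set X), RInd n S → IsClosed C → RInd n (C ∩ S) := by
  induction n with
  | zero =>
    intro S C h _
    have h1 : S = ∅ := h
    show C ∩ S = ∅
    rw [h1, inter_empty]
  | succ n ih =>
    intro S C h hC A B hA hB hAB
    obtain ⟨G, H, hG, hH, h1, h2, h3, h4⟩ := h (A ∩ C) (B ∩ C) (hA.inter hC) (hB.inter hC) (by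
      ext x
      simp only [mem_inter_iff, mem_empty_iff_false, iff_false]
      rintro ⟨⟨⟨a, c⟩, b, _⟩, s⟩
      have h5 : x ∈ A ∩ B ∩ (C ∩ S) := ⟨⟨a, b⟩, c, s⟩
      rw [hAB] at h5
      exact h5)
    refine ⟨G, H, hG, hH, ?_, ?_, ?_, ?_⟩
    · rintro x ⟨a, c, s⟩
      exact h1 ⟨⟨a, c⟩, s⟩
    · rintro x ⟨a, c, s⟩
      exact h2 ⟨⟨a, c⟩, s⟩
    · ext x
      simp only [mem_inter_iff, mem_empty_iff_false, iff_false]
      rintro ⟨⟨g, k⟩, _, s⟩
      have h5 : x ∈ G ∩ H ∩ S := ⟨⟨g, k⟩, s⟩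
      rw [h3] at h5
      exact h5
    · have h5 := ih (S \ (G ∪ H)) C h4 hC
      have h6 : C ∩ (S \ (G ∪ H)) = (C ∩ S) \ (G ∪ H) := by
        ext x
        simp only [mem_inter_iff, mem_diff]
        tauto
      rwa [h6] at h5

theorem main {X : Type u} [TopologicalSpace X] (n : ℕ) :
    ∀ (Y : Type u) [TopologicalSpace Y] (f : Y → X), IsInducing f → RInd n (range f) →
      IndLT n Y := by
  induction n with
  | zero =>
    intro Y _ f _ h
    have h1 : range f = ∅ := h
    show IsEmpty Y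
    exact range_eq_empty_iff.1 h1
  | succ n ih =>
    intro Y _ f hf h A U hA hU hAU
    obtain ⟨A', hA', rfl⟩ := hf.isClosed_iff.1 hA
    obtain ⟨B', hB', hB2⟩ := hf.isClosed_iff.1 hU.isClosed_compl
    obtain ⟨G, H, hG, hH, h1, h2, h3, h4⟩ := h A' B' hA' hB' (by
      ext x
      simp only [mem_inter_iff, mem_empty_iff_false, iff_false, mem_range]
      rintro ⟨⟨a, b⟩, y, rfl⟩
      have h5 : y ∈ Uᶜ := by
        rw [← hB2]
        exact b
      exact h5 (hAU a))
    have k1 : Disjoint (f ⁻¹' G) (f ⁻¹' H) := by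
      rw [Set.disjoint_left]
      intro y a b
      have h5 : f y ∈ G ∩ H ∩ range f := ⟨⟨a, b⟩, y, rfl⟩
      rw [h3] at h5
      exact h5
    have k2 : Disjoint (closure (f ⁻¹' G)) (f ⁻¹' H) :=
      k1.closure_left (hH.preimage hf.continuous)
    refine ⟨f ⁻¹' G, hG.preimage hf.continuous, ?_, ?_, ?_⟩
    · intro y hy
      exact h1 ⟨hy, y, rfl⟩
    · intro y hy
      by_contra hc
      have h5 : y ∈ f ⁻¹' B' := by
        rw [hB2]
        exact hc
      exact Set.disjoint_left.1 k2 hy (h2 ⟨h5, y, rfl⟩)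
    · have hcl : IsClosed (frontier (f ⁻¹' G)) := isClosed_frontier
      obtain ⟨C, hC, hC2⟩ := hf.isClosed_iff.1 hcl
      have h5 := inter_closed n (range f \ (G ∪ H)) C h4 hC
      have h6 : C ∩ (range f \ (G ∪ H)) =
          range (f ∘ (Subtype.val : frontier (f ⁻¹' G) → Y)) := by
        ext x
        simp only [mem_inter_iff, mem_diff, mem_range, Function.comp_apply, Subtype.exists]
        constructor
        · rintro ⟨c, ⟨y, rfl⟩, _⟩
          refine ⟨y, ?_, rfl⟩
          rw [← hC2]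
          exact c
        · rintro ⟨y, hy, rfl⟩
          have hy2 := hy
          rw [← hC2] at hy2
          refine ⟨hy2, ⟨y, rfl⟩, ?_⟩
          have hy3 : y ∈ closure (f ⁻¹' G) \ f ⁻¹' G := by
            rw [(hG.preimage hf.continuous).frontier_eq] at hy
            exact hy
          rintro (g | k)
          · exact hy3.2 g
          · exact Set.disjoint_left.1 k2 hy3.1 k
      rw [h6] at h5
      exact ih _ _ (hf.comp IsInducing.subtypeVal) h5

end BR

theorem t_BR : S_BR.{u} := by
  intro X _ n h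
  refine BR.main n X id IsInducing.id ?_
  rwa [range_id]

end NMD
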