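import Pool.Agent.NMD.Stmts3

/-!
# The relative inductive dimension of a subspace with `IndLT n`
-/

set_option autoImplicit false

namespace NMD

open Set Topology

universe u

namespace BR2

theorem main {X : Type u} [TopologicalSpace X] (n : ℕ) :
    ∀ (Y : Type u) [TopologicalSpace Y] (f : Y → X), IsInducing f → IndLT n Y →
      RInd n (range f) := by
  induction n with
  | zero =>
    intro Y _ f _ h
    have h1 : IsEmpty Y := h
    show range f = ∅
    exact range_eq_empty_iff.2 h1
  | succ n ih =>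
    intro Y _ f hf h A B hA hB hAB
    obtain ⟨V, hV, h1, h2, h3⟩ := h (f ⁻¹' A) (f ⁻¹' B)ᶜ (hA.preimage hf.continuous)
      (hB.preimage hf.continuous).isOpen_compl (by
        intro y hy hc
        have h5 : f y ∈ A ∩ B ∩ range f := ⟨⟨hy, hc⟩, y, rfl⟩
        rw [hAB] at h5
        exact h5)
    obtain ⟨G, hG, hG2⟩ := hf.isOpen_iff.1 hV
    obtain ⟨H, hH, hH2⟩ := hf.isOpen_iff.1 (isClosed_closure (s := V)).isOpen_compl
    have kG : ∀ y, f y ∈ G ↔ y ∈ V := fun y => by rw [← hG2]; rfl
    have kH : ∀ y, f y ∈ H ↔ y ∉ closure V := fun y => by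
      have : y ∈ f ⁻¹' H ↔ y ∈ (closure V)ᶜ := by rw [hH2]
      exact this
    refine ⟨G, H, hG, hH, ?_, ?_, ?_, ?_⟩
    · rintro _ ⟨a, y, rfl⟩
      exact (kG y).2 (h1 a)
    · rintro _ ⟨b, y, rfl⟩
      exact (kH y).2 fun hc => h2 hc b
    · ext x
      simp only [mem_inter_iff, mem_empty_iff_false, iff_false]
      rintro ⟨⟨g, k⟩, y, rfl⟩
      exact (kH y).1 k (subset_closure ((kG y).1 g))
    · have h6 : range f \ (G ∪ H) = range (f ∘ (Subtype.val : frontier V → Y)) := by
        ext x
        simp only [mem_diff, mem_union, mem_range, Function.comp_apply, Subtype.exists]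
        constructor
        · rintro ⟨⟨y, rfl⟩, h7⟩
          refine ⟨y, ?_, rfl⟩
          rw [hV.frontier_eq]
          refine ⟨?_, fun hy => h7 (Or.inl ((kG y).2 hy))⟩
          by_contra hc
          exact h7 (Or.inr ((kH y).2 hc))
        · rintro ⟨y, hy, rfl⟩
          rw [hV.frontier_eq] at hy
          refine ⟨⟨y, rfl⟩, ?_⟩
          rintro (g | k)
          · exact hy.2 ((kG y).1 g)
          · exact (kH y).1 k hy.1
      rw [h6]
      exact ih _ _ (hf.comp IsInducing.subtypeVal) h3

end BR2

theorem t_BR2 : S_BR2.{u} := by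
  intro X _ n S h
  have h1 := BR2.main n S (Subtype.val : S → X) IsInducing.subtypeVal h
  rwa [Subtype.range_coe] at h1

end NMD
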