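import Pool.Agent.NMD.Stmts

/-!
# Basic lemmas
-/

namespace NMD

open Set Topology

universe u

variable {X : Type u} [TopologicalSpace X]

/-! ### Covering dimension -/

theorem DimLT.mono {n m : ℕ} (h : DimLT X n) (hnm : n ≤ m) : DimLT X m := by
  intro 𝒰 h1 h2 h3
  obtain ⟨𝒱, a, b, c, d, e⟩ := h 𝒰 h1 h2 h3
  exact ⟨𝒱, a, b, c, d, fun x => (e x).trans hnm⟩

/-- every finite open cover has a shrinking of order `n` -/
theorem DimLT.shrink {n : ℕ} (h : DimLT X n) {ι : Type*} [Finite ι] (U : ι → Set X)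
    (hU : ∀ i, IsOpen (U i)) (hc : ⋃ i, U i = univ) :
    ∃ V : ι → Set X, (∀ i, IsOpen (V i)) ∧ (∀ i, V i ⊆ U i) ∧ ⋃ i, V i = univ ∧
      ∀ x, {i | x ∈ V i}.ncard ≤ n := by
  classical
  obtain ⟨𝒱, hf, ho, hcov, href, hord⟩ := h (range U) (finite_range U)
    (by rintro _ ⟨i, rfl⟩; exact hU i) (by rw [sUnion_range, hc])
  have h1 : ∀ V : 𝒱, ∃ i, V.1 ⊆ U i := by
    rintro ⟨V, hV⟩
    obtain ⟨_, ⟨i, rfl⟩, hi⟩ := href V hV
    exact ⟨i, hi⟩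
  choose φ hφ using h1
  refine ⟨fun i => ⋃ V ∈ {V : 𝒱 | φ V = i}, V.1, ?_, ?_, ?_, ?_⟩
  · intro i
    exact isOpen_biUnion fun V _ => ho V.1 V.2
  · intro i
    refine iUnion₂_subset ?_
    rintro V hV
    have hV' : φ V = i := hV
    rw [← hV']
    exact hφ V
  · rw [eq_univ_iff_forall]
    intro x
    have hx : x ∈ ⋃₀ 𝒱 := by rw [hcov]; trivial
    obtain ⟨V, hV, hxV⟩ := hx
    rw [mem_iUnion]
    exact ⟨φ ⟨V, hV⟩, mem_biUnion (x := (⟨V, hV⟩ : 𝒱)) rfl hxV⟩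
  · intro x
    have hfin : {V ∈ 𝒱 | x ∈ V}.Finite := hf.subset fun V hV => hV.1
    have h2 : ∀ i, x ∈ (⋃ V ∈ {V : 𝒱 | φ V = i}, V.1) → (some i : Option ι) ∈
        (fun V : Set X => if hV : V ∈ 𝒱 then some (φ ⟨V, hV⟩) else none) ''
          {V ∈ 𝒱 | x ∈ V} := by
      intro i hi
      obtain ⟨V, hV, hxV⟩ := mem_iUnion₂.1 hi
      refine ⟨V.1, ⟨V.2, hxV⟩, ?_⟩
      have hV' : φ V = i := hV
      simp [hV']
    refine le_trans ?_ (hord x)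
    have h3 : {i | x ∈ ⋃ V ∈ {V : 𝒱 | φ V = i}, V.1}.ncard ≤
        ((fun V : Set X => if hV : V ∈ 𝒱 then some (φ ⟨V, hV⟩) else none) ''
          {V ∈ 𝒱 | x ∈ V}).ncard := by
      rw [← ncard_image_of_injective _ (Option.some_injective ι)]
      refine ncard_le_ncard ?_ (hfin.image _)
      rintro _ ⟨i, hi, rfl⟩
      exact h2 i hi
    exact h3.trans (ncard_image_le hfin)

/-- the converse -/
theorem DimLT.of_shrink {n : ℕ} (h : ∀ (k : ℕ) (U : Fin k → Set X), (∀ i, IsOpen (U i)) →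
    ⋃ i, U i = univ → ∃ (κ : Type) (_ : Finite κ) (V : κ → Set X), (∀ j, IsOpen (V j)) ∧
      (∀ j, ∃ i, V j ⊆ U i) ∧ ⋃ j, V j = univ ∧ ∀ x, {j | x ∈ V j}.ncard ≤ n) : DimLT X n := by
  classical
  intro 𝒰 h1 h2 h3
  obtain ⟨k, ⟨e⟩⟩ : ∃ k : ℕ, Nonempty (Fin k ≃ 𝒰) := by
    haveI := h1.to_subtype
    obtain ⟨k, ⟨e⟩⟩ := Finite.exists_equiv_fin 𝒰
    exact ⟨k, ⟨e.symm⟩⟩
  obtain ⟨κ, hκ, V, ho, href, hc, hord⟩ := h k (fun i => (e i).1) (fun i => h2 _ (e i).2) (by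
    rw [← h3]
    ext x
    rw [mem_iUnion, mem_sUnion]
    constructor
    · rintro ⟨i, hi⟩
      exact ⟨_, (e i).2, hi⟩
    · rintro ⟨U, hU, hx⟩
      exact ⟨e.symm ⟨U, hU⟩, by rw [e.apply_symm_apply]; exact hx⟩)
  refine ⟨range V, finite_range V, ?_, ?_, ?_, ?_⟩
  · rintro _ ⟨j, rfl⟩
    exact ho j
  · rw [sUnion_range, hc]
  · rintro _ ⟨j, rfl⟩
    obtain ⟨i, hi⟩ := href j
    exact ⟨_, (e i).2, hi⟩
  · intro x
    refine le_trans ?_ (hord x)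
    have h4 : {W ∈ range V | x ∈ W} ⊆ V '' {j | x ∈ V j} := by
      rintro _ ⟨⟨j, rfl⟩, hx⟩
      exact ⟨j, hx, rfl⟩
    exact (ncard_le_ncard h4 (toFinite _)).trans (ncard_image_le (toFinite _))

/-! ### Zero-dimensional sets -/

theorem ZD.inter_closed {S C : Set X} (h : ZD S) (hC : IsClosed C) : ZD (C ∩ S) := by
  intro A B hA hB hAB
  obtain ⟨G, H, h1, h2, h3, h4, h5, h6⟩ := h (A ∩ C) B (hA.inter hC) hB (by
    rw [← hAB]
    ext x
    simp only [mem_inter_iff]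
    tauto)
  refine ⟨G, H ∪ Cᶜ, h1, h2.union hC.isOpen_compl, ?_, ?_, ?_, ?_⟩
  · rintro x ⟨ha, hc, hs⟩
    exact h3 ⟨⟨ha, hc⟩, hs⟩
  · rintro x ⟨hb, hc, hs⟩
    exact Or.inl (h4 ⟨hb, hs⟩)
  · rintro x ⟨hc, hs⟩
    rcases h5 hs with h | h
    · exact Or.inl h
    · exact Or.inr (Or.inl h)
  · rw [eq_empty_iff_forall_notMem]
    rintro x ⟨⟨hg, hh⟩, hc, hs⟩
    rcases hh with hh | hh
    · exact (eq_empty_iff_forall_notMem.1 h6 x) ⟨⟨hg, hh⟩, hs⟩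
    · exact hh hc

theorem ZD.empty : ZD (∅ : Set X) := by
  intro A B _ _ _
  exact ⟨∅, ∅, isOpen_empty, isOpen_empty, by simp, by simp, by simp, by simp⟩

/-! ### `σ`-disjoint bases -/

theorem IsSDB.mono {S S' : Set X} {B : ℕ → Set (Set X)} (h : IsSDB S B) (hS : S' ⊆ S) :
    IsSDB S' (fun m => (fun b => b ∩ S') '' B m) where
  op := by
    rintro m _ ⟨b, hb, rfl⟩
    obtain ⟨O, hO, rfl⟩ := h.op m b hb
    refine ⟨O, hO, ?_⟩
    ext x
    simp only [mem_inter_iff]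
    constructor
    · rintro ⟨⟨h1, _⟩, h2⟩
      exact ⟨h1, h2⟩
    · rintro ⟨h1, h2⟩
      exact ⟨⟨h1, hS h2⟩, h2⟩
  disj := by
    rintro m _ ⟨b, hb, rfl⟩ _ ⟨b', hb', rfl⟩ hne
    have hne' : b ≠ b' := fun e => hne (by rw [e])
    have := h.disj m hb hb' hne'
    exact this.mono inter_subset_left inter_subset_left
  base := by
    intro x hx U hU hxU
    obtain ⟨m, b, hb, h1, h2⟩ := h.base x (hS hx) U hU hxU
    exact ⟨m, b ∩ S', ⟨b, hb, rfl⟩, ⟨h1, hx⟩, inter_subset_left.trans h2⟩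

theorem SDB.mono {S S' : Set X} (h : SDB S) (hS : S' ⊆ S) : SDB S' := by
  obtain ⟨B, hB⟩ := h
  exact ⟨_, hB.mono hS⟩

theorem SCD.mono {S S' : Set X} (h : SCD S) (hS : S' ⊆ S) : SCD S' := by
  obtain ⟨P, h1, h2, h3⟩ := h
  refine ⟨fun k => P k ∩ S', ?_, ?_, fun k => (h3 k).mono inter_subset_left⟩
  · intro k
    obtain ⟨C, hC, e⟩ := h1 k
    refine ⟨C, hC, ?_⟩
    change P k ∩ S' = C ∩ S'
    rw [e]
    ext x
    simp only [mem_inter_iff]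
    constructor
    · rintro ⟨⟨a, _⟩, b⟩
      exact ⟨a, b⟩
    · rintro ⟨a, b⟩
      exact ⟨⟨a, hS b⟩, b⟩
  · rw [← iUnion_inter, h2, inter_eq_self_of_subset_right hS]

theorem SDB.SCD {S : Set X} (h : SDB S) : NMD.SCD S :=
  ⟨fun _ => S, fun _ => ⟨univ, isClosed_univ, (univ_inter S).symm⟩, iUnion_const S, fun _ => h⟩

/-- a countable union of relatively closed subspaces with the property `SCD` -/
theorem SCD.of_iUnion {S : Set X} (P : ℕ → Set X) (h1 : ∀ k, ∃ C, IsClosed C ∧ P k = C ∩ S)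
    (h2 : ⋃ k, P k = S) (h3 : ∀ k, SCD (P k)) : SCD S := by
  choose Q hQ1 hQ2 hQ3 using h3
  refine ⟨fun n => Q n.unpair.1 n.unpair.2, ?_, ?_, fun n => hQ3 _ _⟩
  · intro n
    obtain ⟨C, hC, e⟩ := h1 n.unpair.1
    obtain ⟨C', hC', e'⟩ := hQ1 n.unpair.1 n.unpair.2
    refine ⟨C' ∩ C, hC'.inter hC, ?_⟩
    change Q n.unpair.1 n.unpair.2 = _
    rw [e', e, inter_assoc]
  · rw [← h2]
    ext x
    simp only [mem_iUnion]
    constructor
    · rintro ⟨n, hn⟩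
      refine ⟨n.unpair.1, ?_⟩
      rw [← hQ2]
      exact mem_iUnion.2 ⟨_, hn⟩
    · rintro ⟨k, hk⟩
      rw [← hQ2] at hk
      obtain ⟨l, hl⟩ := mem_iUnion.1 hk
      exact ⟨Nat.pair k l, by rw [Nat.unpair_pair]; exact hl⟩

/-! ### Developable spaces -/

/-- open sets are `F_σ` -/
theorem Developable.open_eq (h : Developable X) {O : Set X} (hO : IsOpen O) :
    ∃ C : ℕ → Set X, (∀ n, IsClosed (C n)) ∧ O = ⋃ n, C n := by
  obtain ⟨G, hG, hd⟩ := h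
  refine ⟨fun n => (⋃₀ {g ∈ G n | (g ∩ Oᶜ).Nonempty})ᶜ, ?_, ?_⟩
  · intro n
    rw [isClosed_compl_iff]
    exact isOpen_sUnion fun g hg => (hG n).1 g hg.1
  · ext x
    rw [mem_iUnion]
    constructor
    · intro hx
      obtain ⟨n, hn⟩ := hd x O hO hx
      refine ⟨n, ?_⟩
      rintro ⟨g, ⟨hg, y, hy, hyO⟩, hxg⟩
      exact hyO (hn ⟨g, ⟨hg, hxg⟩, hy⟩)
    · rintro ⟨n, hn⟩
      by_contra hx
      apply hn
      have : x ∈ ⋃₀ G n := by rw [(hG n).2]; trivial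
      obtain ⟨g, hg, hxg⟩ := this
      exact ⟨g, ⟨hg, x, hxg, hx⟩, hxg⟩

/-- gluing of an open and a closed part -/
theorem SCD.glue (hX : Developable X) {S O : Set X} (hO : IsOpen O) (h1 : SCD (S ∩ O))
    (h2 : SCD (S \ O)) : SCD S := by
  obtain ⟨C, hC, e⟩ := hX.open_eq hO
  refine SCD.of_iUnion (fun n => Nat.casesOn n (S \ O) fun n => C n ∩ S) ?_ ?_ ?_
  · intro k
    cases k with
    | zero =>
      refine ⟨Oᶜ, hO.isClosed_compl, ?_⟩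
      change S \ O = Oᶜ ∩ S
      ext x
      simp only [mem_sdiff, mem_inter_iff, mem_compl_iff]
      tauto
    | succ k => exact ⟨C k, hC k, rfl⟩
  · ext x
    rw [mem_iUnion]
    constructor
    · rintro ⟨n, hn⟩
      cases n with
      | zero => exact hn.1
      | succ n => exact hn.2
    · intro hx
      by_cases hxO : x ∈ O
      · rw [e] at hxO
        obtain ⟨n, hn⟩ := mem_iUnion.1 hxO
        exact ⟨n + 1, hn, hx⟩
      · exact ⟨0, hx, hxO⟩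
  · intro k
    cases k with
    | zero => exact h2
    | succ k =>
      refine h1.mono ?_
      rintro x ⟨hx, hs⟩
      exact ⟨hs, by rw [e]; exact mem_iUnion.2 ⟨k, hx⟩⟩

end NMD
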