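import Pool.Agent.NMD.Stmts3
import Pool.Agent.NMD.BR

set_option autoImplicit false

namespace NMD

open Set Topology

universe u

namespace CE1

/-- the shell with index `j` -/
def K {X : Type u} (f : X → ℝ) (j : ℕ) : Set X :=
  {x | 1 ≤ f x * ((j : ℝ) + 2) ∧ f x * ((j : ℝ) + 1) ≤ 1}

/-- the complement of a neighbourhood of the shell with index `j` -/
def L {X : Type u} (f : X → ℝ) (j : ℕ) : Set X :=
  {x | f x * ((j : ℝ) + 3) ≤ 1} ∪ {x | 1 ≤ f x * (j : ℝ)}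

theorem K_closed {X : Type u} [TopologicalSpace X] {f : X → ℝ} (hf : Continuous f) (j : ℕ) :
    IsClosed (K f j) := by
  apply IsClosed.inter
  · exact isClosed_le continuous_const (hf.mul continuous_const)
  · exact isClosed_le (hf.mul continuous_const) continuous_const

theorem L_closed {X : Type u} [TopologicalSpace X] {f : X → ℝ} (hf : Continuous f) (j : ℕ) :
    IsClosed (L f j) := by
  apply IsClosed.union
  · exact isClosed_le (hf.mul continuous_const) continuous_const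
  · exact isClosed_le continuous_const (hf.mul continuous_const)

theorem K_pos {X : Type u} {f : X → ℝ} {j : ℕ} {x : X} (hx : x ∈ K f j) : 0 < f x := by
  obtain ⟨h1, _⟩ := hx
  by_contra h
  push Not at h
  have h2 : (0 : ℝ) ≤ (j : ℝ) + 2 := by positivity
  have h3 : f x * ((j : ℝ) + 2) ≤ 0 := mul_nonpos_of_nonpos_of_nonneg h h2
  linarith

theorem K_L {X : Type u} {f : X → ℝ} {j : ℕ} {x : X} (hx : x ∈ K f j) : x ∉ L f j := by
  have h0 := K_pos hx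
  obtain ⟨h1, h2⟩ := hx
  rintro (h3 | h3)
  · have h4 : f x * ((j : ℝ) + 3) ≤ 1 := h3
    nlinarith
  · have h4 : 1 ≤ f x * (j : ℝ) := h3
    nlinarith

theorem exists_K {X : Type u} {f : X → ℝ} {x : X} (h0 : 0 < f x) (h1 : f x ≤ 1) :
    ∃ j, x ∈ K f j := by
  have h2 : 1 ≤ (f x)⁻¹ := (one_le_inv₀ h0).2 h1
  have h3 : 1 ≤ ⌊(f x)⁻¹⌋₊ := by
    rw [Nat.one_le_floor_iff]
    exact h2
  obtain ⟨j, hj⟩ := Nat.exists_eq_add_of_le h3
  have h4 : ((⌊(f x)⁻¹⌋₊ : ℕ) : ℝ) ≤ (f x)⁻¹ := Nat.floor_le (by positivity)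
  have h5 : (f x)⁻¹ < (⌊(f x)⁻¹⌋₊ : ℝ) + 1 := Nat.lt_floor_add_one _
  rw [hj] at h4 h5
  push_cast at h4 h5
  refine ⟨j, ?_, ?_⟩
  · have h6 : f x * (f x)⁻¹ ≤ f x * (1 + (j : ℝ) + 1) := mul_le_mul_of_nonneg_left h5.le h0.le
    rw [mul_inv_cancel₀ h0.ne'] at h6
    linarith
  · have h6 : f x * (1 + (j : ℝ)) ≤ f x * (f x)⁻¹ := mul_le_mul_of_nonneg_left h4 h0.le
    rw [mul_inv_cancel₀ h0.ne'] at h6
    linarith

end CE1

open CE1

theorem t_CE1 : S_CE1.{u} := by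
  intro X _ _ n hsum S O hS hO A B hA hB hAB
  obtain ⟨f, hf, hf01⟩ := (perfectlyNormalSpace_iff_forall_isClosed_preimage_zero (X := X)).1
    inferInstance Oᶜ hO.isClosed_compl
  have hpos : ∀ x, x ∈ O ↔ 0 < f x := by
    intro x
    have h1 : x ∈ Oᶜ ↔ f x = 0 := by
      rw [hf]
      rfl
    have h2 := (hf01 x).1
    constructor
    · intro hx
      have h3 : f x ≠ 0 := fun h => (h1.2 h) hx
      exact lt_of_le_of_ne h2 h3.symm
    · intro hx
      by_contra h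
      exact hx.ne' (h1.1 h)
  have hKO : ∀ j x, x ∈ K f j → x ∈ O := fun j x hx => (hpos x).2 (K_pos hx)
  have key : ∀ j : ℕ, ∃ G H : Set X, IsOpen G ∧ IsOpen H ∧ (A ∩ K f j) ∩ S ⊆ G ∧
      (B ∪ L f j) ∩ S ⊆ H ∧ G ∩ H ∩ S = ∅ ∧ RInd n (S \ (G ∪ H)) := by
    intro j
    apply hS (A ∩ K f j) (B ∪ L f j) (hA.inter (K_closed f.continuous j))
      (hB.union (L_closed f.continuous j))
    ext x
    simp only [mem_inter_iff, mem_empty_iff_false, iff_false]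
    rintro ⟨⟨⟨a, hk⟩, hb | hl⟩, hs⟩
    · have h5 : x ∈ A ∩ B ∩ (S ∩ O) := ⟨⟨a, hb⟩, hs, hKO j x hk⟩
      rw [hAB] at h5
      exact h5
    · exact K_L hk hl
  choose G H hG hH h1 h2 h3 h4 using key
  set Hs : Set X := ⋃₀ {W | IsOpen W ∧ W ∩ (S ∩ O) ⊆ ⋂ j, H j} with hHs
  have hHo : IsOpen Hs := isOpen_sUnion fun W hW => hW.1
  have hH1 : ∀ x, x ∈ Hs → x ∈ S ∩ O → ∀ j, x ∈ H j := by
    rintro x ⟨W, hW, hxW⟩ hx j
    exact mem_iInter.1 (hW.2 ⟨hxW, hx⟩) j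
  have hH2 : ∀ x, x ∈ S ∩ O → (∀ j, x ∈ H j) → x ∈ Hs := by
    intro x hx hxH
    have hc : 0 < f x := (hpos x).1 hx.2
    obtain ⟨J, hJ⟩ := exists_nat_ge (2 / f x)
    refine ⟨{y | f x / 2 < f y} ∩ ⋂ j ∈ Finset.range J, H j, ⟨?_, ?_⟩, ?_⟩
    · apply IsOpen.inter
      · exact isOpen_lt continuous_const f.continuous
      · exact isOpen_biInter_finset fun j _ => hH j
    · rintro y ⟨⟨hy1, hy2⟩, hyS, hyO⟩
      rw [mem_iInter]
      intro j
      by_cases hj : j < J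
      · have h5 := mem_iInter₂.1 hy2 j (Finset.mem_range.2 hj)
        exact h5
      · push Not at hj
        apply h2 j
        refine ⟨Or.inr (Or.inr ?_), hyS⟩
        have hy3 : f x / 2 < f y := hy1
        have h5 : (2 / f x : ℝ) ≤ (j : ℝ) := hJ.trans (by exact_mod_cast hj)
        have h6 : (f x / 2) * (2 / f x) = 1 := by
          field_simp
        show 1 ≤ f y * (j : ℝ)
        calc (1 : ℝ) = (f x / 2) * (2 / f x) := h6.symm
          _ ≤ f y * (j : ℝ) := by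
            apply mul_le_mul hy3.le h5 (by positivity)
            linarith
    · refine ⟨?_, ?_⟩
      · show f x / 2 < f x
        linarith
      · rw [mem_iInter₂]
        intro j _
        exact hxH j
  have hS2 : ∀ j x, x ∈ S \ (G j ∪ H j) → x ∈ O := by
    intro j x hx
    by_contra hO'
    have h5 : ¬ 0 < f x := fun h => hO' ((hpos x).2 h)
    have h6 : f x = 0 := le_antisymm (not_lt.1 h5) (hf01 x).1
    apply hx.2
    right
    apply h2 j
    refine ⟨Or.inr (Or.inl ?_), hx.1⟩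
    show f x * ((j : ℝ) + 3) ≤ 1
    rw [h6, zero_mul]
    exact zero_le_one
  refine ⟨O ∩ ⋃ j, G j, Hs, hO.inter (isOpen_iUnion hG), hHo, ?_, ?_, ?_, ?_⟩
  · rintro x ⟨a, hs, ho⟩
    obtain ⟨j, hj⟩ := exists_K ((hpos x).1 ho) (hf01 x).2
    exact ⟨ho, mem_iUnion.2 ⟨j, h1 j ⟨⟨a, hj⟩, hs⟩⟩⟩
  · rintro x ⟨b, hs, ho⟩
    apply hH2 x ⟨hs, ho⟩
    intro j
    exact h2 j ⟨Or.inl b, hs⟩
  · ext x
    simp only [mem_inter_iff, mem_empty_iff_false, iff_false, mem_iUnion]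
    rintro ⟨⟨⟨_, j, hj⟩, hh⟩, hs, ho⟩
    have h5 : x ∈ G j ∩ H j ∩ S := ⟨⟨hj, hH1 x hh ⟨hs, ho⟩ j⟩, hs⟩
    rw [h3 j] at h5
    exact h5
  · apply hsum _ (fun j => ((S ∩ O) \ ((O ∩ ⋃ j, G j) ∪ Hs)) ∩ (G j ∪ H j)ᶜ)
    · intro j
      refine ⟨(G j ∪ H j)ᶜ, ((hG j).union (hH j)).isClosed_compl, ?_⟩
      rw [inter_comm]
    · apply Subset.antisymm
      · apply iUnion_subset
        intro j
        exact inter_subset_left
      · intro x hx
        have hxG : ∀ j, x ∉ G j := fun j hj =>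
          hx.2 (Or.inl ⟨hx.1.2, mem_iUnion.2 ⟨j, hj⟩⟩)
        have hxH : ∃ j, x ∉ H j := by
          by_contra hcon
          push Not at hcon
          exact hx.2 (Or.inr (hH2 x hx.1 hcon))
        obtain ⟨j, hj⟩ := hxH
        refine mem_iUnion.2 ⟨j, hx, ?_⟩
        rintro (h5 | h5)
        · exact hxG j h5
        · exact hj h5
    · intro j
      have h5 := BR.inter_closed n (S \ (G j ∪ H j)) ((O ∩ ⋃ j, G j) ∪ Hs)ᶜ (h4 j)
        ((hO.inter (isOpen_iUnion hG)).union hHo).isClosed_compl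
      have h6 : ((O ∩ ⋃ j, G j) ∪ Hs)ᶜ ∩ (S \ (G j ∪ H j)) =
          ((S ∩ O) \ ((O ∩ ⋃ j, G j) ∪ Hs)) ∩ (G j ∪ H j)ᶜ := by
        ext x
        constructor
        · rintro ⟨h7, h8⟩
          exact ⟨⟨⟨h8.1, hS2 j x h8⟩, h7⟩, h8.2⟩
        · rintro ⟨⟨h7, h8⟩, h9⟩
          exact ⟨h8, h7.1, h9⟩
      rw [h6] at h5
      exact h5

end NMD
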