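import Pool.Agent.NMD.Stmts3
import Pool.Agent.NMD.BR

set_option autoImplicit false

namespace NMD

open Set Topology

universe u

namespace CE2

/-- separated sets have neighbourhoods whose closures do not meet in the subspace -/
theorem sep {X : Type u} [TopologicalSpace X] [PerfectlyNormalSpace X] (Z s t : Set X)
    (hs : s ⊆ Z) (ht : t ⊆ Z) (hs2 : closure s ∩ Z ⊆ s) (ht2 : closure t ∩ Z ⊆ t)
    (hd : s ∩ t = ∅) :
    ∃ U V : Set X, IsOpen U ∧ IsOpen V ∧ s ⊆ U ∧ t ⊆ V ∧ closure U ∩ closure V ∩ Z = ∅ := by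
  have cn : ∀ a b : Set X, closure a ∩ b = ∅ → a ∩ closure b = ∅ → SeparatedNhds a b := by
    intro a b h1 h2
    exact separatedNhds_iff_disjoint.2 (CompletelyNormalSpace.completely_normal
      (disjoint_iff_inter_eq_empty.2 h1) (disjoint_iff_inter_eq_empty.2 h2))
  -- one-sided version
  have one : ∀ a W : Set X, a ⊆ Z → closure a ∩ Z ⊆ a → IsOpen W → a ⊆ W →
      ∃ W' : Set X, IsOpen W' ∧ a ⊆ W' ∧ closure W' ∩ Z ⊆ W := by
    intro a W haZ ha hW haW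
    obtain ⟨P, Q, hP, hQ, h1, h2, h3⟩ := cn a (Z \ W) (by
      rw [eq_empty_iff_forall_notMem]
      rintro x ⟨h1, h2⟩
      exact h2.2 (haW (ha ⟨h1, h2.1⟩))) (by
      rw [eq_empty_iff_forall_notMem]
      rintro x ⟨h1, h2⟩
      have h3 : closure (Z \ W) ⊆ Wᶜ := by
        apply closure_minimal _ hW.isClosed_compl
        intro y hy
        exact hy.2
      exact h3 h2 (haW h1))
    refine ⟨P, hP, h1, ?_⟩
    rintro x ⟨hx, hxZ⟩
    by_contra hxW
    exact Set.disjoint_left.1 (h3.closure_left hQ) hx (h2 ⟨hxZ, hxW⟩)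
  obtain ⟨P, Q, hP, hQ, h1, h2, h3⟩ := cn s t (by
      rw [eq_empty_iff_forall_notMem]
      rintro x ⟨h1, h2⟩
      have h3 : x ∈ s ∩ t := ⟨hs2 ⟨h1, ht h2⟩, h2⟩
      rw [hd] at h3
      exact h3) (by
      rw [eq_empty_iff_forall_notMem]
      rintro x ⟨h1, h2⟩
      have h3 : x ∈ s ∩ t := ⟨h1, ht2 ⟨h2, hs h1⟩⟩
      rw [hd] at h3
      exact h3)
  obtain ⟨U, hU, hsU, hUP⟩ := one s P hs hs2 hP h1
  obtain ⟨V, hV, htV, hVQ⟩ := one t Q ht ht2 hQ h2
  refine ⟨U, V, hU, hV, hsU, htV, ?_⟩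
  rw [eq_empty_iff_forall_notMem]
  rintro x ⟨⟨h4, h5⟩, h6⟩
  exact Set.disjoint_left.1 h3 (hUP ⟨h4, h6⟩) (hVQ ⟨h5, h6⟩)

/-- the state of the construction -/
structure St {X : Type u} [TopologicalSpace X] (S A B : Set X) where
  U : Set X
  V : Set X
  E : Set X
  hU : IsOpen U
  hV : IsOpen V
  hE : IsClosed E
  hA : A ∩ S ⊆ U
  hB : B ∩ S ⊆ V
  dU : U ∩ E ∩ S = ∅
  dV : V ∩ E ∩ S = ∅
  cl : closure U ∩ closure V ∩ S ⊆ E

/-- the relation between consecutive states -/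
def Rel {X : Type u} [TopologicalSpace X] {S A B : Set X} (n : ℕ) (C : Set X)
    (s s' : St S A B) : Prop :=
  ∃ G H : Set X, IsOpen G ∧ IsOpen H ∧ RInd n (((C ∩ S) ∩ s.Eᶜ) \ (G ∪ H)) ∧
    s'.E = s.E ∪ (C \ (G ∪ H)) ∧ s.U ∩ S ⊆ s'.U ∧ s.V ∩ S ⊆ s'.V ∧
    C ∩ S ⊆ s'.U ∪ s'.V ∪ s'.E

theorem step {X : Type u} [TopologicalSpace X] [PerfectlyNormalSpace X] {S A B : Set X} (n : ℕ)
    (hO : ∀ S O : Set X, RInd (n + 1) S → IsOpen O → RInd (n + 1) (S ∩ O))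
    (C : Set X) (hC : IsClosed C) (hF : RInd (n + 1) (C ∩ S)) (s : St S A B) :
    ∃ s' : St S A B, Rel n C s s' := by
  have hT := hO _ _ hF s.hE.isOpen_compl
  obtain ⟨G, H, hG, hH, h1, h2, h3, h4⟩ := hT (closure s.U) (closure s.V) isClosed_closure
    isClosed_closure (by
      rw [eq_empty_iff_forall_notMem]
      rintro x ⟨h1, h2⟩
      exact h2.2 (s.cl ⟨h1, h2.1.2⟩))
  have hE' : IsClosed (s.E ∪ (C \ (G ∪ H))) := by
    apply s.hE.union
    rw [sdiff_eq]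
    exact hC.inter (hG.union hH).isClosed_compl
  -- the two sets
  set Z : Set X := S \ (s.E ∪ (C \ (G ∪ H))) with hZ
  have hCZ : ∀ x ∈ Z, x ∈ C → x ∈ (C ∩ S) ∩ s.Eᶜ ∧ (x ∈ G ∨ x ∈ H) := by
    intro x hx hxC
    have e1 : x ∉ s.E := fun h => hx.2 (Or.inl h)
    refine ⟨⟨⟨hxC, hx.1⟩, e1⟩, ?_⟩
    by_contra hc
    exact hx.2 (Or.inr ⟨hxC, hc⟩)
  have hGH : ∀ x, x ∈ (C ∩ S) ∩ s.Eᶜ → x ∈ G → x ∈ H → False := by
    intro x hx h5 h6
    have h7 : x ∈ G ∩ H ∩ ((C ∩ S) ∩ s.Eᶜ) := ⟨⟨h5, h6⟩, hx⟩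
    rw [h3] at h7
    exact h7
  have c1 : closure ((closure s.U ∪ (C ∩ G)) ∩ Z) ∩ Z ⊆ (closure s.U ∪ (C ∩ G)) ∩ Z := by
    rintro x ⟨hx, hxZ⟩
    refine ⟨?_, hxZ⟩
    by_contra hc
    have k1 : x ∉ closure s.U := fun h => hc (Or.inl h)
    -- a neighbourhood of x that misses the set
    by_cases hxC : x ∈ C
    · obtain ⟨k2, k3⟩ := hCZ x hxZ hxC
      have k4 : x ∉ G := fun h => hc (Or.inr ⟨hxC, h⟩)
      have k5 : x ∈ H := k3.resolve_left k4
      have k6 : IsOpen (H ∩ (closure s.U)ᶜ) := hH.inter isClosed_closure.isOpen_compl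
      obtain ⟨y, ⟨y1, y2⟩, y3, y4⟩ := mem_closure_iff.1 hx _ k6 ⟨k5, k1⟩
      rcases y3 with y3 | y3
      · exact y2 y3
      · exact hGH y (hCZ y y4 y3.1).1 y3.2 y1
    · have k6 : IsOpen (Cᶜ ∩ (closure s.U)ᶜ) := hC.isOpen_compl.inter isClosed_closure.isOpen_compl
      obtain ⟨y, ⟨y1, y2⟩, y3, y4⟩ := mem_closure_iff.1 hx _ k6 ⟨hxC, k1⟩
      rcases y3 with y3 | y3
      · exact y2 y3
      · exact y1 y3.1
  have c2 : closure ((closure s.V ∪ (C ∩ H)) ∩ Z) ∩ Z ⊆ (closure s.V ∪ (C ∩ H)) ∩ Z := by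
    rintro x ⟨hx, hxZ⟩
    refine ⟨?_, hxZ⟩
    by_contra hc
    have k1 : x ∉ closure s.V := fun h => hc (Or.inl h)
    by_cases hxC : x ∈ C
    · obtain ⟨k2, k3⟩ := hCZ x hxZ hxC
      have k4 : x ∉ H := fun h => hc (Or.inr ⟨hxC, h⟩)
      have k5 : x ∈ G := k3.resolve_right k4
      have k6 : IsOpen (G ∩ (closure s.V)ᶜ) := hG.inter isClosed_closure.isOpen_compl
      obtain ⟨y, ⟨y1, y2⟩, y3, y4⟩ := mem_closure_iff.1 hx _ k6 ⟨k5, k1⟩
      rcases y3 with y3 | y3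
      · exact y2 y3
      · exact hGH y (hCZ y y4 y3.1).1 y1 y3.2
    · have k6 : IsOpen (Cᶜ ∩ (closure s.V)ᶜ) := hC.isOpen_compl.inter isClosed_closure.isOpen_compl
      obtain ⟨y, ⟨y1, y2⟩, y3, y4⟩ := mem_closure_iff.1 hx _ k6 ⟨hxC, k1⟩
      rcases y3 with y3 | y3
      · exact y2 y3
      · exact y1 y3.1
  obtain ⟨P, Q, hP, hQ, p1, p2, p3⟩ := sep Z _ _ inter_subset_right inter_subset_right c1 c2 (by
    rw [eq_empty_iff_forall_notMem]
    rintro x ⟨⟨x1, x2⟩, x3, _⟩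
    have xE : x ∉ s.E := fun h => x2.2 (Or.inl h)
    rcases x1 with x1 | x1 <;> rcases x3 with x3 | x3
    · exact xE (s.cl ⟨⟨x1, x3⟩, x2.1⟩)
    · have k := (hCZ x x2 x3.1).1
      exact hGH x k (h1 ⟨x1, k⟩) x3.2
    · have k := (hCZ x x2 x1.1).1
      exact hGH x k x1.2 (h2 ⟨x3, k⟩)
    · have k := (hCZ x x2 x1.1).1
      exact hGH x k x1.2 x3.2)
  have mU : s.U ∩ S ⊆ Z := by
    rintro x ⟨x1, x2⟩
    refine ⟨x2, ?_⟩
    have x3 : x ∉ s.E := by
      intro h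
      have h5 : x ∈ s.U ∩ s.E ∩ S := ⟨⟨x1, h⟩, x2⟩
      rw [s.dU] at h5
      exact h5
    rintro (h5 | h5)
    · exact x3 h5
    · exact h5.2 (Or.inl (h1 ⟨subset_closure x1, ⟨h5.1, x2⟩, x3⟩))
  have mV : s.V ∩ S ⊆ Z := by
    rintro x ⟨x1, x2⟩
    refine ⟨x2, ?_⟩
    have x3 : x ∉ s.E := by
      intro h
      have h5 : x ∈ s.V ∩ s.E ∩ S := ⟨⟨x1, h⟩, x2⟩
      rw [s.dV] at h5
      exact h5
    rintro (h5 | h5)
    · exact x3 h5
    · exact h5.2 (Or.inr (h2 ⟨subset_closure x1, ⟨h5.1, x2⟩, x3⟩))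
  have nU : s.U ∩ S ⊆ P ∩ (s.E ∪ (C \ (G ∪ H)))ᶜ := by
    intro x hx
    exact ⟨p1 ⟨Or.inl (subset_closure hx.1), mU hx⟩, (mU hx).2⟩
  have nV : s.V ∩ S ⊆ Q ∩ (s.E ∪ (C \ (G ∪ H)))ᶜ := by
    intro x hx
    exact ⟨p2 ⟨Or.inl (subset_closure hx.1), mV hx⟩, (mV hx).2⟩
  refine ⟨{ U := P ∩ (s.E ∪ (C \ (G ∪ H)))ᶜ
            V := Q ∩ (s.E ∪ (C \ (G ∪ H)))ᶜ
            E := s.E ∪ (C \ (G ∪ H))
            hU := hP.inter hE'.isOpen_compl
            hV := hQ.inter hE'.isOpen_compl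
            hE := hE'
            hA := ?_
            hB := ?_
            dU := ?_
            dV := ?_
            cl := ?_ }, G, H, hG, hH, h4, rfl, nU, nV, ?_⟩
  · intro x hx
    exact nU ⟨s.hA hx, hx.2⟩
  · intro x hx
    exact nV ⟨s.hB hx, hx.2⟩
  · rw [eq_empty_iff_forall_notMem]
    rintro x ⟨⟨x1, x2⟩, _⟩
    exact x1.2 x2
  · rw [eq_empty_iff_forall_notMem]
    rintro x ⟨⟨x1, x2⟩, _⟩
    exact x1.2 x2
  · rintro x ⟨⟨x1, x2⟩, x3⟩
    by_contra hc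
    have h5 : x ∈ closure P ∩ closure Q ∩ Z :=
      ⟨⟨closure_mono inter_subset_left x1, closure_mono inter_subset_left x2⟩, x3, hc⟩
    rw [p3] at h5
    exact h5
  · rintro x ⟨x1, x2⟩
    by_cases hx : x ∈ s.E ∪ (C \ (G ∪ H))
    · exact Or.inr hx
    · left
      have xZ : x ∈ Z := ⟨x2, hx⟩
      rcases (hCZ x xZ x1).2 with h5 | h5
      · exact Or.inl ⟨p1 ⟨Or.inr ⟨x1, h5⟩, xZ⟩, hx⟩
      · exact Or.inr ⟨p2 ⟨Or.inr ⟨x1, h5⟩, xZ⟩, hx⟩

end CE2

open CE2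

theorem t_CE2 : S_CE2.{u} := by
  intro X _ _ n hsum hO S F hF hFS hR A B hA hB hAB
  choose C hC hFC using hF
  -- the first state
  have h0 : ∃ s0 : St S A B, s0.E = ∅ := by
    obtain ⟨U, V, hU, hV, h1, h2, h3⟩ := sep S (A ∩ S) (B ∩ S) inter_subset_right
      inter_subset_right
      (fun x hx => ⟨closure_minimal inter_subset_left hA hx.1, hx.2⟩)
      (fun x hx => ⟨closure_minimal inter_subset_left hB hx.1, hx.2⟩)
      (by
        rw [eq_empty_iff_forall_notMem]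
        rintro x ⟨⟨x1, x2⟩, x3, _⟩
        have h5 : x ∈ A ∩ B ∩ S := ⟨⟨x1, x3⟩, x2⟩
        rw [hAB] at h5
        exact h5)
    exact ⟨{ U := U
             V := V
             E := ∅
             hU := hU
             hV := hV
             hE := isClosed_empty
             hA := h1
             hB := h2
             dU := by simp
             dV := by simp
             cl := by rw [h3] }, rfl⟩
  obtain ⟨s0, hs0⟩ := h0
  have hstep : ∀ (i : ℕ) (s : St S A B), ∃ s' : St S A B, Rel n (C i) s s' := by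
    intro i s
    refine step n hO (C i) (hC i) ?_ s
    rw [← hFC i]
    exact hR i
  choose nxt hnxt using hstep
  let q : ℕ → St S A B := fun i => Nat.rec s0 (fun i s => nxt i s) i
  have hq : ∀ i, Rel n (C i) (q i) (q (i + 1)) := fun i => hnxt i (q i)
  have hq0 : (q 0).E = ∅ := hs0
  choose G H hG hH r1 r2 r3 r4 r5 using hq
  -- monotone on S
  have monoU : ∀ i j, i ≤ j → (q i).U ∩ S ⊆ (q j).U := by
    intro i j hij
    induction j, hij using Nat.le_induction with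
    | base => exact inter_subset_left
    | succ j _ ih => exact fun x hx => r3 j ⟨ih hx, hx.2⟩
  have monoV : ∀ i j, i ≤ j → (q i).V ∩ S ⊆ (q j).V := by
    intro i j hij
    induction j, hij using Nat.le_induction with
    | base => exact inter_subset_left
    | succ j _ ih => exact fun x hx => r4 j ⟨ih hx, hx.2⟩
  have gd : ∀ j, IsGδ (q j).E := fun j => (q j).hE.isGδ
  have gd2 : ∀ j, ∃ f : ℕ → Set X, (∀ m, IsOpen (f m)) ∧ (q j).E = ⋂ m, f m :=
    fun j => isGδ_iff_eq_iInter_nat.1 (gd j)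
  choose f hf hfE using gd2
  refine ⟨⋃ i, (q i).U, ⋃ i, (q i).V, isOpen_iUnion fun i => (q i).hU,
    isOpen_iUnion fun i => (q i).hV, ?_, ?_, ?_, ?_⟩
  · exact (q 0).hA.trans (subset_iUnion (fun i => (q i).U) 0)
  · exact (q 0).hB.trans (subset_iUnion (fun i => (q i).V) 0)
  · rw [eq_empty_iff_forall_notMem]
    rintro x ⟨⟨x1, x2⟩, x3⟩
    obtain ⟨i, hi⟩ := mem_iUnion.1 x1
    obtain ⟨j, hj⟩ := mem_iUnion.1 x2
    have k1 := monoU i (max i j) (le_max_left _ _) ⟨hi, x3⟩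
    have k2 := monoV j (max i j) (le_max_right _ _) ⟨hj, x3⟩
    have k3 := (q (max i j)).cl ⟨⟨subset_closure k1, subset_closure k2⟩, x3⟩
    have k4 : x ∈ (q (max i j)).U ∩ (q (max i j)).E ∩ S := ⟨⟨k1, k3⟩, x3⟩
    rw [(q (max i j)).dU] at k4
    exact k4
  · set W : Set X := (⋃ i, (q i).U) ∪ ⋃ i, (q i).V with hW
    have hWo : IsOpen W := (isOpen_iUnion fun i => (q i).hU).union
      (isOpen_iUnion fun i => (q i).hV)
    have hCG : ∀ j, IsClosed (C j \ (G j ∪ H j)) := by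
      intro j
      rw [sdiff_eq]
      exact (hC j).inter ((hG j).union (hH j)).isClosed_compl
    apply hsum (S \ W) (fun p => ((C p.unpair.1 \ (G p.unpair.1 ∪ H p.unpair.1)) ∩
      (f p.unpair.1 p.unpair.2)ᶜ) ∩ (S \ W))
    · intro p
      exact ⟨_, (hCG _).inter (hf _ _).isClosed_compl, rfl⟩
    · apply Subset.antisymm
      · exact iUnion_subset fun p => inter_subset_right
      · rintro x ⟨xS, xW⟩
        have x1 : x ∈ ⋃ k, F k := by
          rw [hFS]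
          exact xS
        obtain ⟨i, hi⟩ := mem_iUnion.1 x1
        rw [hFC i] at hi
        have x2 : x ∈ (q (i + 1)).E := by
          rcases r5 i hi with (h | h) | h
          · exact absurd (Or.inl (mem_iUnion.2 ⟨i + 1, h⟩)) xW
          · exact absurd (Or.inr (mem_iUnion.2 ⟨i + 1, h⟩)) xW
          · exact h
        have x3 : ∃ j, x ∉ (q j).E ∧ x ∈ (q (j + 1)).E := by
          by_contra hcon
          push Not at hcon
          have x4 : ∀ j, x ∉ (q j).E := by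
            intro j
            induction j with
            | zero =>
              rw [hq0]
              exact notMem_empty x
            | succ j ih => exact hcon j ih
          exact x4 (i + 1) x2
        obtain ⟨j, j1, j2⟩ := x3
        rw [r2 j] at j2
        have j3 : x ∈ C j \ (G j ∪ H j) := j2.resolve_left j1
        rw [hfE j, mem_iInter] at j1
        push Not at j1
        obtain ⟨m, hm⟩ := j1
        rw [mem_iUnion]
        refine ⟨Nat.pair j m, ⟨?_, ?_⟩, xS, xW⟩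
        · rw [Nat.unpair_pair]
          exact j3
        · rw [Nat.unpair_pair]
          exact hm
    · intro p
      have h5 := BR.inter_closed n _ (Wᶜ ∩ (f p.unpair.1 p.unpair.2)ᶜ) (r1 p.unpair.1)
        (hWo.isClosed_compl.inter (hf _ _).isClosed_compl)
      have h6 : Wᶜ ∩ (f p.unpair.1 p.unpair.2)ᶜ ∩ (((C p.unpair.1 ∩ S) ∩ (q p.unpair.1).Eᶜ) \
          (G p.unpair.1 ∪ H p.unpair.1)) = ((C p.unpair.1 \ (G p.unpair.1 ∪ H p.unpair.1)) ∩
          (f p.unpair.1 p.unpair.2)ᶜ) ∩ (S \ W) := by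
        ext x
        constructor
        · rintro ⟨⟨y1, y2⟩, ⟨⟨y3, y4⟩, y5⟩, y6⟩
          exact ⟨⟨⟨y3, y6⟩, y2⟩, y4, y1⟩
        · rintro ⟨⟨⟨y3, y6⟩, y2⟩, y4, y1⟩
          refine ⟨⟨y1, y2⟩, ⟨⟨y3, y4⟩, ?_⟩, y6⟩
          intro y7
          rw [hfE] at y7
          exact y2 (mem_iInter.1 y7 _)
      rw [h6] at h5
      exact h5

end NMD
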