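import Pool.Agent.NMD.Stmts2

/-!
# Module COR: the corollaries
-/

namespace NMD

open Set Topology

universe u

namespace COR

/-- subspaces of developable spaces are developable -/
theorem developable_subtype {X : Type u} [TopologicalSpace X] (h : Developable X) (S : Set X) :
    Developable S := by
  obtain ⟨G, hG, hd⟩ := h
  refine ⟨fun n => (fun g => (Subtype.val ⁻¹' g : Set S)) '' G n, ?_, ?_⟩
  · intro n
    constructor
    · rintro _ ⟨g, hg, rfl⟩
      exact ((hG n).1 g hg).preimage continuous_subtype_val
    · ext x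
      constructor
      · intro _
        trivial
      · intro _
        have h1 : (x : X) ∈ ⋃₀ G n := by
          rw [(hG n).2]
          trivial
        obtain ⟨g, hg, hx⟩ := h1
        exact ⟨_, ⟨g, hg, rfl⟩, hx⟩
  · intro x U hU hx
    obtain ⟨V, hV, rfl⟩ := isOpen_induced_iff.1 hU
    obtain ⟨n, hn⟩ := hd x V hV hx
    refine ⟨n, ?_⟩
    rintro y ⟨_, ⟨⟨g, hg, rfl⟩, hxg⟩, hyg⟩
    exact hn ⟨g, ⟨hg, hxg⟩, hyg⟩

/-- the preimage of a metrizable subspace in a larger subspace is metrizable -/
theorem metrizable_preimage {X : Type u} [TopologicalSpace X] (S M : Set X)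
    (h : TopologicalSpace.MetrizableSpace M) :
    TopologicalSpace.MetrizableSpace (Subtype.val ⁻¹' M : Set S) := by
  let f : (Subtype.val ⁻¹' M : Set S) → M := fun x => ⟨x.1.1, x.2⟩
  have hf : IsEmbedding f := by
    refine ⟨?_, ?_⟩
    · have h1 : IsInducing (fun x : (Subtype.val ⁻¹' M : Set S) => (x.1.1 : X)) :=
        IsInducing.subtypeVal.comp IsInducing.subtypeVal
      have h2 : (fun x : (Subtype.val ⁻¹' M : Set S) => (x.1.1 : X)) = Subtype.val ∘ f := rfl
      rw [h2] at h1
      exact (IsInducing.subtypeVal.of_comp_iff).1 h1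
    · intro x y hxy
      apply Subtype.ext
      apply Subtype.ext
      exact congrArg (fun z : M => (z : X)) hxy
  exact hf.metrizableSpace

theorem covDim_empty {X : Type u} [TopologicalSpace X] : covDim (∅ : Set X) ≤ 0 := by
  have h0 : DimLT (∅ : Set X) 0 := by
    intro 𝒰 _ _ _
    refine ⟨∅, Set.finite_empty, by simp, ?_, by simp, ?_⟩
    · ext x
      exact absurd x.2 (Set.notMem_empty _)
    · intro x
      exact absurd x.2 (Set.notMem_empty _)
  classical
  have h1 : ∃ n, DimLT (∅ : Set X) n := ⟨0, h0⟩
  unfold covDim dimVal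
  rw [dif_pos h1]
  have h2 : Nat.find h1 = 0 := by
    rw [Nat.find_eq_zero]
    exact h0
  rw [h2]
  exact_mod_cast (by norm_num : ((0 : ℕ) : ℤ) - 1 ≤ 0)

end COR

open COR in
theorem t_COR : M_COR.{u} := by
  intro hPN hDEVP hSFMP hM
  constructor
  · intro X _ _ hX Y E D hY hYc hE hD hc
    have : PerfectlyNormalSpace X := hPN X hX.2
    have : RegularSpace X := hX.1
    refine hM X hX (⋃ k, Y k) E D ?_ hE hD hc
    have hcn : CompletelyNormalSpace (⋃ k, Y k : Set X) :=
      (IsEmbedding.subtypeVal (p := fun x => x ∈ ⋃ k, Y k)).completelyNormalSpace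
    refine ⟨fun _ => (⋃ k, Y k : Set X), fun _ => inferInstance, fun _ => id, ?_, ?_, ?_⟩
    · intro _
      refine ⟨inferInstance, ⟨inferInstance, developable_subtype hX.2 _⟩, ?_⟩
      refine ⟨fun k => Subtype.val ⁻¹' Y k, ?_, ?_⟩
      · intro k
        constructor
        · obtain ⟨C, hC, e⟩ := hYc k
          have h1 : (Subtype.val ⁻¹' Y k : Set (⋃ k, Y k : Set X)) = Subtype.val ⁻¹' C := by
            ext x
            constructor
            · intro hx
              have hx' : (x : X) ∈ Y k := hx
              rw [e] at hx'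
              exact hx'.1
            · intro hx
              show (x : X) ∈ Y k
              rw [e]
              exact ⟨hx, x.2⟩
          show IsClosed (Subtype.val ⁻¹' Y k : Set (⋃ k, Y k : Set X))
          rw [h1]
          exact hC.preimage continuous_subtype_val
        · obtain ⟨q, M, e, hM'⟩ := hY k
          refine ⟨q, fun j => Subtype.val ⁻¹' M j, ?_, ?_⟩
          · show (Subtype.val ⁻¹' Y k : Set (⋃ k, Y k : Set X)) = ⋃ j, Subtype.val ⁻¹' M j
            rw [← preimage_iUnion, ← e]
          · intro j
            exact metrizable_preimage _ _ (hM' j)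
      · ext x
        constructor
        · intro _
          trivial
        · intro _
          obtain ⟨k, hk⟩ := mem_iUnion.1 x.2
          exact mem_iUnion.2 ⟨k, hk⟩
    · intro _
      exact continuous_id
    · intro y U hU hy
      exact ⟨0, U, hU, hy, subset_rfl⟩
  · intro W _ hW hn X _ _ hX e he
    have hc : (univ : Set X) ∪ ∅ ∪ (⋃ _k : ℕ, (∅ : Set X)) = univ := by simp
    refine hM X hX univ ∅ (fun _ => ∅) ?_ ?_ (fun _ => ⟨isClosed_empty, covDim_empty⟩) hc
    · have hreg : ∀ i, RegularSpace (W i) := fun i => (hW i).1.1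
      refine ⟨fun k => ∀ i : Fin k, W i, fun _ => inferInstance, fun k y i => e y.1 i, ?_, ?_, ?_⟩
      · intro k
        refine ⟨hn k, ⟨inferInstance, hDEVP k (fun i => W i) fun i => (hW i).1.2⟩, ?_⟩
        exact hSFMP k (fun i => W i) fun i => (hW i).2
      · intro k
        refine continuous_pi fun i => ?_
        exact (continuous_apply (i : ℕ)).comp (he.continuous.comp continuous_subtype_val)
      · intro y U hU hy
        obtain ⟨V, hV, rfl⟩ := isOpen_induced_iff.1 hU
        obtain ⟨O, hO, rfl⟩ := he.isOpen_iff.1 hV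
        obtain ⟨I, v, hv, hI⟩ := isOpen_pi_iff.1 hO (e y.1) hy
        refine ⟨I.sup id + 1, {z | ∀ i : Fin (I.sup id + 1), (i : ℕ) ∈ I → z i ∈ v i}, ?_, ?_, ?_⟩
        · have h1 : {z : ∀ i : Fin (I.sup id + 1), W i |
              ∀ i : Fin (I.sup id + 1), (i : ℕ) ∈ I → z i ∈ v i} =
              ⋂ i : Fin (I.sup id + 1), {z | (i : ℕ) ∈ I → z i ∈ v i} := by
            ext z
            simp
          rw [h1]
          refine isOpen_iInter_of_finite fun i => ?_
          by_cases hi : (i : ℕ) ∈ I
          · have h2 : {z : ∀ i : Fin (I.sup id + 1), W i | (i : ℕ) ∈ I → z i ∈ v i} =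
                (fun z : ∀ i : Fin (I.sup id + 1), W i => z i) ⁻¹' v i := by
              ext z
              simp [hi]
            rw [h2]
            exact (hv i hi).1.preimage (continuous_apply i)
          · have h2 : {z : ∀ i : Fin (I.sup id + 1), W i | (i : ℕ) ∈ I → z i ∈ v i} = univ := by
              ext z
              simp [hi]
            rw [h2]
            exact isOpen_univ
        · intro i hi
          exact (hv i hi).2
        · intro x hx
          apply hI
          intro i hi
          have h3 : i < I.sup id + 1 := Nat.lt_succ_of_le (Finset.le_sup (f := id) hi)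
          exact hx ⟨i, h3⟩ hi
    · rw [Cardinal.mk_eq_zero]
      exact Cardinal.continuum_pos

end NMD
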