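import Pool.Agent.NMD.Stmts

/-!
# Sets with a base of fibres of countably many locally constant functions are zero-dimensional
-/

namespace NMD

open Set Topology

universe u

namespace CYL

variable {X : Type u} {κ : Type u}

/-- the points of `Z` that agree with `x` up to the index `n` -/
def Q (c : ℕ → X → κ) (Z : Set X) (n : ℕ) (x : X) : Set X := {y | y ∈ Z ∧ ∀ i ≤ n, c i y = c i x}

theorem Q_eq {c : ℕ → X → κ} {Z : Set X} {n m : ℕ} {x y : X} (h : y ∈ Q c Z n x) (hm : m ≤ n) :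
    Q c Z m y = Q c Z m x := by
  ext z
  constructor
  · rintro ⟨hz, h2⟩
    exact ⟨hz, fun i hi => (h2 i hi).trans (h.2 i (hi.trans hm))⟩
  · rintro ⟨hz, h2⟩
    exact ⟨hz, fun i hi => (h2 i hi).trans (h.2 i (hi.trans hm)).symm⟩

/-- the class does not meet both sets -/
def P (c : ℕ → X → κ) (Z A B : Set X) (x : X) (n : ℕ) : Prop :=
  (∀ y ∈ Q c Z n x, y ∉ A) ∨ ∀ y ∈ Q c Z n x, y ∉ B

theorem nb [TopologicalSpace X] {c : ℕ → X → κ} {Z : Set X}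
    (h : ∀ i, ∀ x ∈ Z, ∃ O, IsOpen O ∧ x ∈ O ∧ ∀ y ∈ O ∩ Z, c i y = c i x) (n : ℕ) :
    ∀ x ∈ Z, ∃ O, IsOpen O ∧ x ∈ O ∧ ∀ y ∈ O ∩ Z, y ∈ Q c Z n x := by
  intro x hx
  induction n with
  | zero =>
    obtain ⟨O, h1, h2, h3⟩ := h 0 x hx
    refine ⟨O, h1, h2, fun y hy => ⟨hy.2, fun i hi => ?_⟩⟩
    obtain rfl : i = 0 := Nat.le_zero.mp hi
    exact h3 y hy
  | succ n ih =>
    obtain ⟨O, h1, h2, h3⟩ := ih
    obtain ⟨O', h1', h2', h3'⟩ := h (n + 1) x hx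
    refine ⟨O ∩ O', h1.inter h1', ⟨h2, h2'⟩, fun y hy => ⟨hy.2, fun i hi => ?_⟩⟩
    rcases Nat.lt_or_ge i (n + 1) with hlt | hge
    · exact (h3 y ⟨hy.1.1, hy.2⟩).2 i (Nat.lt_succ_iff.mp hlt)
    · obtain rfl : i = n + 1 := le_antisymm hi hge
      exact h3' y ⟨hy.1.2, hy.2⟩

end CYL

open CYL in
open Classical in
theorem t_CYL : S_CYL.{u} := by
  intro X _ κ Z c hloc hbase A B hA hB hAB
  have hex : ∀ x : Z, ∃ n, P c Z A B x n := by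
    rintro ⟨x, hx⟩
    by_cases hxA : x ∈ A
    · have hxB : x ∉ B := by
        intro hxB
        have : x ∈ A ∩ B ∩ Z := ⟨⟨hxA, hxB⟩, hx⟩
        rw [hAB] at this
        exact this
      obtain ⟨i, hi⟩ := hbase x hx Bᶜ hB.isOpen_compl hxB
      exact ⟨i, Or.inr fun y hy => hi y hy.1 (hy.2 i le_rfl)⟩
    · obtain ⟨i, hi⟩ := hbase x hx Aᶜ hA.isOpen_compl hxA
      exact ⟨i, Or.inl fun y hy => hi y hy.1 (hy.2 i le_rfl)⟩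
  let N : Z → ℕ := fun x => Nat.find (hex x)
  have hN : ∀ x : Z, P c Z A B x (N x) := fun x => Nat.find_spec (hex x)
  have hmin : ∀ (x : Z) (m : ℕ), m < N x → ¬ P c Z A B x m := fun x m hm => Nat.find_min (hex x) hm
  have hNeq : ∀ x y : Z, (y : X) ∈ Q c Z (N x) x → N y = N x := by
    intro x y hy
    have h1 : ∀ m, m ≤ N x → (P c Z A B y m ↔ P c Z A B x m) := by
      intro m hm
      unfold P
      rw [Q_eq hy hm]
    apply le_antisymm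
    · exact Nat.find_min' (hex y) ((h1 (N x) le_rfl).mpr (hN x))
    · by_contra hlt
      push Not at hlt
      exact hmin x (N y) hlt ((h1 (N y) hlt.le).mp (hN y))
  choose O hO1 hO2 hO3 using fun x : Z => nb hloc (N x) x x.2
  have self : ∀ x : Z, (x : X) ∈ Q c Z (N x) x := fun x => ⟨x.2, fun i _ => rfl⟩
  refine ⟨⋃ x : {x : Z // ∀ y ∈ Q c Z (N x) x, y ∉ B}, O x.1,
    ⋃ x : {x : Z // ¬ ∀ y ∈ Q c Z (N x) x, y ∉ B}, O x.1,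
    isOpen_iUnion fun x => hO1 x.1, isOpen_iUnion fun x => hO1 x.1, ?_, ?_, ?_, ?_⟩
  · rintro x ⟨hxA, hx⟩
    refine mem_iUnion.mpr ⟨⟨⟨x, hx⟩, ?_⟩, hO2 ⟨x, hx⟩⟩
    rcases hN ⟨x, hx⟩ with h | h
    · exact absurd hxA (h x (self ⟨x, hx⟩))
    · exact h
  · rintro x ⟨hxB, hx⟩
    refine mem_iUnion.mpr ⟨⟨⟨x, hx⟩, ?_⟩, hO2 ⟨x, hx⟩⟩
    intro h
    exact h x (self ⟨x, hx⟩) hxB
  · intro x hx
    by_cases h : ∀ y ∈ Q c Z (N ⟨x, hx⟩) x, y ∉ B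
    · exact Or.inl (mem_iUnion.mpr ⟨⟨⟨x, hx⟩, h⟩, hO2 ⟨x, hx⟩⟩)
    · exact Or.inr (mem_iUnion.mpr ⟨⟨⟨x, hx⟩, h⟩, hO2 ⟨x, hx⟩⟩)
  · rw [eq_empty_iff_forall_notMem]
    rintro x ⟨⟨hG, hH⟩, hx⟩
    obtain ⟨⟨y, hy⟩, hxy⟩ := mem_iUnion.mp hG
    obtain ⟨⟨z, hz⟩, hxz⟩ := mem_iUnion.mp hH
    have h1 : x ∈ Q c Z (N y) y := hO3 y x ⟨hxy, hx⟩
    have h2 : x ∈ Q c Z (N z) z := hO3 z x ⟨hxz, hx⟩
    have e1 : N ⟨x, hx⟩ = N y := hNeq y ⟨x, hx⟩ h1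
    have e2 : N ⟨x, hx⟩ = N z := hNeq z ⟨x, hx⟩ h2
    apply hz
    rw [← Q_eq h2 le_rfl, ← e2, e1, Q_eq h1 le_rfl]
    exact hy

end NMD
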