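import Pool.Agent.NMD.Stmts3

set_option autoImplicit false

namespace NMD

open Set Topology

universe u

theorem t_DCE : S_DCE.{u} := by
  intro X Y _ _ f hf n hY 𝒰 hfin hop hcov
  choose! g hg using fun U (hU : U ∈ 𝒰) => hf.isInducing.isOpen_iff.1 (hop U hU)
  have hR : IsOpen (range f)ᶜ := hf.isClosed_range.isOpen_compl
  obtain ⟨𝒱, h1, h2, h3, h4, h5⟩ := hY (g '' 𝒰 ∪ {(range f)ᶜ})
    ((hfin.image g).union (finite_singleton _)) (by
      rintro W (⟨U, hU, rfl⟩ | rfl)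
      · exact (hg U hU).1
      · exact hR) (by
      ext y
      simp only [mem_sUnion, mem_univ, iff_true]
      by_cases hy : y ∈ range f
      · obtain ⟨x, rfl⟩ := hy
        have hx : x ∈ ⋃₀ 𝒰 := by
          rw [hcov]
          exact mem_univ x
        obtain ⟨U, hU, hxU⟩ := hx
        refine ⟨g U, Or.inl ⟨U, hU, rfl⟩, ?_⟩
        rw [← (hg U hU).2] at hxU
        exact hxU
      · exact ⟨(range f)ᶜ, Or.inr rfl, hy⟩)
  refine ⟨((fun V => f ⁻¹' V) '' 𝒱) \ {∅}, (h1.image _).subset sdiff_subset, ?_, ?_, ?_, ?_⟩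
  · rintro W ⟨⟨V, hV, rfl⟩, _⟩
    exact (h2 V hV).preimage hf.continuous
  · ext x
    simp only [mem_sUnion, mem_univ, iff_true]
    have hx : f x ∈ ⋃₀ 𝒱 := by
      rw [h3]
      exact mem_univ _
    obtain ⟨V, hV, hxV⟩ := hx
    refine ⟨f ⁻¹' V, ⟨⟨V, hV, rfl⟩, ?_⟩, hxV⟩
    intro he
    have he2 : f ⁻¹' V = ∅ := he
    have hx2 : x ∈ f ⁻¹' V := hxV
    rw [he2] at hx2
    exact hx2
  · rintro W ⟨⟨V, hV, rfl⟩, hne⟩
    obtain ⟨W, hW, hVW⟩ := h4 V hV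
    rcases hW with ⟨U, hU, rfl⟩ | hW
    · refine ⟨U, hU, ?_⟩
      intro x hx
      rw [← (hg U hU).2]
      exact hVW hx
    · exfalso
      apply hne
      show f ⁻¹' V = ∅
      ext x
      simp only [mem_preimage, mem_empty_iff_false, iff_false]
      intro hx
      have hx2 := hVW hx
      have hW2 : W = (range f)ᶜ := hW
      rw [hW2] at hx2
      exact hx2 ⟨x, rfl⟩
  · intro x
    have hs : {W ∈ ((fun V => f ⁻¹' V) '' 𝒱) \ {∅} | x ∈ W} ⊆
        (fun V => f ⁻¹' V) '' {V ∈ 𝒱 | f x ∈ V} := by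
      rintro W ⟨⟨⟨V, hV, rfl⟩, _⟩, hx⟩
      exact ⟨V, ⟨hV, hx⟩, rfl⟩
    have hfi : {V ∈ 𝒱 | f x ∈ V}.Finite := h1.subset fun V hV => hV.1
    refine (ncard_le_ncard hs (hfi.image _)).trans ?_
    exact (ncard_image_le hfi).trans (h5 (f x))

end NMD
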