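import Pool.Agent.NMD.Stmts
import Pool.Agent.NMD.Base

/-!
# NMD, module DEC: decomposition of a level
-/

namespace NMD

open Set Topology

universe u

namespace DEC

variable {X : Type u}

/-- the positive rational values, with their indices -/
def sg (g : ℕ → X → ℝ) (x : X) : Set (ℕ × ℚ) := {p | 1 ≤ p.1 ∧ 0 < p.2 ∧ g p.1 x = p.2}

theorem sg_inj (g : ℕ → X → ℝ) (x : X) : InjOn Prod.fst (sg g x) := by
  rintro ⟨i, a⟩ ⟨-, -, h1⟩ ⟨i', a'⟩ ⟨-, -, h2⟩ h
  change i = i' at h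
  subst h
  change g i x = a at h1
  change g i x = a' at h2
  rw [h1] at h2
  have h3 : a = a' := by exact_mod_cast h2
  rw [h3]

theorem card_lt {g : ℕ → X → ℝ} {x : X} {n : ℕ}
    (h : ∀ s : Finset ℕ, (∀ i ∈ s, 1 ≤ i ∧ ∃ ρ : ℚ, 0 < ρ ∧ g i x = ρ) → s.card < n)
    (t : Finset (ℕ × ℚ)) (ht : (t : Set (ℕ × ℚ)) ⊆ sg g x) : t.card < n := by
  classical
  have h1 := h (t.image Prod.fst) (by
    intro i hi
    obtain ⟨p, hp, rfl⟩ := Finset.mem_image.1 hi
    obtain ⟨h1, h2, h3⟩ := ht hp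
    exact ⟨h1, p.2, h2, h3⟩)
  rwa [Finset.card_image_of_injOn ((sg_inj g x).mono ht)] at h1

theorem sg_fin {g : ℕ → X → ℝ} {x : X} {n : ℕ}
    (h : ∀ s : Finset ℕ, (∀ i ∈ s, 1 ≤ i ∧ ∃ ρ : ℚ, 0 < ρ ∧ g i x = ρ) → s.card < n) :
    (sg g x).Finite ∧ (sg g x).ncard < n := by
  have hf : (sg g x).Finite := by
    by_contra hcon
    obtain ⟨t, ht, hc⟩ := Set.Infinite.exists_subset_card_eq hcon n
    have := card_lt h t ht
    omega
  refine ⟨hf, ?_⟩
  have h1 := card_lt h hf.toFinset (by rw [hf.coe_toFinset])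
  rwa [ncard_eq_toFinset_card _ hf]

variable [TopologicalSpace X]

/-- the pieces are zero-dimensional -/
theorem piece (hCYL : S_CYL.{u}) {P Z : Set X} {B : ℕ → Set (Set X)} {g : ℕ → X → ℝ}
    (hg : ∀ i, Continuous (g i)) (hB : IsSDB P B)
    (h : ∀ m, ∀ x ∈ ⋃₀ B m, ∃ i, 1 ≤ i ∧ 0 < g i x ∧ ∀ y ∈ P, 0 < g i y → y ∈ ⋃₀ B m)
    (hZP : Z ⊆ P) (hZ : ∀ x ∈ Z, ∀ y ∈ Z, sg g x = sg g y) : ZD Z := by
  classical
  obtain ⟨e, he⟩ := exists_surjective_nat (ℕ × ℚ × ℕ)
  -- uniqueness of the member of the family through a point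
  have huniq : ∀ m, ∀ b ∈ B m, ∀ x ∈ b, ⋃₀ {b' ∈ B m | x ∈ b'} = b := by
    intro m b hb x hx
    apply Subset.antisymm
    · apply sUnion_subset
      rintro b' ⟨hb', hx'⟩
      by_cases hne : b' = b
      · rw [hne]
      · exact absurd (disjoint_left.1 (hB.disj m hb' hb hne) hx') (fun hc => hc hx)
    · exact subset_sUnion_of_mem ⟨hb, hx⟩
  let ok : ℕ × ℚ × ℕ → Prop := fun q =>
    1 ≤ q.1 ∧ 0 < q.2.1 ∧ ∀ y ∈ P, 0 < g q.1 y → y ∈ ⋃₀ B q.2.2
  let c : ℕ → X → Option (Set X) := fun t x =>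
    if ok (e t) ∧ ((e t).2.1 : ℝ) < g (e t).1 x then some (⋃₀ {b ∈ B (e t).2.2 | x ∈ b}) else none
  refine hCYL X (Option (Set X)) Z c ?_ ?_
  · intro t x hx
    by_cases hok : ok (e t)
    · obtain ⟨h1, h2, h3⟩ := hok
      have hok : ok (e t) := ⟨h1, h2, h3⟩
      have h2' : (0 : ℝ) < (e t).2.1 := by exact_mod_cast h2
      rcases lt_trichotomy ((e t).2.1 : ℝ) (g (e t).1 x) with hlt | heq | hgt
      · obtain ⟨b, hb, hxb⟩ := h3 x (hZP hx) (h2'.trans hlt)
        obtain ⟨O, hO, hbO⟩ := hB.op _ b hb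
        have hxO : x ∈ O := by
          rw [hbO] at hxb
          exact hxb.1
        refine ⟨O ∩ {y | ((e t).2.1 : ℝ) < g (e t).1 y},
          hO.inter (isOpen_lt continuous_const (hg _)), ⟨hxO, hlt⟩, ?_⟩
        rintro y ⟨⟨hyO, hy⟩, hyZ⟩
        have hy' : ((e t).2.1 : ℝ) < g (e t).1 y := hy
        have hyb : y ∈ b := by
          rw [hbO]
          exact ⟨hyO, hZP hyZ⟩
        have e1 : c t y = some (⋃₀ {b ∈ B (e t).2.2 | y ∈ b}) := if_pos ⟨hok, hy'⟩
        have e2 : c t x = some (⋃₀ {b ∈ B (e t).2.2 | x ∈ b}) := if_pos ⟨hok, hlt⟩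
        rw [e1, e2, huniq _ b hb y hyb, huniq _ b hb x hxb]
      · refine ⟨univ, isOpen_univ, mem_univ x, ?_⟩
        rintro y ⟨-, hyZ⟩
        have hm : ((e t).1, (e t).2.1) ∈ sg g x := ⟨h1, h2, heq.symm⟩
        rw [hZ x hx y hyZ] at hm
        have hy : g (e t).1 y = (e t).2.1 := hm.2.2
        have e1 : c t y = none := if_neg (by
          rintro ⟨-, hc⟩
          rw [hy] at hc
          exact lt_irrefl _ hc)
        have e2 : c t x = none := if_neg (by
          rintro ⟨-, hc⟩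
          rw [heq] at hc
          exact lt_irrefl _ hc)
        rw [e1, e2]
      · refine ⟨{y | g (e t).1 y < ((e t).2.1 : ℝ)}, isOpen_lt (hg _) continuous_const, hgt, ?_⟩
        rintro y ⟨hy, -⟩
        have hy' : g (e t).1 y < ((e t).2.1 : ℝ) := hy
        have e1 : c t y = none := if_neg (by
          rintro ⟨-, hc⟩
          exact lt_asymm hc hy')
        have e2 : c t x = none := if_neg (by
          rintro ⟨-, hc⟩
          exact lt_asymm hc hgt)
        rw [e1, e2]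
    · refine ⟨univ, isOpen_univ, mem_univ x, ?_⟩
      intro y _
      have e1 : c t y = none := if_neg (fun hc => hok hc.1)
      have e2 : c t x = none := if_neg (fun hc => hok hc.1)
      rw [e1, e2]
  · intro x hx U hU hxU
    obtain ⟨m, b, hb, hxb, hbU⟩ := hB.base x (hZP hx) U hU hxU
    obtain ⟨i, hi, hpos, hi'⟩ := h m x ⟨b, hb, hxb⟩
    obtain ⟨a, ha0, hax⟩ := exists_rat_btwn hpos
    have ha0' : 0 < a := by exact_mod_cast ha0
    obtain ⟨t, ht⟩ := he (i, a, m)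
    refine ⟨t, ?_⟩
    intro y hyZ hc
    have e1 : (e t).1 = i := by rw [ht]
    have e2 : (e t).2.1 = a := by rw [ht]
    have e3 : (e t).2.2 = m := by rw [ht]
    have hok : ok (e t) := by
      refine ⟨?_, ?_, ?_⟩
      · rw [e1]; exact hi
      · rw [e2]; exact ha0'
      · intro z hz hz'
        rw [e1] at hz'
        rw [e3]
        exact hi' z hz hz'
    have hcx : c t x = some b := by
      have : c t x = some (⋃₀ {b ∈ B (e t).2.2 | x ∈ b}) := if_pos ⟨hok, by rw [e1, e2]; exact hax⟩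
      rw [this, e3, huniq m b hb x hxb]
    rw [hcx] at hc
    have hlt : ((e t).2.1 : ℝ) < g (e t).1 y := by
      by_contra hcon
      have : c t y = none := if_neg (fun hc' => hcon hc'.2)
      rw [this] at hc
      exact Option.some_ne_none b hc.symm
    have hcy : c t y = some (⋃₀ {b ∈ B (e t).2.2 | y ∈ b}) := if_pos ⟨hok, hlt⟩
    rw [hcy, e3] at hc
    have hc' : ⋃₀ {b ∈ B m | y ∈ b} = b := Option.some.inj hc
    rw [e1, e2] at hlt
    obtain ⟨b', hb', hyb'⟩ := hi' y (hZP hyZ) (ha0.trans hlt)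
    apply hbU
    rw [← hc']
    exact ⟨b', ⟨hb', hyb'⟩, hyb'⟩

end DEC

open DEC in
theorem t_DEC : M_DEC.{u} := by
  intro hCYL hSUM hUM X _ _ Y L P B g n hg hLY hP hPY hB h hL
  have hfin : ∀ x ∈ L, (sg g x).Finite ∧ (sg g x).ncard < n := fun x hx => sg_fin (hL x hx)
  have hcov : ⋃ j : Fin n, {x | x ∈ L ∧ (sg g x).ncard = j.val} = L := by
    ext x
    rw [mem_iUnion]
    constructor
    · rintro ⟨j, hx⟩
      exact hx.1
    · intro hx
      exact ⟨⟨_, (hfin x hx).2⟩, hx, rfl⟩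
  rw [← hcov]
  refine hUM X n (fun j : Fin n => {x | x ∈ L ∧ (sg g x).ncard = j.val}) ?_
  intro j
  obtain ⟨e, he⟩ := exists_surjective_nat (ℕ × Finset (ℕ × ℚ))
  refine hSUM X _ (fun t => {x | (x ∈ L ∧ (sg g x).ncard = j.val) ∧ x ∈ P (e t).1 ∧
    (((e t).2 : Finset (ℕ × ℚ)) : Set (ℕ × ℚ)) = sg g x}) ?_ ?_ ?_
  · intro t
    obtain ⟨C, hC, hCP⟩ := hP (e t).1
    by_cases hσ : (e t).2.card = j.val ∧ ∀ p ∈ (e t).2, 1 ≤ p.1 ∧ 0 < p.2
    · refine ⟨C ∩ ⋂ p ∈ (e t).2, {x | g p.1 x = p.2}, hC.inter (isClosed_biInter fun p _ =>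
        isClosed_eq (hg _) continuous_const), ?_⟩
      ext x
      constructor
      · rintro ⟨h1, h2, h3⟩
        rw [hCP] at h2
        refine ⟨⟨h2.1, ?_⟩, h1⟩
        rw [mem_iInter₂]
        intro p hp
        have hp' : p ∈ sg g x := by
          rw [← h3]
          exact hp
        exact hp'.2.2
      · rintro ⟨⟨h1, h2⟩, h3⟩
        rw [mem_iInter₂] at h2
        refine ⟨h3, ?_, ?_⟩
        · rw [hCP]
          exact ⟨h1, hLY h3.1⟩
        · apply eq_of_subset_of_ncard_le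
          · intro p hp
            have hp' : p ∈ (e t).2 := hp
            exact ⟨(hσ.2 p hp').1, (hσ.2 p hp').2, h2 p hp'⟩
          · rw [h3.2, ncard_coe_finset, hσ.1]
          · exact (hfin x h3.1).1
    · refine ⟨∅, isClosed_empty, ?_⟩
      rw [empty_inter, eq_empty_iff_forall_notMem]
      rintro x ⟨h1, h2, h3⟩
      apply hσ
      refine ⟨?_, ?_⟩
      · rw [← h1.2, ← h3, ncard_coe_finset]
      · intro p hp
        have hp' : p ∈ sg g x := by
          rw [← h3]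
          exact hp
        exact ⟨hp'.1, hp'.2.1⟩
  · ext x
    rw [mem_iUnion]
    constructor
    · rintro ⟨t, hx⟩
      exact hx.1
    · intro hx
      have hxY : x ∈ ⋃ k, P k := by
        rw [hPY]
        exact hLY hx.1
      obtain ⟨k, hk⟩ := mem_iUnion.1 hxY
      obtain ⟨t, ht⟩ := he (k, (hfin x hx.1).1.toFinset)
      refine ⟨t, hx, ?_, ?_⟩
      · rw [ht]
        exact hk
      · rw [ht]
        exact (hfin x hx.1).1.coe_toFinset
  · intro t
    refine piece hCYL hg (hB (e t).1) (h (e t).1) ?_ ?_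
    · rintro x ⟨-, h2, -⟩
      exact h2
    · rintro x ⟨-, -, h3⟩ y ⟨-, -, h3'⟩
      rw [← h3, ← h3']

end NMD
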