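import Pool.Agent.NMD.Stmts2

/-!
# NMD, module DEC2: decomposition of a level, general form
-/

namespace NMD

open Set Topology

universe u

namespace DEC2

/-! ### the functions -/

section piece

variable {V : Type u} [TopologicalSpace V]

/-- `i`, `m` are compatible -/
def ok (B : ℕ → Set (Set V)) (W : Set (V × (ℕ → ℝ))) (i m : ℕ) : Prop :=
  ∀ y ∈ W, 0 < y.2 i → y.1 ∈ ⋃₀ B m

open Classical in
/-- the second component of the functions -/
noncomputable def fv (B : ℕ → Set (Set V)) (W : Set (V × (ℕ → ℝ))) (i : ℕ) (z : V) :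
    Option ℕ → Option (Set V)
  | none => some ∅
  | some m => if ok B W i m then some (⋃₀ {b ∈ B m | z ∈ b}) else none

open Classical in
/-- the functions -/
noncomputable def vl (B : ℕ → Set (Set V)) (W : Set (V × (ℕ → ℝ))) (q : ℕ × ℚ × Option ℕ)
    (x : V × (ℕ → ℝ)) : Option (Set V) :=
  if 0 < q.2.1 ∧ (q.2.1 : ℝ) < x.2 q.1 then fv B W q.1 x.1 q.2.2 else none

omit [TopologicalSpace V] in
theorem vl_pos {B : ℕ → Set (Set V)} {W : Set (V × (ℕ → ℝ))} {q : ℕ × ℚ × Option ℕ}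
    {x : V × (ℕ → ℝ)} (h1 : 0 < q.2.1) (h2 : (q.2.1 : ℝ) < x.2 q.1) :
    vl B W q x = fv B W q.1 x.1 q.2.2 := if_pos ⟨h1, h2⟩

omit [TopologicalSpace V] in
theorem vl_neg {B : ℕ → Set (Set V)} {W : Set (V × (ℕ → ℝ))} {q : ℕ × ℚ × Option ℕ}
    {x : V × (ℕ → ℝ)} (h : ¬ (q.2.1 : ℝ) < x.2 q.1) : vl B W q x = none :=
  if_neg fun hc => h hc.2

theorem huniq {P : Set V} {B : ℕ → Set (Set V)} (hB : IsSDB P B) (m : ℕ) (b : Set V)
    (hb : b ∈ B m) (x : V) (hx : x ∈ b) : ⋃₀ {b' ∈ B m | x ∈ b'} = b := by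
  apply Subset.antisymm
  · apply sUnion_subset
    rintro b' ⟨hb', hx'⟩
    by_cases hne : b' = b
    · rw [hne]
    · exact absurd (disjoint_left.1 (hB.disj m hb' hb hne) hx') (fun hc => hc hx)
  · exact subset_sUnion_of_mem ⟨hb, hx⟩

/-- the functions are locally constant -/
theorem vl_loc {P : Set V} {B : ℕ → Set (Set V)} (hB : IsSDB P B) {W : Set (V × (ℕ → ℝ))}
    (hP : ∀ x ∈ W, x.1 ∈ P)
    (hr : ∀ x ∈ W, ∀ y ∈ W, ∀ (i : ℕ) (a : ℚ), 0 < a → x.2 i = a → y.2 i = a)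
    (q : ℕ × ℚ × Option ℕ) (x : V × (ℕ → ℝ)) (hx : x ∈ W) :
    ∃ O, IsOpen O ∧ x ∈ O ∧ ∀ y ∈ O ∩ W, vl B W q y = vl B W q x := by
  have hcont : Continuous fun y : V × (ℕ → ℝ) => y.2 q.1 :=
    (continuous_apply q.1).comp continuous_snd
  by_cases ha : 0 < q.2.1
  · rcases lt_trichotomy (q.2.1 : ℝ) (x.2 q.1) with hlt | heq | hgt
    · have hpos : 0 < x.2 q.1 := lt_trans (by exact_mod_cast ha) hlt
      by_cases hm : ∃ m, q.2.2 = some m ∧ ok B W q.1 m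
      · obtain ⟨m, hm, hok⟩ := hm
        obtain ⟨b, hb, hxb⟩ := hok x hx hpos
        obtain ⟨O, hO, hbO⟩ := hB.op _ b hb
        have hxO : x.1 ∈ O := by
          rw [hbO] at hxb
          exact hxb.1
        refine ⟨Prod.fst ⁻¹' O ∩ {y | (q.2.1 : ℝ) < y.2 q.1},
          (hO.preimage continuous_fst).inter (isOpen_lt continuous_const hcont), ⟨hxO, hlt⟩, ?_⟩
        rintro y ⟨⟨hyO, hy⟩, hyW⟩
        have hy' : (q.2.1 : ℝ) < y.2 q.1 := hy
        have hyb : y.1 ∈ b := by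
          rw [hbO]
          exact ⟨hyO, hP y hyW⟩
        rw [vl_pos ha hy', vl_pos ha hlt, hm]
        simp only [fv, if_pos hok]
        rw [huniq hB _ b hb y.1 hyb, huniq hB _ b hb x.1 hxb]
      · refine ⟨{y | (q.2.1 : ℝ) < y.2 q.1}, isOpen_lt continuous_const hcont, hlt, ?_⟩
        rintro y ⟨hy, hyW⟩
        have hy' : (q.2.1 : ℝ) < y.2 q.1 := hy
        rw [vl_pos ha hy', vl_pos ha hlt]
        rcases hq : q.2.2 with _ | m
        · rfl
        · have hno : ¬ ok B W q.1 m := fun hc => hm ⟨m, hq, hc⟩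
          simp only [fv, if_neg hno]
    · refine ⟨univ, isOpen_univ, mem_univ x, ?_⟩
      rintro y ⟨-, hyW⟩
      have h1 : y.2 q.1 = q.2.1 := hr x hx y hyW q.1 q.2.1 ha heq.symm
      rw [vl_neg (by rw [h1]; exact lt_irrefl _), vl_neg (by rw [heq]; exact lt_irrefl _)]
    · refine ⟨{y | y.2 q.1 < (q.2.1 : ℝ)}, isOpen_lt hcont continuous_const, hgt, ?_⟩
      rintro y ⟨hy, -⟩
      have hy' : y.2 q.1 < (q.2.1 : ℝ) := hy
      rw [vl_neg (not_lt.2 hy'.le), vl_neg (not_lt.2 hgt.le)]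
  · refine ⟨univ, isOpen_univ, mem_univ x, ?_⟩
    intro y _
    have e : ∀ z, vl B W q z = none := fun z => if_neg fun hc => ha hc.1
    rw [e, e]

/-- the functions determine the first component up to a small error -/
theorem first {P : Set V} {B : ℕ → Set (Set V)} (hB : IsSDB P B) {W : Set (V × (ℕ → ℝ))}
    (hP : ∀ x ∈ W, x.1 ∈ P)
    (hH : ∀ m, ∀ x ∈ W, x.1 ∈ ⋃₀ B m → ∃ i, 0 < x.2 i ∧ ok B W i m)
    (x : V × (ℕ → ℝ)) (hx : x ∈ W) (U : Set V) (hU : IsOpen U) (hxU : x.1 ∈ U) :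
    ∃ q : ℕ × ℚ × Option ℕ, ∀ y ∈ W, vl B W q y = vl B W q x → y.1 ∈ U := by
  obtain ⟨m, b, hb, hxb, hbU⟩ := hB.base x.1 (hP x hx) U hU hxU
  obtain ⟨i, hpos, hok⟩ := hH m x hx ⟨b, hb, hxb⟩
  obtain ⟨a, ha0, hax⟩ := exists_rat_btwn hpos
  have ha0' : 0 < a := by exact_mod_cast ha0
  refine ⟨(i, a, some m), ?_⟩
  intro y hy hc
  have e1 : vl B W (i, a, some m) x = some b := by
    rw [vl_pos (q := (i, a, some m)) ha0' hax]
    simp only [fv, if_pos hok]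
    rw [huniq hB m b hb x.1 hxb]
  rw [e1] at hc
  by_cases hlt : (a : ℝ) < y.2 i
  · rw [vl_pos (q := (i, a, some m)) ha0' hlt] at hc
    simp only [fv, if_pos hok] at hc
    have hc' : ⋃₀ {b' ∈ B m | y.1 ∈ b'} = b := Option.some.inj hc
    obtain ⟨b', hb', hyb'⟩ := hok y hy (ha0.trans hlt)
    apply hbU
    rw [← hc']
    exact ⟨b', ⟨hb', hyb'⟩, hyb'⟩
  · rw [vl_neg (q := (i, a, some m)) hlt] at hc
    exact absurd hc.symm (Option.some_ne_none b)

omit [TopologicalSpace V] in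
theorem vl_none {B : ℕ → Set (Set V)} {W : Set (V × (ℕ → ℝ))} {i : ℕ} {a : ℚ} (ha : 0 < a)
    {x y : V × (ℕ → ℝ)} (h : vl B W (i, a, none) y = vl B W (i, a, none) x) :
    (a : ℝ) < y.2 i ↔ (a : ℝ) < x.2 i := by
  by_cases h1 : (a : ℝ) < y.2 i <;> by_cases h2 : (a : ℝ) < x.2 i
  · exact iff_of_true h1 h2
  · rw [vl_pos (q := (i, a, none)) ha h1, vl_neg (q := (i, a, none)) h2] at h
    exact absurd h (Option.some_ne_none _)
  · rw [vl_neg (q := (i, a, none)) h1, vl_pos (q := (i, a, none)) ha h2] at h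
    exact absurd h.symm (Option.some_ne_none _)
  · exact iff_of_false h1 h2

omit [TopologicalSpace V] in
/-- the functions determine the other components up to a small error -/
theorem second {B : ℕ → Set (Set V)} {W : Set (V × (ℕ → ℝ))} (h0 : ∀ x ∈ W, ∀ i, 0 ≤ x.2 i)
    (x : V × (ℕ → ℝ)) (hx : x ∈ W) (i : ℕ) (ε : ℝ) (hε : 0 < ε) :
    ∃ q q' : ℕ × ℚ × Option ℕ, ∀ y ∈ W, vl B W q y = vl B W q x → vl B W q' y = vl B W q' x →
      |y.2 i - x.2 i| < ε := by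
  have hx0 := h0 x hx i
  obtain ⟨a, ha1, ha2⟩ := exists_rat_btwn (show x.2 i < x.2 i + ε by linarith)
  have ha0 : 0 < a := by
    have : (0 : ℝ) < a := lt_of_le_of_lt hx0 ha1
    exact_mod_cast this
  rcases hx0.eq_or_lt with hz | hz
  · refine ⟨(i, a, none), (i, a, none), ?_⟩
    intro y hy h1 _
    have h2 := h0 y hy i
    have h3 := vl_none ha0 h1
    have h4 : ¬ (a : ℝ) < y.2 i := fun hc => lt_asymm (h3.1 hc) ha1
    rw [← hz] at ha2 ⊢
    rw [abs_lt]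
    constructor <;> linarith [not_lt.1 h4]
  · obtain ⟨c, hc1, hc2⟩ := exists_rat_btwn (show max 0 (x.2 i - ε) < x.2 i from
      max_lt hz (by linarith))
    have hc0 : 0 < c := by
      have : (0 : ℝ) < c := lt_of_le_of_lt (le_max_left _ _) hc1
      exact_mod_cast this
    have hc3 : x.2 i - ε < c := lt_of_le_of_lt (le_max_right _ _) hc1
    refine ⟨(i, a, none), (i, c, none), ?_⟩
    intro y hy h1 h2
    have h3 := vl_none ha0 h1
    have h4 : ¬ (a : ℝ) < y.2 i := fun hc => lt_asymm (h3.1 hc) ha1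
    have h5 : (c : ℝ) < y.2 i := (vl_none hc0 h2).2 hc2
    rw [abs_lt]
    constructor <;> linarith [not_lt.1 h4]

/-- the pieces are zero-dimensional -/
theorem piece (hCYL : S_CYL.{u}) {P : Set V} {B : ℕ → Set (Set V)} (hB : IsSDB P B)
    {W : Set (V × (ℕ → ℝ))} (hP : ∀ x ∈ W, x.1 ∈ P) (h0 : ∀ x ∈ W, ∀ i, 0 ≤ x.2 i)
    (hr : ∀ x ∈ W, ∀ y ∈ W, ∀ (i : ℕ) (a : ℚ), 0 < a → x.2 i = a → y.2 i = a)
    (hH : ∀ m, ∀ x ∈ W, x.1 ∈ ⋃₀ B m → ∃ i, 0 < x.2 i ∧ ok B W i m) : ZD W := by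
  classical
  obtain ⟨e, he⟩ := exists_surjective_nat (ℕ × ℚ × Option ℕ)
  let c : ℕ → V × (ℕ → ℝ) → (ℕ → Option (Set V)) := fun j x j' =>
    if j' ≤ j then vl B W (e j') x else none
  refine hCYL (V × (ℕ → ℝ)) (ℕ → Option (Set V)) W c ?_ ?_
  · intro j x hx
    have h1 := fun j' => vl_loc hB hP hr (e j') x hx
    choose O hO1 hO2 hO3 using h1
    refine ⟨⋂ j' ∈ Finset.range (j + 1), O j', isOpen_biInter_finset fun j' _ => hO1 j', ?_, ?_⟩
    · rw [mem_iInter₂]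
      exact fun j' _ => hO2 j'
    · rintro y ⟨hy, hyW⟩
      rw [mem_iInter₂] at hy
      funext j'
      by_cases hj : j' ≤ j
      · have e1 : ∀ z, c j z j' = vl B W (e j') z := fun z => if_pos hj
        rw [e1, e1]
        exact hO3 j' y ⟨hy j' (Finset.mem_range.2 (by omega)), hyW⟩
      · have e1 : ∀ z, c j z j' = none := fun z => if_neg hj
        rw [e1, e1]
  · intro x hx U hU hxU
    have key : ∀ (N : ℕ) (y : V × (ℕ → ℝ)), c N y = c N x → ∀ j', j' ≤ N →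
        vl B W (e j') y = vl B W (e j') x := by
      intro N y h j' hj
      have h1 := congrFun h j'
      have e1 : ∀ z, c N z j' = vl B W (e j') z := fun z => if_pos hj
      rwa [e1, e1] at h1
    obtain ⟨u1, v1, hu1, hv1, hxu, hxv, huv⟩ := isOpen_prod_iff.1 hU x.1 x.2 hxU
    obtain ⟨q, hq⟩ := first hB hP hH x hx u1 hu1 hxu
    obtain ⟨j0, hj0⟩ := he q
    obtain ⟨I, w, hw1, hw2⟩ := isOpen_pi_iff.1 hv1 x.2 hxv
    have h2 : ∀ i, ∃ N, ∀ y ∈ W, (∀ j' ≤ N, vl B W (e j') y = vl B W (e j') x) → i ∈ I →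
        y.2 i ∈ w i := by
      intro i
      by_cases hi : i ∈ I
      · obtain ⟨ε, hε, hball⟩ := Metric.isOpen_iff.1 (hw1 i hi).1 _ (hw1 i hi).2
        obtain ⟨q1, q2, hq12⟩ := second (B := B) h0 x hx i ε hε
        obtain ⟨j1, hj1⟩ := he q1
        obtain ⟨j2, hj2⟩ := he q2
        refine ⟨max j1 j2, ?_⟩
        intro y hy h _
        apply hball
        rw [Metric.mem_ball, Real.dist_eq]
        refine hq12 y hy ?_ ?_
        · rw [← hj1]
          exact h j1 (le_max_left _ _)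
        · rw [← hj2]
          exact h j2 (le_max_right _ _)
      · exact ⟨0, fun y _ _ hi' => absurd hi' hi⟩
    choose Nf hNf using h2
    refine ⟨max j0 (I.sup Nf), ?_⟩
    intro y hy hc
    have h3 := key _ y hc
    have h4 : y ∈ u1 ×ˢ v1 := by
      refine ⟨hq y hy ?_, hw2 ?_⟩
      · rw [← hj0]
        exact h3 j0 (le_max_left _ _)
      · intro i hi
        refine hNf i y hy (fun j' hj' => h3 j' ?_) hi
        exact hj'.trans ((Finset.le_sup (f := Nf) hi).trans (le_max_right _ _))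
    exact huv h4

end piece

/-! ### the values -/

section values

variable {X : Type u}

/-- the positive rational values, with their indices -/
def sg (g : ℕ → X → ℝ) (x : X) : Set (ℕ × ℚ) := {p | 1 ≤ p.1 ∧ 0 < p.2 ∧ g p.1 x = p.2}

theorem sg_inj (g : ℕ → X → ℝ) (x : X) : InjOn Prod.fst (sg g x) := by
  rintro ⟨i, a⟩ ⟨-, -, h1⟩ ⟨i', a'⟩ ⟨-, -, h2⟩ h
  change i = i' at h
  subst h
  change g i x = a at h1
  change g i x = a' at h2
  rw [h1] at h2
  have h3 : a = a' := by exact_mod_cast h2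
  rw [h3]

theorem card_lt {g : ℕ → X → ℝ} {x : X} {n : ℕ}
    (h : ∀ s : Finset ℕ, (∀ i ∈ s, 1 ≤ i ∧ ∃ ρ : ℚ, 0 < ρ ∧ g i x = ρ) → s.card < n)
    (t : Finset (ℕ × ℚ)) (ht : (t : Set (ℕ × ℚ)) ⊆ sg g x) : t.card < n := by
  classical
  have h1 := h (t.image Prod.fst) (by
    intro i hi
    obtain ⟨p, hp, rfl⟩ := Finset.mem_image.1 hi
    obtain ⟨h1, h2, h3⟩ := ht hp
    exact ⟨h1, p.2, h2, h3⟩)
  rwa [Finset.card_image_of_injOn ((sg_inj g x).mono ht)] at h1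

theorem sg_fin {g : ℕ → X → ℝ} {x : X} {n : ℕ}
    (h : ∀ s : Finset ℕ, (∀ i ∈ s, 1 ≤ i ∧ ∃ ρ : ℚ, 0 < ρ ∧ g i x = ρ) → s.card < n) :
    (sg g x).Finite ∧ (sg g x).ncard < n := by
  have hf : (sg g x).Finite := by
    by_contra hcon
    obtain ⟨t, ht, hc⟩ := Set.Infinite.exists_subset_card_eq hcon n
    have := card_lt h t ht
    omega
  refine ⟨hf, ?_⟩
  have h1 := card_lt h hf.toFinset (by rw [hf.coe_toFinset])
  rwa [ncard_eq_toFinset_card _ hf]

end values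

/-- the sets with constant rational values are zero-dimensional -/
theorem main (hCYL : S_CYL.{u}) (hSUM : S_SUM.{u}) (hPROD : S_PROD.{u}) (hLIM : S_LIM.{u})
    (X : Type u) [TopologicalSpace X] (Y Z : Set X) (V : ℕ → Type u)
    [∀ k, TopologicalSpace (V k)] [∀ k, PerfectlyNormalSpace (V k)] (h : ∀ k, Y → V k)
    (P : ∀ k, ℕ → Set (V k)) (B : ∀ k, ℕ → ℕ → Set (Set (V k))) (g : ℕ → X → ℝ)
    (hg : ∀ i, Continuous (g i)) (hg0 : ∀ i x, 0 ≤ g i x) (hZY : Z ⊆ Y)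
    (hh : ∀ k, Continuous (h k)) (hPc : ∀ k l, IsClosed (P k l)) (hPu : ∀ k, ⋃ l, P k l = univ)
    (hB : ∀ k l, IsSDB (P k l) (B k l))
    (hbase : ∀ (y : Y) (U : Set X), IsOpen U → y.1 ∈ U →
      ∃ k, ∃ O : Set (V k), IsOpen O ∧ h k y ∈ O ∧ ∀ y' : Y, h k y' ∈ O → y'.1 ∈ U)
    (hH : ∀ k l m, ∀ y : Y, h k y ∈ ⋃₀ B k l m → ∃ i, 1 ≤ i ∧ 0 < g i y ∧
      ∀ y' : Y, h k y' ∈ P k l → 0 < g i y' → h k y' ∈ ⋃₀ B k l m)
    (hZ : ∀ x ∈ Z, ∀ y ∈ Z, sg g x = sg g y) : ZD Z := by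
  haveI hpn : ∀ k, PerfectlyNormalSpace (V k × (ℕ → ℝ)) := fun k => hPROD (V k)
  let ψ : ∀ k, Z → V k × (ℕ → ℝ) := fun k z => (h k ⟨z.1, hZY z.2⟩, fun i => g (i + 1) z.1)
  refine hLIM X Z (fun k => V k × (ℕ → ℝ)) ψ ?_ ?_ ?_
  · intro k
    refine Continuous.prodMk ?_ ?_
    · exact (hh k).comp (continuous_subtype_val.subtype_mk _)
    · exact continuous_pi fun i => (hg _).comp continuous_subtype_val
  · intro k
    refine hSUM (V k × (ℕ → ℝ)) (range (ψ k))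
      (fun l => (Prod.fst ⁻¹' P k l) ∩ range (ψ k)) ?_ ?_ ?_
    · intro l
      exact ⟨Prod.fst ⁻¹' P k l, (hPc k l).preimage continuous_fst, rfl⟩
    · rw [← iUnion_inter, ← preimage_iUnion, hPu, preimage_univ, univ_inter]
    · intro l
      refine piece hCYL (hB k l) (fun x hx => hx.1) ?_ ?_ ?_
      · rintro _ ⟨-, z, rfl⟩ i
        exact hg0 _ _
      · rintro _ ⟨-, z, rfl⟩ _ ⟨-, z', rfl⟩ i a ha h1
        have h1' : g (i + 1) z.1 = a := h1
        have h2 : (i + 1, a) ∈ sg g z.1 := ⟨Nat.succ_pos i, ha, h1'⟩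
        rw [hZ z.1 z.2 z'.1 z'.2] at h2
        exact h2.2.2
      · rintro m _ ⟨-, z, rfl⟩ h1
        obtain ⟨i, hi, hpos, hi'⟩ := hH k l m ⟨z.1, hZY z.2⟩ h1
        refine ⟨i - 1, ?_, ?_⟩
        · show 0 < g (i - 1 + 1) z.1
          rw [Nat.sub_add_cancel hi]
          exact hpos
        · rintro _ ⟨h2, z', rfl⟩ h3
          have h3' : 0 < g (i - 1 + 1) z'.1 := h3
          rw [Nat.sub_add_cancel hi] at h3'
          exact hi' ⟨z'.1, hZY z'.2⟩ h2 h3'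
  · intro z U hU hzU
    obtain ⟨k, O, hO, h1, h2⟩ := hbase ⟨z.1, hZY z.2⟩ U hU hzU
    exact ⟨k, Prod.fst ⁻¹' O, hO.preimage continuous_fst, h1, fun y hy => h2 ⟨y.1, hZY y.2⟩ hy⟩

end DEC2

open DEC2 in
theorem t_DEC2 : M_DEC2.{u} := by
  intro hCYL hSUM hUM hPROD hLIM X _ _ Y L V _ _ h P B g n hg hg0 hLY hh hPc hPu hB hbase hH hL
  have hfin : ∀ x ∈ L, (sg g x).Finite ∧ (sg g x).ncard < n := fun x hx => sg_fin (hL x hx)
  have hcov : ⋃ j : Fin n, {x | x ∈ L ∧ (sg g x).ncard = j.val} = L := by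
    ext x
    rw [mem_iUnion]
    constructor
    · rintro ⟨j, hx⟩
      exact hx.1
    · intro hx
      exact ⟨⟨_, (hfin x hx).2⟩, hx, rfl⟩
  rw [← hcov]
  refine hUM X n (fun j : Fin n => {x | x ∈ L ∧ (sg g x).ncard = j.val}) ?_
  intro j
  obtain ⟨e, he⟩ := exists_surjective_nat (Finset (ℕ × ℚ))
  refine hSUM X _ (fun t => {x | (x ∈ L ∧ (sg g x).ncard = j.val) ∧
    ((e t : Finset (ℕ × ℚ)) : Set (ℕ × ℚ)) = sg g x}) ?_ ?_ ?_
  · intro t
    by_cases hσ : (e t).card = j.val ∧ ∀ p ∈ e t, 1 ≤ p.1 ∧ 0 < p.2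
    · refine ⟨⋂ p ∈ e t, {x | g p.1 x = p.2}, isClosed_biInter fun p _ =>
        isClosed_eq (hg _) continuous_const, ?_⟩
      ext x
      constructor
      · rintro ⟨h1, h3⟩
        refine ⟨?_, h1⟩
        rw [mem_iInter₂]
        intro p hp
        have hp' : p ∈ sg g x := by
          rw [← h3]
          exact hp
        exact hp'.2.2
      · rintro ⟨h2, h3⟩
        rw [mem_iInter₂] at h2
        refine ⟨h3, ?_⟩
        apply eq_of_subset_of_ncard_le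
        · intro p hp
          have hp' : p ∈ e t := hp
          exact ⟨(hσ.2 p hp').1, (hσ.2 p hp').2, h2 p hp'⟩
        · rw [h3.2, ncard_coe_finset, hσ.1]
        · exact (hfin x h3.1).1
    · refine ⟨∅, isClosed_empty, ?_⟩
      rw [empty_inter, eq_empty_iff_forall_notMem]
      rintro x ⟨h1, h3⟩
      apply hσ
      refine ⟨?_, ?_⟩
      · rw [← h1.2, ← h3, ncard_coe_finset]
      · intro p hp
        have hp' : p ∈ sg g x := by
          rw [← h3]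
          exact hp
        exact ⟨hp'.1, hp'.2.1⟩
  · ext x
    rw [mem_iUnion]
    constructor
    · rintro ⟨t, hx⟩
      exact hx.1
    · intro hx
      obtain ⟨t, ht⟩ := he (hfin x hx.1).1.toFinset
      refine ⟨t, hx, ?_⟩
      rw [ht]
      exact (hfin x hx.1).1.coe_toFinset
  · intro t
    refine main hCYL hSUM hPROD hLIM X Y _ V h P B g hg hg0 ?_ hh hPc hPu hB hbase hH ?_
    · rintro x ⟨h1, -⟩
      exact hLY h1.1
    · rintro x ⟨-, h3⟩ y ⟨-, h3'⟩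
      rw [← h3, ← h3']

end NMD
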