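import Pool.Agent.NMD.Stmts2

/-!
# Finite products of developable spaces
-/

namespace NMD

open Set Topology

universe u

namespace DEVP

/-- common refinements of the first covers -/
def ref {W : Type u} [TopologicalSpace W] (G : ℕ → Set (Set W)) (n : ℕ) : Set (Set W) :=
  {V | IsOpen V ∧ ∀ m, m ≤ n → ∃ U ∈ G m, V ⊆ U}

theorem ref_cover {W : Type u} [TopologicalSpace W] {G : ℕ → Set (Set W)}
    (hG : ∀ n, (∀ U ∈ G n, IsOpen U) ∧ ⋃₀ G n = univ) (n : ℕ) (x : W) :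
    ∃ V ∈ ref G n, x ∈ V := by
  have h : ∀ m, ∃ U ∈ G m, x ∈ U := by
    intro m
    have hx : x ∈ ⋃₀ G m := by rw [(hG m).2]; trivial
    obtain ⟨U, hU, hxU⟩ := hx
    exact ⟨U, hU, hxU⟩
  choose U hU hxU using h
  refine ⟨⋂ m ∈ Finset.range (n + 1), U m, ⟨?_, ?_⟩, ?_⟩
  · exact isOpen_biInter_finset fun m _ => (hG m).1 _ (hU m)
  · intro m hm
    refine ⟨U m, hU m, ?_⟩
    exact biInter_subset_of_mem (Finset.mem_coe.2 (Finset.mem_range.2 (Nat.lt_succ_of_le hm)))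
  · exact mem_iInter₂.2 fun m _ => hxU m

end DEVP

theorem t_DEVP : S_DEVP.{u} := by
  intro k W _ hW
  choose G hG hstar using hW
  refine ⟨fun n => {B | ∃ V : ∀ i, Set (W i), (∀ i, V i ∈ DEVP.ref (G i) n) ∧
    B = Set.pi univ V}, ?_, ?_⟩
  · intro n
    constructor
    · rintro B ⟨V, hV, rfl⟩
      exact isOpen_set_pi finite_univ fun i _ => (hV i).1
    · rw [eq_univ_iff_forall]
      intro x
      have h : ∀ i, ∃ V ∈ DEVP.ref (G i) n, x i ∈ V := fun i => DEVP.ref_cover (hG i) n (x i)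
      choose V hV hx using h
      exact ⟨Set.pi univ V, ⟨V, hV, rfl⟩, fun i _ => hx i⟩
  · intro x U hU hx
    rw [isOpen_pi_iff'] at hU
    obtain ⟨O, hO, hOU⟩ := hU x hx
    have h : ∀ i, ∃ n, star (x i) (G i n) ⊆ O i := fun i => hstar i (x i) (O i) (hO i).1 (hO i).2
    choose m hm using h
    refine ⟨Finset.univ.sup m, ?_⟩
    rintro y ⟨B, ⟨⟨V, hV, rfl⟩, hxB⟩, hyB⟩
    apply hOU
    intro i _
    apply hm i
    obtain ⟨U', hU', hVU⟩ := (hV i).2 (m i) (Finset.le_sup (Finset.mem_univ i))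
    exact ⟨U', ⟨hU', hVU (hxB i (mem_univ i))⟩, hVU (hyB i (mem_univ i))⟩

end NMD
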