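import Pool.Agent.NMD.Stmts
import Pool.Agent.NMD.Base

/-!
# `dim ≤ Ind` for normal spaces
-/

namespace NMD

open Set Topology

universe u

namespace DI

variable {X : Type u} [TopologicalSpace X]

/-- every open family covering `C` has a shrinking covering `C` of order `n` on `C` -/
def P (k n : ℕ) (C : Set X) : Prop :=
  ∀ U : Fin k → Set X, (∀ i, IsOpen (U i)) → C ⊆ ⋃ i, U i →
    ∃ W : Fin k → Set X, (∀ i, IsOpen (W i)) ∧ (∀ i, W i ⊆ U i) ∧ C ⊆ ⋃ i, W i ∧
      ∀ x ∈ C, {i | x ∈ W i}.ncard ≤ n

theorem P_empty (k n : ℕ) : P k n (∅ : Set X) := by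
  intro U hU _
  exact ⟨U, hU, fun i => Subset.rfl, empty_subset _, fun x hx => absurd hx (notMem_empty x)⟩

theorem P_of_dimLT {k n : ℕ} {C : Set X} (h : DimLT C n) : P k n C := by
  intro U hU hc
  obtain ⟨V, h1, h2, h3, h4⟩ := h.shrink (fun i => ((↑) : C → X) ⁻¹' (U i))
    (fun i => (hU i).preimage continuous_subtype_val) (by
      rw [eq_univ_iff_forall]
      intro x
      obtain ⟨i, hi⟩ := mem_iUnion.1 (hc x.2)
      exact mem_iUnion.2 ⟨i, hi⟩)
  have h5 : ∀ i, ∃ O : Set X, IsOpen O ∧ ((↑) : C → X) ⁻¹' O = V i := fun i =>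
    isOpen_induced_iff.1 (h1 i)
  choose O hO1 hO2 using h5
  have key : ∀ (x : X) (hx : x ∈ C) (i : Fin k), x ∈ O i ↔ (⟨x, hx⟩ : C) ∈ V i := by
    intro x hx i
    rw [← hO2 i]
    rfl
  refine ⟨fun i => O i ∩ U i, fun i => (hO1 i).inter (hU i), fun i => inter_subset_right, ?_, ?_⟩
  · intro x hx
    have h6 : (⟨x, hx⟩ : C) ∈ ⋃ i, V i := by rw [h3]; trivial
    obtain ⟨i, hi⟩ := mem_iUnion.1 h6
    exact mem_iUnion.2 ⟨i, (key x hx i).2 hi, h2 i hi⟩
  · intro x hx
    refine le_trans (ncard_le_ncard ?_ (toFinite _)) (h4 ⟨x, hx⟩)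
    intro i hi
    exact (key x hx i).1 hi.1

theorem P_union {k n : ℕ} {C C' : Set X} (hC : IsClosed C) (hC' : IsClosed C') (h : P k n C)
    (h' : P k n C') : P k n (C ∪ C') := by
  intro U hU hc
  obtain ⟨W, a1, a2, a3, a4⟩ := h U hU (subset_union_left.trans hc)
  have b1 : ∀ i, IsOpen (W i ∪ (U i \ C)) := fun i => (a1 i).union ((hU i).sdiff hC)
  have b2 : C ∪ C' ⊆ ⋃ i, (W i ∪ (U i \ C)) := by
    intro x hx
    by_cases hxC : x ∈ C
    · obtain ⟨i, hi⟩ := mem_iUnion.1 (a3 hxC)
      exact mem_iUnion.2 ⟨i, Or.inl hi⟩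
    · obtain ⟨i, hi⟩ := mem_iUnion.1 (hc hx)
      exact mem_iUnion.2 ⟨i, Or.inr ⟨hi, hxC⟩⟩
  obtain ⟨W', c1, c2, c3, c4⟩ := h' _ b1 (subset_union_right.trans b2)
  have hsub : ∀ i, W i ∪ (U i \ C) ⊆ U i := fun i => union_subset (a2 i) sdiff_subset
  refine ⟨fun i => W' i ∪ ((W i ∪ (U i \ C)) \ C'), fun i => (c1 i).union ((b1 i).sdiff hC'),
    fun i => union_subset ((c2 i).trans (hsub i)) (sdiff_subset.trans (hsub i)), ?_, ?_⟩
  · intro x hx
    by_cases hxC : x ∈ C'
    · obtain ⟨i, hi⟩ := mem_iUnion.1 (c3 hxC)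
      exact mem_iUnion.2 ⟨i, Or.inl hi⟩
    · obtain ⟨i, hi⟩ := mem_iUnion.1 (b2 hx)
      exact mem_iUnion.2 ⟨i, Or.inr ⟨hi, hxC⟩⟩
  · intro x hx
    by_cases hxC : x ∈ C'
    · refine le_trans (ncard_le_ncard ?_ (toFinite _)) (c4 x hxC)
      intro i hi
      rcases hi with hi | hi
      · exact hi
      · exact absurd hxC hi.2
    · have hxC1 : x ∈ C := by
        rcases hx with hx | hx
        · exact hx
        · exact absurd hx hxC
      refine le_trans (ncard_le_ncard ?_ (toFinite _)) (a4 x hxC1)
      intro i hi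
      have h7 : x ∈ W i ∪ (U i \ C) := by
        rcases hi with hi | hi
        · exact c2 i hi
        · exact hi.1
      rcases h7 with h7 | h7
      · exact h7
      · exact absurd hxC1 h7.2

theorem P_biUnion {k n : ℕ} {ι : Type*} (C : ι → Set X) (hC : ∀ i, IsClosed (C i))
    (h : ∀ i, P k n (C i)) (s : Finset ι) : P k n (⋃ i ∈ s, C i) := by
  classical
  induction s using Finset.induction_on with
  | empty => simpa using P_empty k n
  | insert a s _ ih =>
    rw [Finset.set_biUnion_insert]
    exact P_union (hC a) (isClosed_biUnion_finset fun i _ => hC i) (h a) ih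

/-- the points in at least `n` of the sets `H j`, `j ≠ a` -/
theorem closed_count {k n : ℕ} (H : Fin k → Set X) (hH : ∀ i, IsClosed (H i)) (a : Fin k) :
    IsClosed {x | n ≤ {j | j ≠ a ∧ x ∈ H j}.ncard} := by
  classical
  have e : {x | n ≤ {j | j ≠ a ∧ x ∈ H j}.ncard} =
      ⋃ s ∈ (Finset.univ.filter fun s : Finset (Fin k) => a ∉ s ∧ n ≤ s.card),
        ⋂ j ∈ s, H j := by
    ext x
    simp only [mem_ofPred_eq, mem_iUnion, Finset.mem_filter, Finset.mem_univ, true_and,
      mem_iInter, exists_prop]
    constructor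
    · intro h
      refine ⟨Finset.univ.filter fun j => j ≠ a ∧ x ∈ H j, ⟨by simp, ?_⟩, ?_⟩
      · refine h.trans (le_of_eq ?_)
        rw [← ncard_coe_finset]
        congr 1
        ext j
        simp
      · intro j hj
        exact (Finset.mem_filter.1 hj).2.2
    · rintro ⟨s, ⟨h1, h2⟩, h3⟩
      refine h2.trans ?_
      rw [← ncard_coe_finset]
      refine ncard_le_ncard ?_ (toFinite _)
      intro j hj
      exact ⟨fun e => h1 (e ▸ hj), h3 j hj⟩
  rw [e]
  exact isClosed_biUnion_finset fun s _ => isClosed_biInter fun j _ => hH j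

/-- swelling -/
theorem swell [NormalSpace X] {k n : ℕ} (K U : Fin k → Set X) (hK : ∀ i, IsClosed (K i))
    (hU : ∀ i, IsOpen (U i)) (hKU : ∀ i, K i ⊆ U i) (hord : ∀ x, {i | x ∈ K i}.ncard ≤ n)
    (s : Finset (Fin k)) :
    ∃ H : Fin k → Set X, (∀ i, IsClosed (H i)) ∧ (∀ i, K i ⊆ H i) ∧ (∀ i, H i ⊆ U i) ∧
      (∀ i ∈ s, K i ⊆ interior (H i)) ∧ ∀ x, {i | x ∈ H i}.ncard ≤ n := by
  classical
  induction s using Finset.induction_on with
  | empty =>
    exact ⟨K, hK, fun i => Subset.rfl, hKU, fun i hi => absurd hi (Finset.notMem_empty i), hord⟩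
  | insert a s has ih =>
    obtain ⟨H, h1, h2, h3, h4, h5⟩ := ih
    set D : Set X := {x | n ≤ {j | j ≠ a ∧ x ∈ H j}.ncard} with hD
    have hDc : IsClosed D := closed_count H h1 a
    have hKD : K a ⊆ U a ∩ Dᶜ := by
      intro x hx
      refine ⟨hKU a hx, ?_⟩
      intro hxD
      have h6 : n ≤ {j | j ≠ a ∧ x ∈ H j}.ncard := hxD
      have h7 : {i | x ∈ H i} = insert a {j | j ≠ a ∧ x ∈ H j} := by
        ext j
        simp only [mem_ofPred_eq, mem_insert_iff]
        constructor
        · intro hj
          by_cases e : j = a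
          · exact Or.inl e
          · exact Or.inr ⟨e, hj⟩
        · rintro (rfl | hj)
          · exact h2 _ hx
          · exact hj.2
      have h8 := h5 x
      rw [h7, ncard_insert_of_notMem (by simp) (toFinite _)] at h8
      omega
    obtain ⟨G, hG1, hG2, hG3⟩ := normal_exists_closure_subset (hK a)
      ((hU a).inter hDc.isOpen_compl) hKD
    refine ⟨fun i => if i = a then closure G else H i, ?_, ?_, ?_, ?_, ?_⟩
    · intro i
      by_cases e : i = a
      · simp only [e, if_true]
        exact isClosed_closure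
      · simp only [e, if_false]
        exact h1 i
    · intro i
      by_cases e : i = a
      · subst e
        simp only [if_true]
        exact hG2.trans subset_closure
      · simp only [e, if_false]
        exact h2 i
    · intro i
      by_cases e : i = a
      · subst e
        simp only [if_true]
        exact fun x hx => (hG3 hx).1
      · simp only [e, if_false]
        exact h3 i
    · intro i hi
      by_cases e : i = a
      · subst e
        simp only [if_true]
        exact hG2.trans (interior_maximal subset_closure hG1)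
      · simp only [e, if_false]
        exact h4 i ((Finset.mem_insert.1 hi).resolve_left e)
    · intro x
      by_cases hx : x ∈ closure G
      · have h6 : ¬ n ≤ {j | j ≠ a ∧ x ∈ H j}.ncard := (hG3 hx).2
        have h7 : {i | x ∈ (if i = a then closure G else H i)} ⊆
            insert a {j | j ≠ a ∧ x ∈ H j} := by
          intro j hj
          by_cases e : j = a
          · exact Or.inl e
          · have hj' : x ∈ (if j = a then closure G else H j) := hj
            rw [if_neg e] at hj'
            exact Or.inr ⟨e, hj'⟩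
        have h8 := ncard_le_ncard h7 (toFinite _)
        have h9 := ncard_insert_le a {j | j ≠ a ∧ x ∈ H j}
        refine h8.trans ?_
        omega
      · refine le_trans (ncard_le_ncard ?_ (toFinite _)) (h5 x)
        intro j hj
        have hj' : x ∈ (if j = a then closure G else H j) := hj
        by_cases e : j = a
        · rw [if_pos e] at hj'
          exact absurd hj' hx
        · rw [if_neg e] at hj'
          exact hj'

end DI

theorem t_DI : S_DI.{u} := by
  classical
  intro X _ _ n
  induction n generalizing X with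
  | zero =>
    intro h 𝒰 h1 h2 h3
    have : IsEmpty X := h
    exact ⟨𝒰, h1, h2, h3, fun V hV => ⟨V, hV, Subset.rfl⟩, fun x => isEmptyElim x⟩
  | succ n ih =>
    intro h
    apply DimLT.of_shrink
    intro k U hU hc
    obtain ⟨F, f1, f2, f3⟩ := exists_iUnion_eq_closed_subset hU (fun x => toFinite _) hc
    have hV : ∀ i, ∃ V : Set X, IsOpen V ∧ F i ⊆ V ∧ closure V ⊆ U i ∧
        IndLT n (frontier V) := fun i => h (F i) (U i) (f2 i) (hU i) (f3 i)
    choose V v1 v2 v3 v4 using hV
    have hfr : ∀ i, DimLT (frontier (V i)) n := by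
      intro i
      have : NormalSpace (frontier (V i)) :=
        (isClosed_frontier.isClosedEmbedding_subtypeVal).normalSpace
      exact ih _ (v4 i)
    have hP := DI.P_biUnion (k := k) (fun i => frontier (V i)) (fun i => isClosed_frontier)
      (fun i => DI.P_of_dimLT (hfr i)) Finset.univ
    set Z : Set X := ⋃ i ∈ (Finset.univ : Finset (Fin k)), frontier (V i) with hZ
    have hZc : IsClosed Z := isClosed_biUnion_finset fun i _ => isClosed_frontier
    obtain ⟨W, w1, w2, w3, w4⟩ := hP U hU (by rw [hc]; exact subset_univ _)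
    obtain ⟨K, k1, k2, k3⟩ := exists_subset_iUnion_closed_subset hZc w1
      (fun x _ => toFinite _) w3
    obtain ⟨H, g1, g2, g3, g4, g5⟩ := DI.swell (n := n) (fun i => K i ∩ Z) U
      (fun i => (k2 i).inter hZc) hU (fun i => inter_subset_left.trans ((k3 i).trans (w2 i)))
      (by
        intro x
        by_cases hx : x ∈ Z
        · refine le_trans (ncard_le_ncard ?_ (toFinite _)) (w4 x hx)
          intro i hi
          exact k3 i hi.1
        · have e : {i | x ∈ K i ∩ Z} = ∅ := by
            ext i
            simp [hx]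
          rw [e]
          simp) Finset.univ
    refine ⟨Fin k ⊕ Fin k, inferInstance,
      Sum.elim (fun i => interior (H i)) (fun i => V i \ ⋃ j ∈ Finset.univ.filter (· < i),
        closure (V j)), ?_, ?_, ?_, ?_⟩
    · rintro (i | i)
      · exact isOpen_interior
      · exact (v1 i).sdiff (isClosed_biUnion_finset fun j _ => isClosed_closure)
    · rintro (i | i)
      · exact ⟨i, interior_subset.trans (g3 i)⟩
      · exact ⟨i, sdiff_subset.trans (subset_closure.trans (v3 i))⟩
    · rw [eq_univ_iff_forall]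
      intro x
      by_cases hx : x ∈ Z
      · obtain ⟨i, hi⟩ := mem_iUnion.1 (k1 hx)
        exact mem_iUnion.2 ⟨Sum.inl i, g4 i (Finset.mem_univ i) ⟨hi, hx⟩⟩
      · have hx1 : x ∈ ⋃ i, F i := by rw [f1]; trivial
        obtain ⟨i0, hi0⟩ := mem_iUnion.1 hx1
        have hne : (Finset.univ.filter fun i => x ∈ V i).Nonempty :=
          ⟨i0, Finset.mem_filter.2 ⟨Finset.mem_univ _, v2 i0 hi0⟩⟩
        obtain ⟨i, hi, hmin⟩ := Finset.exists_minimal hne
        refine mem_iUnion.2 ⟨Sum.inr i, (Finset.mem_filter.1 hi).2, ?_⟩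
        intro hx2
        simp only [mem_iUnion, Finset.mem_filter, Finset.mem_univ, true_and, exists_prop] at hx2
        obtain ⟨j, hj, hjx⟩ := hx2
        have h6 : x ∉ V j := by
          intro h7
          have h8 := hmin (Finset.mem_filter.2 ⟨Finset.mem_univ j, h7⟩) hj.le
          exact absurd hj (not_lt.2 h8)
        apply hx
        refine mem_biUnion (x := j) (Finset.mem_coe.2 (Finset.mem_univ j)) ?_
        rw [(v1 j).frontier_eq]
        exact ⟨hjx, h6⟩
    · intro x
      set E : Set (Fin k) := {i | x ∈ V i \ ⋃ j ∈ Finset.univ.filter (· < i), closure (V j)}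
        with hE
      have hE1 : E.ncard ≤ 1 := by
        rw [ncard_le_one (toFinite _)]
        have key : ∀ i ∈ E, ∀ j ∈ E, ¬ i < j := by
          intro i hi j hj hij
          apply hj.2
          simp only [mem_iUnion, Finset.mem_filter, Finset.mem_univ, true_and, exists_prop]
          exact ⟨i, hij, subset_closure hi.1⟩
        intro i hi j hj
        exact le_antisymm (not_lt.1 (key j hj i hi)) (not_lt.1 (key i hi j hj))
      have h6 : {j : Fin k ⊕ Fin k | x ∈ Sum.elim (fun i => interior (H i))
          (fun i => V i \ ⋃ j ∈ Finset.univ.filter (· < i), closure (V j)) j} ⊆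
          Sum.inl '' {i | x ∈ H i} ∪ Sum.inr '' E := by
        rintro (i | i) hi
        · exact Or.inl ⟨i, (interior_subset (s := H i) hi : x ∈ H i), rfl⟩
        · exact Or.inr ⟨i, hi, rfl⟩
      refine (ncard_le_ncard h6 (toFinite _)).trans ((ncard_union_le _ _).trans ?_)
      exact Nat.add_le_add ((ncard_image_le (toFinite _)).trans (g5 x))
        ((ncard_image_le (toFinite _)).trans hE1)

end NMD
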