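import Pool.Agent.NMD.Stmts3

set_option autoImplicit false

namespace NMD

open Set Topology

universe u

namespace DISC

/-- the union of the open sets that meet at most the member `i` -/
def Op {X : Type u} [TopologicalSpace X] {ι : Type u} (F : ι → Set X) (i : ι) : Set X :=
  ⋃₀ {O | IsOpen O ∧ ∀ j, (O ∩ F j).Nonempty → j = i}

theorem isOpen_Op {X : Type u} [TopologicalSpace X] {ι : Type u} (F : ι → Set X) (i : ι) :
    IsOpen (Op F i) := isOpen_sUnion fun _ h => h.1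

theorem eq_of_mem {X : Type u} [TopologicalSpace X] {ι : Type u} {F : ι → Set X} {i j : ι} {x : X}
    (h : x ∈ Op F i) (hj : x ∈ F j) : j = i := by
  obtain ⟨O, ⟨_, h2⟩, h3⟩ := h
  exact h2 j ⟨x, h3, hj⟩

theorem main {X : Type u} [TopologicalSpace X] {ι : Type u} (n : ℕ) : ∀ F : ι → Set X,
    (∀ x ∈ ⋃ i, F i, ∃ O, IsOpen O ∧ x ∈ O ∧
      ∀ i j, (O ∩ F i).Nonempty → (O ∩ F j).Nonempty → i = j) →
    (∀ i, RInd n (F i)) → RInd n (⋃ i, F i) := by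
  induction n with
  | zero =>
    intro F _ h
    show (⋃ i, F i) = ∅
    rw [iUnion_eq_empty]
    exact h
  | succ n ih =>
    intro F hF h A B hA hB hAB
    have h0 : ∀ i, A ∩ B ∩ F i = ∅ := by
      intro i
      rw [eq_empty_iff_forall_notMem]
      rintro x ⟨h1, h2⟩
      have h3 : x ∈ A ∩ B ∩ ⋃ i, F i := ⟨h1, mem_iUnion.2 ⟨i, h2⟩⟩
      rw [hAB] at h3
      exact h3
    have hsub : ∀ i, F i ⊆ Op F i := by
      intro i x hx
      obtain ⟨O, h1, h2, h3⟩ := hF x (mem_iUnion.2 ⟨i, hx⟩)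
      exact ⟨O, ⟨h1, fun j hj => h3 j i hj ⟨x, h2, hx⟩⟩, h2⟩
    choose G H hG hH h1 h2 h3 h4 using fun i => h i A B hA hB (h0 i)
    have hxG : ∀ i, ∀ x ∈ F i, x ∈ ⋃ j, G j ∩ Op F j → x ∈ G i := by
      intro i x hx hx2
      obtain ⟨j, hj1, hj2⟩ := mem_iUnion.1 hx2
      rw [eq_of_mem hj2 hx]
      exact hj1
    have hxH : ∀ i, ∀ x ∈ F i, x ∈ ⋃ j, H j ∩ Op F j → x ∈ H i := by
      intro i x hx hx2
      obtain ⟨j, hj1, hj2⟩ := mem_iUnion.1 hx2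
      rw [eq_of_mem hj2 hx]
      exact hj1
    refine ⟨⋃ i, G i ∩ Op F i, ⋃ i, H i ∩ Op F i,
      isOpen_iUnion fun i => (hG i).inter (isOpen_Op F i),
      isOpen_iUnion fun i => (hH i).inter (isOpen_Op F i), ?_, ?_, ?_, ?_⟩
    · rintro x ⟨ha, hx⟩
      obtain ⟨i, hi⟩ := mem_iUnion.1 hx
      exact mem_iUnion.2 ⟨i, h1 i ⟨ha, hi⟩, hsub i hi⟩
    · rintro x ⟨hb, hx⟩
      obtain ⟨i, hi⟩ := mem_iUnion.1 hx
      exact mem_iUnion.2 ⟨i, h2 i ⟨hb, hi⟩, hsub i hi⟩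
    · rw [eq_empty_iff_forall_notMem]
      rintro x ⟨⟨hg, hh⟩, hx⟩
      obtain ⟨i, hi⟩ := mem_iUnion.1 hx
      have h5 : x ∈ G i ∩ H i ∩ F i := ⟨⟨hxG i x hi hg, hxH i x hi hh⟩, hi⟩
      rw [h3 i] at h5
      exact h5
    · have h5 : (⋃ i, F i) \ ((⋃ i, G i ∩ Op F i) ∪ ⋃ i, H i ∩ Op F i) =
          ⋃ i, (F i \ (G i ∪ H i)) := by
        ext x
        constructor
        · rintro ⟨hx, hn⟩
          obtain ⟨i, hi⟩ := mem_iUnion.1 hx
          refine mem_iUnion.2 ⟨i, hi, ?_⟩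
          rintro (hg | hh)
          · exact hn (Or.inl (mem_iUnion.2 ⟨i, hg, hsub i hi⟩))
          · exact hn (Or.inr (mem_iUnion.2 ⟨i, hh, hsub i hi⟩))
        · intro hx
          obtain ⟨i, hi, hn⟩ := mem_iUnion.1 hx
          refine ⟨mem_iUnion.2 ⟨i, hi⟩, ?_⟩
          rintro (hg | hh)
          · exact hn (Or.inl (hxG i x hi hg))
          · exact hn (Or.inr (hxH i x hi hh))
      rw [h5]
      apply ih
      · intro x hx
        obtain ⟨i, hi, _⟩ := mem_iUnion.1 hx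
        obtain ⟨O, hO1, hO2, hO3⟩ := hF x (mem_iUnion.2 ⟨i, hi⟩)
        refine ⟨O, hO1, hO2, ?_⟩
        rintro j k ⟨y, hy1, hy2, _⟩ ⟨z, hz1, hz2, _⟩
        exact hO3 j k ⟨y, hy1, hy2⟩ ⟨z, hz1, hz2⟩
      · exact h4

end DISC

theorem t_DISC : S_DISC.{u} := by
  intro X _ n ι F hF h
  exact DISC.main n F hF h

end NMD
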