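import Pool.Agent.NMD.Stmts

/-!
# Module DNS: dense subsets with `σ`-disjoint bases
-/

namespace NMD

open Set Topology

universe u

theorem t_DNS : S_DNS.{u} := by
  intro X _ hdev F M hMF hFM hS
  obtain ⟨G, hG, hst⟩ := hdev
  obtain ⟨B0, hB⟩ := hS
  have hop := hB.op
  choose! O hO using hop
  have hg0 : ∀ (n : ℕ) (b : Set X), (∃ g ∈ G n, b ⊆ g) → ∃ g, g ∈ G n ∧ b ⊆ g := by
    intro n b h
    exact h
  choose! g hg using hg0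
  refine ⟨fun m => {W | ∃ b ∈ B0 m.unpair.1, (∃ g' ∈ G m.unpair.2, b ⊆ g') ∧
    W = O m.unpair.1 b ∩ g m.unpair.2 b ∩ F}, ?_, ?_, ?_⟩
  · rintro m W ⟨b, hb, hb', rfl⟩
    exact ⟨O m.unpair.1 b ∩ g m.unpair.2 b,
      (hO _ b hb).1.inter ((hG _).1 _ (hg _ b hb').1), rfl⟩
  · rintro m W ⟨b, hb, hb', rfl⟩ W' ⟨c, hc, hc', rfl⟩ hne
    have hbc : b ≠ c := by
      rintro rfl
      exact hne rfl
    show Disjoint (O m.unpair.1 b ∩ g m.unpair.2 b ∩ F) (O m.unpair.1 c ∩ g m.unpair.2 c ∩ F)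
    rw [Set.disjoint_left]
    rintro x ⟨⟨h1, h2⟩, h3⟩ ⟨⟨h4, h5⟩, -⟩
    have hopen : IsOpen ((O m.unpair.1 b ∩ g m.unpair.2 b) ∩
        (O m.unpair.1 c ∩ g m.unpair.2 c)) :=
      ((hO _ b hb).1.inter ((hG _).1 _ (hg _ b hb').1)).inter
        ((hO _ c hc).1.inter ((hG _).1 _ (hg _ c hc').1))
    obtain ⟨y, ⟨⟨hy1, -⟩, hy2, -⟩, hyM⟩ := mem_closure_iff.1 (hFM h3) _ hopen ⟨⟨h1, h2⟩, h4, h5⟩
    have e1 : y ∈ b := by
      rw [(hO _ b hb).2]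
      exact ⟨hy1, hyM⟩
    have e2 : y ∈ c := by
      rw [(hO _ c hc).2]
      exact ⟨hy2, hyM⟩
    have hd := hB.disj m.unpair.1 hb hc hbc
    exact Set.disjoint_left.1 hd e1 e2
  · intro x hx U hU hxU
    obtain ⟨n, hn⟩ := hst x U hU hxU
    have hx' : x ∈ ⋃₀ G n := by
      rw [(hG n).2]
      trivial
    obtain ⟨g0, hg0, hxg⟩ := hx'
    obtain ⟨i, b, hb, hxb, hbg⟩ := hB.base x hx g0 ((hG n).1 _ hg0) hxg
    have hb' : ∃ g' ∈ G n, b ⊆ g' := ⟨g0, hg0, hbg⟩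
    have hgb := hg n b hb'
    refine ⟨Nat.pair i n, O i b ∩ g n b ∩ F, ?_, ?_, ?_⟩
    · simp only [Nat.unpair_pair, Set.mem_ofPred_eq]
      exact ⟨b, hb, hb', rfl⟩
    · refine ⟨⟨?_, hgb.2 hxb⟩, hMF hx⟩
      have h1 := hxb
      rw [(hO _ b hb).2] at h1
      exact h1.1
    · rintro y ⟨⟨-, hy⟩, -⟩
      exact hn ⟨g n b, ⟨hgb.1, hgb.2 hxb⟩, hy⟩

end NMD
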