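import Mathlib

/-!
# Large inductive dimension and covering dimension of normal Moore spaces: definitions

* `DimLT X n`: the covering dimension of `X` is `< n`, that is `dim X ≤ n - 1`;
* `IndLT n X`: the large inductive dimension of `X` is `< n`, that is `Ind X ≤ n - 1`;
* `covDim X`, `Ind X`: the dimensions, in `{-1, 0, 1, …} ∪ {∞}`;
* `Developable X`, `IsMoore X`: developable spaces and Moore spaces;
* `FinMet S`: the subspace `S` is a finite union of metrizable subspaces.
-/

namespace NMD

open Set Topology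

universe u

/-- `dim X ≤ n - 1`: every finite open cover of `X` has a finite open refinement such that every
point is in at most `n` of its members. -/
def DimLT (X : Type u) [TopologicalSpace X] (n : ℕ) : Prop :=
  ∀ 𝒰 : Set (Set X), 𝒰.Finite → (∀ U ∈ 𝒰, IsOpen U) → ⋃₀ 𝒰 = univ →
    ∃ 𝒱 : Set (Set X), 𝒱.Finite ∧ (∀ V ∈ 𝒱, IsOpen V) ∧ ⋃₀ 𝒱 = univ ∧
      (∀ V ∈ 𝒱, ∃ U ∈ 𝒰, V ⊆ U) ∧ ∀ x : X, {V ∈ 𝒱 | x ∈ V}.ncard ≤ n

/-- `Ind X ≤ n - 1`: `Ind X ≤ -1` iff `X` is empty; `Ind X ≤ n` iff for every closed `A` and open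
`U ⊇ A` there is an open `V` with `A ⊆ V`, `closure V ⊆ U` and `Ind (frontier V) ≤ n - 1`. -/
def IndLT : ℕ → ∀ (X : Type u) [TopologicalSpace X], Prop
  | 0, X, _ => IsEmpty X
  | n + 1, X, _ => ∀ A U : Set X, IsClosed A → IsOpen U → A ⊆ U →
      ∃ V : Set X, IsOpen V ∧ A ⊆ V ∧ closure V ⊆ U ∧ IndLT n (frontier V)

open Classical in
/-- `n - 1` for the least `n` with `P n`, and `∞` if there is no such `n`. -/
noncomputable def dimVal (P : ℕ → Prop) : WithTop ℤ :=
  if h : ∃ n, P n then (((Nat.find h : ℤ) - 1 : ℤ) : WithTop ℤ) else ⊤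

/-- The covering dimension, in `{-1, 0, 1, …} ∪ {∞}`. -/
noncomputable def covDim (X : Type u) [TopologicalSpace X] : WithTop ℤ :=
  dimVal fun n => DimLT X n

/-- The large inductive dimension, in `{-1, 0, 1, …} ∪ {∞}`. -/
noncomputable def Ind (X : Type u) [TopologicalSpace X] : WithTop ℤ :=
  dimVal fun n => IndLT n X

/-- The star of a point with respect to a family of sets. -/
def star {X : Type u} (x : X) (𝒢 : Set (Set X)) : Set X := ⋃₀ {G ∈ 𝒢 | x ∈ G}

/-- `X` is developable: there is a sequence of open covers `G n` such that every neighbourhood of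
every point `x` contains the star of `x` with respect to one of them. -/
def Developable (X : Type u) [TopologicalSpace X] : Prop :=
  ∃ G : ℕ → Set (Set X), (∀ n, (∀ U ∈ G n, IsOpen U) ∧ ⋃₀ G n = univ) ∧
    ∀ (x : X) (U : Set X), IsOpen U → x ∈ U → ∃ n, star x (G n) ⊆ U

/-- Moore spaces: regular developable spaces. (The axiom `T₁` is not needed and not assumed.) -/
def IsMoore (X : Type u) [TopologicalSpace X] : Prop := RegularSpace X ∧ Developable X

/-- The subspace `S` is the union of finitely many metrizable subspaces. -/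
def FinMet {X : Type u} [TopologicalSpace X] (S : Set X) : Prop :=
  ∃ (q : ℕ) (M : Fin q → Set X), S = ⋃ j, M j ∧ ∀ j, TopologicalSpace.MetrizableSpace (M j)

/-- The theorem: `X` is a normal Moore space, the union of a subspace `Y`, a set `E` of cardinality
less than the continuum and closed subsets `D k` of covering dimension at most `0`; the
subspace `Y = ⋃ Y k` is a countable union of subspaces `Y k`, closed in `Y`, which are finite unions of
metrizable subspaces. Then `Ind X = dim X`. -/
def MainStatement : Prop :=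
  ∀ (X : Type u) [TopologicalSpace X] [NormalSpace X], IsMoore X →
    ∀ (Y : ℕ → Set X) (E : Set X) (D : ℕ → Set X),
      (∀ k, FinMet (Y k)) → (∀ k, ∃ C, IsClosed C ∧ Y k = C ∩ ⋃ j, Y j) →
      Cardinal.mk E < Cardinal.continuum →
      (∀ k, IsClosed (D k) ∧ covDim (D k) ≤ 0) →
      (⋃ k, Y k) ∪ E ∪ (⋃ k, D k) = univ →
      Ind X = covDim X

end NMD
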