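import Pool.Agent.NMD.Stmts2

/-!
# The final form of the theorem: definitions
-/

namespace NMD

open Set Topology

universe u

/-- `X = Y ∪ E ∪ D 0 ∪ D 1 ∪ …` where the subspace `Y` has the property `Res`, `E` has cardinality less than the
continuum, and the `D k` are closed in `X` with `Ind (D k) ≤ m`. -/
def GoodM (m : ℕ) (X : Type u) [TopologicalSpace X] : Prop :=
  ∃ (Y E : Set X) (D : ℕ → Set X), Res Y ∧ Cardinal.mk E < Cardinal.continuum ∧
    (∀ k, IsClosed (D k) ∧ Ind (D k) ≤ m) ∧ Y ∪ E ∪ (⋃ k, D k) = univ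

/-- The theorem: `X` is a normal Moore space, a countable union of closed subspaces `C k`, and every point of
`C k` has an open neighbourhood in `C k` which is, as a subspace, `GoodM m`. Then
`dim X ≤ Ind X ≤ dim X + m`. -/
def MainStatement4 : Prop :=
  ∀ (X : Type u) [TopologicalSpace X] [NormalSpace X], IsMoore X →
    ∀ (m : ℕ) (C : ℕ → Set X), (∀ k, IsClosed (C k)) → ⋃ k, C k = univ →
      (∀ k, ∀ x : C k, ∃ O : Set (C k), IsOpen O ∧ x ∈ O ∧ GoodM m O) →
      covDim X ≤ Ind X ∧ Ind X ≤ covDim X + m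

end NMD
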