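import Pool.Agent.NMD.Stmts
import Pool.Agent.NMD.Base

/-!
# FIN: finite unions of subspaces with a `σ`-disjoint base
-/

namespace NMD

open Set Topology

universe u

namespace FIN

variable {X : Type u} [TopologicalSpace X]

theorem sdb_empty : SDB (∅ : Set X) := by
  refine ⟨fun _ => ∅, ⟨?_, ?_, ?_⟩⟩
  · intro m b hb
    exact absurd hb (notMem_empty _)
  · intro m b hb
    exact absurd hb (notMem_empty _)
  · intro x hx
    exact absurd hx (notMem_empty _)

/-- finitely many bases at the points of the subspaces give a base -/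
theorem sdb_of_dense {q : ℕ} {F : Set X} {M : Fin q → Set X} (hF : F ⊆ ⋃ j, M j)
    (h : ∀ j, ∃ B : ℕ → Set (Set X), (∀ m, ∀ b ∈ B m, ∃ O, IsOpen O ∧ b = O ∩ F) ∧
      (∀ m, (B m).PairwiseDisjoint id) ∧
      ∀ x ∈ M j ∩ F, ∀ U, IsOpen U → x ∈ U → ∃ m, ∃ b ∈ B m, x ∈ b ∧ b ⊆ U) : SDB F := by
  classical
  choose B h1 h2 h3 using h
  refine ⟨fun n => if hn : n.unpair.1 < q then B ⟨n.unpair.1, hn⟩ n.unpair.2 else ∅, ⟨?_, ?_, ?_⟩⟩
  · intro n b hb
    by_cases hn : n.unpair.1 < q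
    · simp only [hn, dif_pos] at hb
      exact h1 _ _ b hb
    · simp only [hn, dif_neg, not_false_eq_true] at hb
      exact absurd hb (notMem_empty _)
  · intro n
    by_cases hn : n.unpair.1 < q
    · simp only [hn, dif_pos]
      exact h2 _ _
    · simp only [hn, dif_neg, not_false_eq_true]
      exact pairwiseDisjoint_empty
  · intro x hx U hU hxU
    obtain ⟨j, hj⟩ := mem_iUnion.1 (hF hx)
    obtain ⟨m, b, hb, hxb, hbU⟩ := h3 j x ⟨hj, hx⟩ U hU hxU
    refine ⟨Nat.pair j.val m, b, ?_, hxb, hbU⟩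
    have hn : (Nat.pair j.val m).unpair.1 < q := by rw [Nat.unpair_pair]; exact j.isLt
    simp only [hn, dif_pos]
    have e1 : (⟨(Nat.pair j.val m).unpair.1, hn⟩ : Fin q) = j := Fin.ext (by simp)
    have e2 : (Nat.pair j.val m).unpair.2 = m := by simp
    rw [e1, e2]
    exact hb

end FIN

theorem t_FIN : M_FIN.{u} := by
  intro hLOC hDNS X _ hX q
  induction q with
  | zero =>
    intro M _
    rw [iUnion_of_empty]
    exact FIN.sdb_empty.SCD
  | succ q ih =>
    intro M hM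
    set S : Set X := ⋃ j, M j with hS
    set G : Set X := ⋃₀ {O | IsOpen O ∧ SCD (S ∩ O)} with hG
    have hGo : IsOpen G := isOpen_sUnion fun O hO => hO.1
    have hSG : SCD (S ∩ G) := by
      refine hLOC X hX _ ?_
      rintro x ⟨_, O, hO, hxO⟩
      exact ⟨O, hO.1, hxO, hO.2.mono (by
        rintro y ⟨⟨hy, _⟩, hyO⟩
        exact ⟨hy, hyO⟩)⟩
    refine SCD.glue hX hGo hSG ?_
    set F : Set X := S \ G with hF
    by_cases hd : ∀ j, F ⊆ closure (M j ∩ F)
    · refine SDB.SCD (FIN.sdb_of_dense (M := M) (fun x hx => hx.1) fun j => ?_)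
      exact hDNS X hX F (M j ∩ F) inter_subset_right (hd j) ((hM j).mono inter_subset_left)
    · exfalso
      rw [not_forall] at hd
      obtain ⟨j, hj⟩ := hd
      rw [not_subset] at hj
      obtain ⟨x, hxF, hx⟩ := hj
      set O : Set X := (closure (M j ∩ F))ᶜ with hO
      have hOo : IsOpen O := isClosed_closure.isOpen_compl
      have h1 : SCD (F ∩ O) := by
        refine (ih (fun i => M (j.succAbove i)) fun i => hM _).mono ?_
        rintro y ⟨hyF, hyO⟩
        obtain ⟨i, hi⟩ := mem_iUnion.1 hyF.1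
        have hij : i ≠ j := by
          rintro rfl
          exact hyO (subset_closure ⟨hi, hyF⟩)
        obtain ⟨i', rfl⟩ := Fin.exists_succAbove_eq hij
        exact mem_iUnion.2 ⟨i', hi⟩
      have h2 : SCD (S ∩ O) := by
        refine SCD.glue hX hGo (hSG.mono ?_) (h1.mono ?_)
        · rintro y ⟨⟨hy, _⟩, hyG⟩
          exact ⟨hy, hyG⟩
        · rintro y ⟨⟨hy, hyO⟩, hyG⟩
          exact ⟨⟨hy, hyG⟩, hyO⟩
      exact hxF.2 ⟨O, ⟨hOo, h2⟩, hx⟩

end NMD
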