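import Pool.Agent.NMD.Stmts3

/-!
# Closed embeddings into good spaces
-/

set_option autoImplicit false

namespace NMD

open Set Topology

universe u

namespace GCE

/-- the dimension is at most `0` iff the property holds for some `n ≤ 1` -/
theorem dimVal_le_zero (P : ℕ → Prop) : dimVal P ≤ 0 ↔ ∃ n, n ≤ 1 ∧ P n := by
  classical
  unfold dimVal
  split_ifs with h
  · constructor
    · intro h1
      refine ⟨Nat.find h, ?_, Nat.find_spec h⟩
      have h2 : ((Nat.find h : ℤ) - 1 : ℤ) ≤ 0 := by exact_mod_cast h1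
      omega
    · rintro ⟨n, hn, hP⟩
      have h1 : Nat.find h ≤ n := Nat.find_min' h hP
      have h2 : ((Nat.find h : ℤ) - 1 : ℤ) ≤ 0 := by omega
      exact_mod_cast h2
  · constructor
    · intro h1
      exact absurd h1 (by simp)
    · rintro ⟨n, _, hP⟩
      exact absurd ⟨n, hP⟩ h

/-- `Res` is inherited along inducing maps -/
theorem res_of_inducing {X Y : Type u} [TopologicalSpace X] [TopologicalSpace Y] (f : X → Y)
    (hf : IsInducing f) (h : Res Y) : Res X := by
  obtain ⟨Z, tZ, g, h1, h2, h3⟩ := h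
  refine ⟨Z, tZ, fun k => g k ∘ f, h1, fun k => (h2 k).comp hf.continuous, ?_⟩
  intro y U hU hy
  obtain ⟨V, hV, rfl⟩ := hf.isOpen_iff.1 hU
  obtain ⟨k, O, hO, hyO, hOV⟩ := h3 (f y) V hV hy
  exact ⟨k, O, hO, hyO, fun x hx => hOV hx⟩

end GCE

theorem t_GCE : M_GCE.{u} := by
  intro hD X Y _ _ f hf hY
  obtain ⟨Y0, E, D, hR, hE, hDk, hc⟩ := hY
  refine ⟨f ⁻¹' Y0, f ⁻¹' E, fun k => f ⁻¹' D k, ?_, ?_, ?_, ?_⟩
  · exact GCE.res_of_inducing (Y0.restrictPreimage f) (hf.isInducing.restrictPreimage Y0) hR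
  · refine lt_of_le_of_lt ?_ hE
    exact Cardinal.mk_preimage_of_injective f E hf.injective
  · intro k
    refine ⟨(hDk k).1.preimage hf.continuous, ?_⟩
    have h1 := (GCE.dimVal_le_zero _).1 (hDk k).2
    obtain ⟨n, hn, hP⟩ := h1
    refine (GCE.dimVal_le_zero _).2 ⟨n, hn, ?_⟩
    exact hD _ _ ((D k).restrictPreimage f) (hf.restrictPreimage (D k)) n hP
  · rw [← preimage_iUnion, ← preimage_union, ← preimage_union, hc, preimage_univ]

end NMD
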