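import Pool.Agent.NMD.Stmts
import Pool.Agent.NMD.Base

/-!
# Generic functions (module GEN)
-/

namespace NMD

open Set Topology

open scoped BoundedContinuousFunction

universe u

namespace GEN

variable {X : Type u} [TopologicalSpace X]

/-- a common positive lower bound -/
theorem exists_pos_le {ι : Type*} [Finite ι] (a : ι → ℝ) (ha : ∀ i, 0 < a i) :
    ∃ c : ℝ, 0 < c ∧ ∀ i, c ≤ a i := by
  have h1 : ∀ᶠ c in 𝓝[>] (0 : ℝ), ∀ i, c ≤ a i := by
    rw [Filter.eventually_all]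
    intro i
    exact nhdsWithin_le_nhds (Iic_mem_nhds (ha i))
  have h2 : ∀ᶠ c in 𝓝[>] (0 : ℝ), 0 < c := self_mem_nhdsWithin
  obtain ⟨c, h3, h4⟩ := (h1.and h2).exists
  exact ⟨c, h4, h3⟩

/-- the truncation `max (h - η) 0` -/
noncomputable def trunc (h : X →ᵇ ℝ) (η : ℝ) : X →ᵇ ℝ :=
  (h - BoundedContinuousFunction.const X η) ⊔ 0

theorem trunc_apply (h : X →ᵇ ℝ) (η : ℝ) (x : X) : trunc h η x = max (h x - η) 0 := rfl

/-- the admissible functions for one index -/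
def K (f : X →ᵇ ℝ) (T : Set X) (ε : ℝ) : Set (X →ᵇ ℝ) :=
  {g | (∀ x, 0 ≤ g x) ∧ (∀ x ∈ T, g x = 0) ∧ ‖g - f‖ ≤ ε}

theorem isClosed_K (f : X →ᵇ ℝ) (T : Set X) (ε : ℝ) : IsClosed (K f T ε) := by
  have h1 : IsClosed {g : X →ᵇ ℝ | ∀ x, 0 ≤ g x} := by
    simp only [ofPred_forall]
    exact isClosed_iInter fun x =>
      isClosed_le continuous_const (continuous_eval_const x)
  have h2 : IsClosed {g : X →ᵇ ℝ | ∀ x ∈ T, g x = 0} := by
    simp only [ofPred_forall]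
    exact isClosed_iInter fun x => isClosed_iInter fun _ =>
      isClosed_eq (continuous_eval_const x) continuous_const
  have h3 : IsClosed {g : X →ᵇ ℝ | ‖g - f‖ ≤ ε} :=
    isClosed_le (continuous_id.sub continuous_const).norm continuous_const
  exact h1.inter (h2.inter h3)

/-- room for perturbations: `g1` is a small motion of `g` towards `f` -/
theorem move {f : X →ᵇ ℝ} {T : Set X} {ε : ℝ} (hε : 0 < ε) (hf : ∀ x, 0 ≤ f x)
    (hT : ∀ x ∈ T, f x = 0) {g : X →ᵇ ℝ} (hg : g ∈ K f T ε) {η : ℝ} (hη : 0 < η) :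
    ∃ (g1 : X →ᵇ ℝ) (c : ℝ), 0 < c ∧ ∀ η', 0 < η' → η' ≤ c → ∀ h : X →ᵇ ℝ, ‖h - g1‖ ≤ η' →
      trunc h η' ∈ K f T ε ∧ ‖trunc h η' - g‖ ≤ η := by
  obtain ⟨hg0, hgT, hgf⟩ := hg
  obtain ⟨s, hs0, hs1, hs2⟩ : ∃ s : ℝ, 0 < s ∧ s ≤ 1 ∧ 2 * (s * ε) ≤ η := by
    refine ⟨min 1 (η / (2 * ε)), lt_min one_pos (by positivity), min_le_left _ _, ?_⟩
    have h1 : min 1 (η / (2 * ε)) ≤ η / (2 * ε) := min_le_right _ _
    have h2 : min 1 (η / (2 * ε)) * (2 * ε) ≤ η := by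
      rw [← le_div_iff₀ (by positivity)]
      exact h1
    linarith
  refine ⟨g + s • (f - g), s * ε / 2, by positivity, ?_⟩
  intro η' hη' hη'c h hh
  have hx1 : ∀ x, |h x - (g x + s * (f x - g x))| ≤ η' := by
    intro x
    have := ((BoundedContinuousFunction.norm_le hη'.le).1 hh) x
    simpa using this
  have hx0 : ∀ x, 0 ≤ g x + s * (f x - g x) := by
    intro x
    have h1 := hg0 x
    have h2 := hf x
    nlinarith
  have hd : ‖trunc h η' - (g + s • (f - g))‖ ≤ 2 * η' := by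
    rw [BoundedContinuousFunction.norm_le (by positivity)]
    intro x
    have h1 := abs_le.1 (hx1 x)
    have h2 := hx0 x
    have h3 : (trunc h η' - (g + s • (f - g))) x =
        max (h x - η') 0 - (g x + s * (f x - g x)) := rfl
    rw [h3, Real.norm_eq_abs, abs_le]
    constructor
    · have := le_max_left (h x - η') 0
      linarith [h1.1]
    · have h4 : max (h x - η') 0 ≤ g x + s * (f x - g x) := by
        apply max_le
        · linarith [h1.2]
        · exact h2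
      linarith
  have hgf' : ‖f - g‖ ≤ ε := by rw [norm_sub_rev]; exact hgf
  refine ⟨⟨?_, ?_, ?_⟩, ?_⟩
  · intro x
    rw [trunc_apply]
    exact le_max_right _ _
  · intro x hx
    rw [trunc_apply]
    have h1 := abs_le.1 (hx1 x)
    rw [hgT x hx, hT x hx] at h1
    apply max_eq_right
    linarith [h1.2]
  · have h1 : (g + s • (f - g)) - f = (1 - s) • (g - f) := by
      ext x
      simp
      ring
    have h2 : ‖(g + s • (f - g)) - f‖ ≤ (1 - s) * ε := by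
      rw [h1, norm_smul, Real.norm_of_nonneg (by linarith)]
      exact mul_le_mul_of_nonneg_left hgf (by linarith)
    have h3 := norm_sub_le_norm_sub_add_norm_sub (trunc h η') (g + s • (f - g)) f
    linarith
  · have h1 : (g + s • (f - g)) - g = s • (f - g) := by
      ext x
      simp
    have h2 : ‖(g + s • (f - g)) - g‖ ≤ s * ε := by
      rw [h1, norm_smul, Real.norm_of_nonneg hs0.le]
      exact mul_le_mul_of_nonneg_left hgf' hs0.le
    have h3 := norm_sub_le_norm_sub_add_norm_sub (trunc h η') (g + s • (f - g)) g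
    linarith

/-- a truncated function avoids the value `ρ` if the function avoids `ρ + η` -/
theorem avoid (h : X →ᵇ ℝ) (η ρ δ : ℝ) (hρ : 0 < ρ) (x : X) (hx : δ ≤ |h x - (ρ + η)|) :
    min δ ρ ≤ |trunc h η x - ρ| := by
  rw [trunc_apply]
  by_cases h1 : 0 ≤ h x - η
  · rw [max_eq_left h1]
    refine (min_le_left _ _).trans (hx.trans (le_of_eq ?_))
    congr 1
    ring
  · rw [max_eq_right (not_le.1 h1).le, zero_sub, abs_neg, abs_of_pos hρ]
    exact min_le_right _ _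

/-- the space of admissible sequences -/
abbrev P (f : ℕ → X →ᵇ ℝ) (T : ℕ → Set X) (ε : ℕ → ℝ) : Type u := ∀ i, K (f i) (T i) (ε i)

theorem baire_P (f : ℕ → X →ᵇ ℝ) (T : ℕ → Set X) (ε : ℕ → ℝ) : BaireSpace (P f T ε) := by
  have h1 : ∀ i, TopologicalSpace.IsCompletelyPseudoMetrizableSpace (K (f i) (T i) (ε i)) :=
    fun i => (isClosed_K _ _ _).isCompletelyPseudoMetrizableSpace
  infer_instance

theorem isOpen_cond (f : ℕ → X →ᵇ ℝ) (T : ℕ → Set X) (ε : ℕ → ℝ) {J : Type} [Finite J]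
    (q : J → ℕ) (ρ : J → ℝ) (S : Set X) :
    IsOpen {g : P f T ε | ∃ δ : ℝ, 0 < δ ∧ ∀ x ∈ S, ∃ j, δ ≤ |(g (q j)).1 x - ρ j|} := by
  rw [isOpen_iff_mem_nhds]
  rintro g0 ⟨δ, hδ, hx⟩
  have h1 : ∀ᶠ g : P f T ε in 𝓝 g0, ∀ j, ‖(g (q j)).1 - (g0 (q j)).1‖ < δ / 2 := by
    rw [Filter.eventually_all]
    intro j
    have hc : Continuous fun g : P f T ε => ‖(g (q j)).1 - (g0 (q j)).1‖ :=
      ((continuous_subtype_val.comp (continuous_apply (q j))).sub continuous_const).norm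
    refine (isOpen_lt hc continuous_const).mem_nhds ?_
    change ‖(g0 (q j)).1 - (g0 (q j)).1‖ < δ / 2
    rw [sub_self, norm_zero]
    positivity
  filter_upwards [h1] with g hg
  refine ⟨δ / 2, by positivity, fun x hxS => ?_⟩
  obtain ⟨j, hj⟩ := hx x hxS
  refine ⟨j, ?_⟩
  have h2 : |(g (q j)).1 x - (g0 (q j)).1 x| ≤ δ / 2 := by
    have := BoundedContinuousFunction.norm_coe_le_norm ((g (q j)).1 - (g0 (q j)).1) x
    rw [BoundedContinuousFunction.coe_sub, Pi.sub_apply, Real.norm_eq_abs] at this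
    exact this.trans (hg j).le
  have h3 : |(g0 (q j)).1 x - ρ j| ≤ |(g (q j)).1 x - ρ j| + |(g (q j)).1 x - (g0 (q j)).1 x| := by
    have h4 := abs_sub_abs_le_abs_sub ((g0 (q j)).1 x - ρ j) ((g (q j)).1 x - ρ j)
    have h5 : (g0 (q j)).1 x - ρ j - ((g (q j)).1 x - ρ j) =
      -((g (q j)).1 x - (g0 (q j)).1 x) := by ring
    rw [h5, abs_neg] at h4
    linarith
  linarith

theorem dense_of_approx (f : ℕ → X →ᵇ ℝ) (T : ℕ → Set X) (ε : ℕ → ℝ) (U : Set (P f T ε))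
    (hU : ∀ (g : P f T ε) (η : ℝ), 0 < η → ∃ g' ∈ U, ∀ i, ‖(g' i).1 - (g i).1‖ ≤ η) :
    Dense U := by
  intro g
  have h1 : ∀ n : ℕ, ∃ g' ∈ U, ∀ i, ‖(g' i).1 - (g i).1‖ ≤ 1 / ((n : ℝ) + 1) :=
    fun n => hU g _ (by positivity)
  choose g' hg' hn using h1
  refine mem_closure_of_tendsto (f := g') (b := Filter.atTop) ?_ (Filter.Eventually.of_forall hg')
  rw [tendsto_pi_nhds]
  intro i
  rw [tendsto_subtype_rng, tendsto_iff_norm_sub_tendsto_zero]
  exact squeeze_zero (fun n => norm_nonneg _) (fun n => hn n i)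
    tendsto_one_div_add_atTop_nhds_zero_nat

end GEN

open GEN in
theorem t_GEN : M_GEN.{u} := by
  intro hGP X _ _ n hdim f T ε D hε hf hT _ hDc hD
  have hbaire : BaireSpace (P f T ε) := baire_P f T ε
  have hne : Nonempty (P f T ε) := ⟨fun i => ⟨f i, hf i, hT i, by
    rw [sub_self, norm_zero]; exact (hε i).le⟩⟩
  let ι := ({q : Fin n → ℕ // Function.Injective q} × {ρ : Fin n → ℚ // ∀ j, 0 < ρ j}) ⊕
    (ℕ × {ρ : ℚ // 0 < ρ})
  let W : ι → Set (P f T ε) := Sum.elim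
    (fun a => {g | ∃ δ : ℝ, 0 < δ ∧ ∀ x ∈ (univ : Set X), ∃ j,
      δ ≤ |(g (a.1.1 j)).1 x - ((a.2.1 j : ℚ) : ℝ)|})
    (fun a => {g | ∃ δ : ℝ, 0 < δ ∧ ∀ x ∈ D a.1, ∃ _ : Fin 1,
      δ ≤ |(g 0).1 x - ((a.2.1 : ℚ) : ℝ)|})
  have hWo : ∀ i, IsOpen (W i) := by
    rintro (a | a)
    · exact isOpen_cond f T ε a.1.1 (fun j => ((a.2.1 j : ℚ) : ℝ)) univ
    · exact isOpen_cond f T ε (fun _ : Fin 1 => 0) (fun _ => ((a.2.1 : ℚ) : ℝ)) (D a.1)
  have hWd : ∀ i, Dense (W i) := by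
    rintro (⟨⟨q, hq⟩, ⟨ρ, hρ⟩⟩ | ⟨k, ⟨ρ, hρ⟩⟩)
    · apply dense_of_approx
      intro g η hη
      have h1 : ∀ j, ∃ (g1 : X →ᵇ ℝ) (c : ℝ), 0 < c ∧ ∀ η', 0 < η' → η' ≤ c →
          ∀ h : X →ᵇ ℝ, ‖h - g1‖ ≤ η' → trunc h η' ∈ K (f (q j)) (T (q j)) (ε (q j)) ∧
            ‖trunc h η' - (g (q j)).1‖ ≤ η :=
        fun j => move (hε (q j)) (hf (q j)) (hT (q j)) (g (q j)).2 hη
      choose g1 c hc hm using h1
      obtain ⟨η', hη', hη'c⟩ := exists_pos_le c hc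
      obtain ⟨h, hh, δ, hδ, hx⟩ := hGP X n hdim g1 (fun j => (ρ j : ℝ) + η') η' hη'
      have h2 : ∀ i, ∃ k : K (f i) (T i) (ε i), ‖k.1 - (g i).1‖ ≤ η ∧
          ∀ j, q j = i → k.1 = trunc (h j) η' := by
        intro i
        by_cases hi : ∃ j, q j = i
        · obtain ⟨j, rfl⟩ := hi
          have h3 := hm j η' hη' (hη'c j) (h j) (hh j)
          refine ⟨⟨trunc (h j) η', h3.1⟩, h3.2, ?_⟩
          intro j' hj'
          rw [hq hj']
        · refine ⟨g i, ?_, fun j hj => absurd ⟨j, hj⟩ hi⟩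
          rw [sub_self, norm_zero]
          exact hη.le
      choose g' hg' hg'2 using h2
      refine ⟨g', ?_, hg'⟩
      obtain ⟨r, hr, hrρ⟩ := exists_pos_le (fun j => ((ρ j : ℚ) : ℝ))
        (fun j => by exact_mod_cast hρ j)
      refine ⟨min δ r, lt_min hδ hr, fun x _ => ?_⟩
      obtain ⟨j, hj⟩ := hx x
      refine ⟨j, ?_⟩
      change min δ r ≤ |(g' (q j)).1 x - (ρ j : ℝ)|
      rw [hg'2 (q j) j rfl]
      exact (min_le_min_left δ (hrρ j)).trans
        (avoid (h j) η' (ρ j) δ (by exact_mod_cast hρ j) x hj)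
    · apply dense_of_approx
      intro g η hη
      obtain ⟨g1, c, hc, hm⟩ := move (hε 0) (hf 0) (hT 0) (g 0).2 hη
      have hN : NormalSpace (D k) := (hDc k).isClosedEmbedding_subtypeVal.normalSpace
      obtain ⟨h', hh', δ, hδ, hx⟩ := hGP (D k) 1 (hD k) (fun _ => g1.domRestrict (D k))
        (fun _ => (ρ : ℝ) + c) c hc
      obtain ⟨d, hd1, hd2⟩ :=
        BoundedContinuousFunction.exists_norm_eq_domRestrict_eq_of_closed
          (h' 0 - g1.domRestrict (D k)) (hDc k)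
      have h3 := hm c hc le_rfl (g1 + d) (by
        rw [add_sub_cancel_left, hd1]
        exact hh' 0)
      have h2 : ∀ i, ∃ k : K (f i) (T i) (ε i), ‖k.1 - (g i).1‖ ≤ η ∧
          (0 = i → k.1 = trunc (g1 + d) c) := by
        intro i
        by_cases hi : 0 = i
        · subst hi
          exact ⟨⟨trunc (g1 + d) c, h3.1⟩, h3.2, fun _ => rfl⟩
        · refine ⟨g i, ?_, fun h => absurd h hi⟩
          rw [sub_self, norm_zero]
          exact hη.le
      choose g' hg' hg'2 using h2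
      refine ⟨g', ?_, hg'⟩
      have hρ' : (0 : ℝ) < ρ := by exact_mod_cast hρ
      refine ⟨min δ ρ, lt_min hδ hρ', fun x hxD => ?_⟩
      obtain ⟨j, hj⟩ := hx ⟨x, hxD⟩
      refine ⟨0, ?_⟩
      change min δ (ρ : ℝ) ≤ |(g' 0).1 x - (ρ : ℝ)|
      rw [hg'2 0 rfl]
      apply avoid (g1 + d) c ρ δ hρ' x
      have hj0 : j = 0 := Subsingleton.elim _ _
      rw [hj0] at hj
      have h5 : d x = h' 0 ⟨x, hxD⟩ - g1 x := by
        have := DFunLike.congr_fun hd2 (⟨x, hxD⟩ : D k)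
        exact this
      have h6 : (g1 + d) x = h' 0 ⟨x, hxD⟩ := by
        rw [BoundedContinuousFunction.coe_add, Pi.add_apply, h5]
        ring
      rw [h6]
      exact hj
  obtain ⟨g, hg⟩ := (dense_iInter_of_isOpen hWo hWd).nonempty
  rw [mem_iInter] at hg
  refine ⟨fun i => (g i).1, ?_, ?_, ?_⟩
  · intro i
    exact (g i).2
  · intro q hq ρ hρ
    obtain ⟨δ, hδ, hx⟩ := hg (Sum.inl (⟨q, hq⟩, ⟨ρ, hρ⟩))
    exact ⟨δ, hδ, fun x => hx x (mem_univ x)⟩
  · intro k ρ hρ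
    obtain ⟨δ, hδ, hx⟩ := hg (Sum.inr (k, ⟨ρ, hρ⟩))
    refine ⟨δ, hδ, fun x hxD => ?_⟩
    obtain ⟨_, hj⟩ := hx x hxD
    exact hj

end NMD
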