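import Pool.Agent.NMD.Base

/-!
# General position of functions on a space of small covering dimension
-/

namespace NMD

open Set Topology Metric BoundedContinuousFunction

universe u

namespace GP

/-- the sparse points of the standard simplex -/
theorem isClosed_sparse (m n : ℕ) :
    IsClosed {t : Fin m → ℝ | (Finset.univ.filter fun i => t i ≠ 0).card ≤ n} := by
  classical
  have h : {t : Fin m → ℝ | (Finset.univ.filter fun i => t i ≠ 0).card ≤ n} =
      ⋃ s ∈ {s : Finset (Fin m) | s.card ≤ n}, {t : Fin m → ℝ | ∀ i, i ∉ s → t i = 0} := by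
    ext t
    rw [mem_iUnion₂]
    constructor
    · intro ht
      refine ⟨Finset.univ.filter fun i => t i ≠ 0, ht, fun i hi => ?_⟩
      by_contra h0
      exact hi (Finset.mem_filter.2 ⟨Finset.mem_univ _, h0⟩)
    · rintro ⟨s, hs, ht⟩
      have hs' : s.card ≤ n := hs
      have ht' : ∀ i, i ∉ s → t i = 0 := ht
      refine le_trans (Finset.card_le_card fun i hi => ?_) hs'
      by_contra h0
      exact (Finset.mem_filter.1 hi).2 (ht' i h0)
  rw [h]
  refine Set.Finite.isClosed_biUnion (Set.toFinite _) fun s _ => ?_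
  have h2 : {t : Fin m → ℝ | ∀ i, i ∉ s → t i = 0} = ⋂ i ∈ {i | i ∉ s}, {t | t i = 0} := by
    ext t
    simp
  rw [h2]
  exact isClosed_biInter fun i _ => isClosed_eq (continuous_apply i) continuous_const

/-- a positive lower bound on the sparse points -/
theorem exists_lower {m n : ℕ} (z : Fin m → Fin n → ℝ)
    (hz : ∀ t : Fin m → ℝ, (Finset.univ.filter fun i => t i ≠ 0).card ≤ n →
      ∑ i, t i • z i = 0 → t = 0) :
    ∃ δ : ℝ, 0 < δ ∧ ∀ t : Fin m → ℝ, (∀ i, 0 ≤ t i) → ∑ i, t i = 1 →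
      (Finset.univ.filter fun i => t i ≠ 0).card ≤ n → δ ≤ ‖∑ i, t i • z i‖ := by
  obtain ⟨K, hKdef⟩ : ∃ K, K = stdSimplex ℝ (Fin m) ∩
      {t : Fin m → ℝ | (Finset.univ.filter fun i => t i ≠ 0).card ≤ n} := ⟨_, rfl⟩
  have hK : IsCompact K := by
    rw [hKdef]
    exact (isCompact_stdSimplex ℝ (Fin m)).inter_right (isClosed_sparse m n)
  rcases K.eq_empty_or_nonempty with hE | hne
  · refine ⟨1, one_pos, fun t h0 h1 h2 => ?_⟩
    have h3 : t ∈ K := by
      rw [hKdef]
      exact ⟨⟨h0, h1⟩, h2⟩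
    rw [hE] at h3
    exact h3.elim
  · have hc : Continuous fun t : Fin m → ℝ => ‖∑ i, t i • z i‖ := by fun_prop
    obtain ⟨p, hp, hmin⟩ := hK.exists_isMinOn hne hc.continuousOn
    refine ⟨‖∑ i, p i • z i‖, ?_, fun t h0 h1 h2 => ?_⟩
    · rw [norm_pos_iff]
      intro h0
      rw [hKdef] at hp
      have h1 := hz p hp.2 h0
      have h2 := hp.1.2
      rw [h1] at h2
      simp at h2
    · have h3 : t ∈ K := by
        rw [hKdef]
        exact ⟨⟨h0, h1⟩, h2⟩
      exact hmin h3

end GP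

theorem t_GP : M_GP.{u} := by
  intro hGPV X _ _ n hdim g r ε hε
  classical
  -- the map into `ℝⁿ`
  obtain ⟨G, hG⟩ : ∃ G : X → Fin n → ℝ, ∀ x j, G x j = g j x - r j := ⟨_, fun _ _ => rfl⟩
  have hGc : Continuous G := by
    refine continuous_pi fun j => ?_
    have : (fun x => G x j) = fun x => g j x - r j := funext fun x => hG x j
    rw [this]
    exact (g j).continuous.sub continuous_const
  obtain ⟨R, hR⟩ : ∃ R : ℝ, ∀ x, ‖G x‖ ≤ R := by
    obtain ⟨S, hS⟩ : ∃ S : ℝ, S = ∑ j, (‖g j‖ + |r j|) := ⟨_, rfl⟩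
    refine ⟨S, fun x => ?_⟩
    have hS0 : 0 ≤ S := by
      rw [hS]
      exact Finset.sum_nonneg fun j _ => add_nonneg (norm_nonneg _) (abs_nonneg _)
    rw [pi_norm_le_iff_of_nonneg hS0]
    intro j
    rw [hG, Real.norm_eq_abs]
    have h1 : |g j x - r j| ≤ ‖g j‖ + |r j| :=
      (abs_sub _ _).trans (add_le_add ((g j).norm_coe_le_norm x) le_rfl)
    refine h1.trans ?_
    rw [hS]
    exact Finset.single_le_sum (f := fun j => ‖g j‖ + |r j|)
      (fun j _ => add_nonneg (norm_nonneg _) (abs_nonneg _)) (Finset.mem_univ j)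
  -- finitely many balls
  obtain ⟨T, hTf, hT⟩ : ∃ T : Set (Fin n → ℝ), T.Finite ∧
      closedBall (0 : Fin n → ℝ) R ⊆ ⋃ y ∈ T, ball y (ε / 4) := by
    obtain ⟨T, _, h1, h2⟩ := (isCompact_closedBall (0 : Fin n → ℝ) R).finite_cover_balls
      (show (0 : ℝ) < ε / 4 by positivity)
    exact ⟨T, h1, h2⟩
  obtain ⟨m, y, hy⟩ : ∃ (m : ℕ) (y : Fin m → Fin n → ℝ), range y = T := by
    obtain ⟨m, y, hy⟩ := hTf.fin_param
    exact ⟨m, y, hy.2⟩
  obtain ⟨z, hz1, hz2⟩ := hGPV n m y (ε / 4) (by positivity)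
  obtain ⟨V, hVo, hVU, hVc, hVn⟩ := hdim.shrink (fun i : Fin m => G ⁻¹' ball (y i) (ε / 4))
    (fun i => isOpen_ball.preimage hGc) (by
      rw [eq_univ_iff_forall]
      intro x
      have h1 : G x ∈ closedBall (0 : Fin n → ℝ) R := by
        rw [mem_closedBall_zero_iff]
        exact hR x
      obtain ⟨w, hw, hxw⟩ := mem_iUnion₂.1 (hT h1)
      rw [← hy] at hw
      obtain ⟨i, rfl⟩ := hw
      exact mem_iUnion.2 ⟨i, hxw⟩)
  obtain ⟨p, hp⟩ := PartitionOfUnity.exists_isSubordinate_of_locallyFinite isClosed_univ V hVo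
    (locallyFinite_of_finite V) hVc.ge
  have hp0 : ∀ i x, 0 ≤ p i x := fun i x => p.nonneg i x
  have hp1 : ∀ x, ∑ i, p i x = 1 := fun x => by
    have := p.sum_eq_one (mem_univ x)
    rwa [finsum_eq_sum_of_fintype] at this
  have hple : ∀ i x, p i x ≤ 1 := fun i x => p.le_one i x
  have hpV : ∀ i x, p i x ≠ 0 → x ∈ V i := fun i x h => hp i (subset_tsupport _ h)
  obtain ⟨δ, hδ, hδ2⟩ := GP.exists_lower z hz2
  -- the new functions
  have hcont : ∀ j : Fin n, Continuous fun x => r j + ∑ i, p i x * z i j := fun j =>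
    continuous_const.add (continuous_finsetSum _ fun i _ =>
      (p i).continuous.mul continuous_const)
  have hbd : ∀ (j : Fin n) (x : X), ‖r j + ∑ i, p i x * z i j‖ ≤ |r j| + ∑ i, |z i j| := by
    intro j x
    rw [Real.norm_eq_abs]
    refine (abs_add_le _ _).trans (add_le_add le_rfl ?_)
    refine (Finset.abs_sum_le_sum_abs _ _).trans (Finset.sum_le_sum fun i _ => ?_)
    rw [abs_mul, abs_of_nonneg (hp0 i x)]
    exact mul_le_of_le_one_left (abs_nonneg _) (hple i x)
  refine ⟨fun j => BoundedContinuousFunction.ofNormedAddCommGroup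
    (fun x => r j + ∑ i, p i x * z i j) (hcont j) _ (hbd j), fun j => ?_, δ, hδ, fun x => ?_⟩
  · rw [BoundedContinuousFunction.norm_le hε.le]
    intro x
    have h0 : (BoundedContinuousFunction.ofNormedAddCommGroup
        (fun x => r j + ∑ i, p i x * z i j) (hcont j) _ (hbd j) - g j) x =
        r j + ∑ i, p i x * z i j - g j x := rfl
    have h1 : r j + ∑ i, p i x * z i j - g j x = ∑ i, p i x * (z i j - G x j) := by
      have h2 : ∑ i, p i x * (z i j - G x j) = ∑ i, p i x * z i j - G x j := by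
        rw [Finset.sum_congr rfl fun i _ => mul_sub _ _ _, Finset.sum_sub_distrib,
          ← Finset.sum_mul, hp1, one_mul]
      rw [h2, hG]
      ring
    rw [h0, h1, Real.norm_eq_abs]
    have h3 : ∑ i, p i x * ε = ε := by rw [← Finset.sum_mul, hp1, one_mul]
    rw [← h3]
    refine (Finset.abs_sum_le_sum_abs _ _).trans (Finset.sum_le_sum fun i _ => ?_)
    rw [abs_mul, abs_of_nonneg (hp0 i x)]
    by_cases h4 : p i x = 0
    · rw [h4, zero_mul, zero_mul]
    · refine mul_le_mul_of_nonneg_left ?_ (hp0 i x)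
      have h5 : G x ∈ ball (y i) (ε / 4) := hVU i (hpV i x h4)
      rw [mem_ball, dist_eq_norm] at h5
      have h6 : |(G x - y i) j| < ε / 4 := (norm_le_pi_norm (G x - y i) j).trans_lt h5
      have h7 : |(z i - y i) j| ≤ ε / 4 := (norm_le_pi_norm (z i - y i) j).trans (hz1 i)
      rw [Pi.sub_apply] at h6 h7
      rw [abs_lt] at h6
      rw [abs_le] at h7 ⊢
      constructor
      · linarith [h6.1, h6.2, h7.1, h7.2]
      · linarith [h6.1, h6.2, h7.1, h7.2]
  · have h1 : (Finset.univ.filter fun i => (fun i => p i x) i ≠ 0).card ≤ n := by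
      refine le_trans ?_ (hVn x)
      rw [← Set.ncard_coe_finset]
      refine Set.ncard_le_ncard (fun i hi => ?_) (Set.toFinite _)
      rw [Finset.coe_filter] at hi
      exact hpV i x hi.2
    have h2 := hδ2 (fun i => p i x) (fun i => hp0 i x) (hp1 x) h1
    by_contra hne
    push Not at hne
    have h3 : ‖∑ i, (fun i => p i x) i • z i‖ < δ := by
      rw [pi_norm_lt_iff hδ]
      intro j
      have h4 : (∑ i, (fun i => p i x) i • z i) j = ∑ i, p i x * z i j := by
        rw [Finset.sum_apply]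
        rfl
      have h5 := hne j
      have h6 : (BoundedContinuousFunction.ofNormedAddCommGroup
        (fun x => r j + ∑ i, p i x * z i j) (hcont j) _ (hbd j)) x =
        r j + ∑ i, p i x * z i j := rfl
      rw [h6, add_sub_cancel_left] at h5
      rw [h4, Real.norm_eq_abs]
      exact h5
    exact absurd h2 (not_le.2 h3)

end NMD
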