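import Pool.Agent.NMD.Stmts

/-!
# General position of finitely many vectors
-/

namespace NMD

open Set Topology

namespace GPV

/-- A point near `y` outside finitely many proper subspaces. -/
theorem exists_near {n : ℕ} {ι : Type} (S : Finset ι) (p : ι → Submodule ℝ (Fin n → ℝ))
    (hp : ∀ i ∈ S, p i ≠ ⊤) (y : Fin n → ℝ) {ε : ℝ} (hε : 0 < ε) :
    ∃ z : Fin n → ℝ, ‖z - y‖ ≤ ε ∧ ∀ i ∈ S, z ∉ p i := by
  by_contra hc
  push Not at hc
  have h1 : Metric.ball y ε ⊆ ⋃ i ∈ S, (p i : Set (Fin n → ℝ)) := by
    intro z hz
    rw [Metric.mem_ball, dist_eq_norm] at hz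
    obtain ⟨i, hi, hzi⟩ := hc z hz.le
    exact Set.mem_biUnion hi hzi
  have h2 : MeasureTheory.volume (⋃ i ∈ S, (p i : Set (Fin n → ℝ))) = 0 :=
    (MeasureTheory.measure_biUnion_null_iff S.countable_toSet).2 fun i hi =>
      MeasureTheory.Measure.addHaar_submodule _ _ (hp i hi)
  have h3 : MeasureTheory.volume (Metric.ball y ε) = 0 := MeasureTheory.measure_mono_null h1 h2
  exact absurd h3 (Metric.measure_ball_pos MeasureTheory.volume y hε).ne'

theorem card_snoc {m : ℕ} (t : Fin (m + 1) → ℝ) :
    (Finset.univ.filter fun i => t i ≠ 0).card =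
      (Finset.univ.filter fun i : Fin m => t i.castSucc ≠ 0).card +
        if t (Fin.last m) ≠ 0 then 1 else 0 := by
  rw [Finset.card_filter, Finset.card_filter, Fin.sum_univ_castSucc]

theorem main {n : ℕ} : ∀ (m : ℕ) (y : Fin m → Fin n → ℝ) (ε : ℝ), 0 < ε →
    ∃ z : Fin m → Fin n → ℝ,
    (∀ i, ‖z i - y i‖ ≤ ε) ∧ ∀ t : Fin m → ℝ, (Finset.univ.filter fun i => t i ≠ 0).card ≤ n →
      ∑ i, t i • z i = 0 → t = 0 := by
  intro m
  induction m with
  | zero =>
    intro y ε _
    exact ⟨y, fun i => i.elim0, fun t _ _ => funext fun i => i.elim0⟩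
  | succ m ih =>
    intro y ε hε
    obtain ⟨z, hz, hli⟩ := ih (fun i => y i.castSucc) ε hε
    obtain ⟨w, hw, hw'⟩ := exists_near
      ((Finset.univ : Finset (Finset (Fin m))).filter fun s => s.card < n)
      (fun s => Submodule.span ℝ ((s.image z : Finset (Fin n → ℝ)) : Set (Fin n → ℝ)))
      (by
        intro s hs htop
        rw [Finset.mem_filter] at hs
        have h1 := finrank_span_finset_le_card (R := ℝ) (s.image z)
        have h2 : Module.finrank ℝ (⊤ : Submodule ℝ (Fin n → ℝ)) = n := by
          rw [finrank_top, Module.finrank_fin_fun]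
        have h3 : Set.finrank ℝ ((s.image z : Finset (Fin n → ℝ)) : Set (Fin n → ℝ)) = n := by
          unfold Set.finrank
          rw [htop]
          exact h2
        have h4 : (s.image z).card ≤ s.card := Finset.card_image_le
        omega)
      (y (Fin.last m)) hε
    refine ⟨Fin.snoc z w, ?_, ?_⟩
    · intro i
      refine Fin.lastCases ?_ (fun j => ?_) i
      · rw [Fin.snoc_last]
        exact hw
      · rw [Fin.snoc_castSucc]
        exact hz j
    · intro t ht hsum
      rw [Fin.sum_univ_castSucc] at hsum
      simp only [Fin.snoc_castSucc, Fin.snoc_last] at hsum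
      rw [card_snoc] at ht
      by_cases hl : t (Fin.last m) = 0
      · rw [hl, zero_smul, add_zero] at hsum
        have h1 := hli (fun i => t i.castSucc) (by
          refine le_trans ?_ ht
          exact Nat.le_add_right _ _) hsum
        funext i
        refine Fin.lastCases ?_ (fun j => ?_) i
        · exact hl
        · exact congrFun h1 j
      · exfalso
        rw [if_pos hl] at ht
        let s : Finset (Fin m) := Finset.univ.filter fun i : Fin m => t i.castSucc ≠ 0
        have hs : s.card < n := ht
        apply hw' s (Finset.mem_filter.2 ⟨Finset.mem_univ _, hs⟩)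
        have h2 : w = ∑ i ∈ s, (-(t (Fin.last m))⁻¹ * t i.castSucc) • z i := by
          have h3 : ∑ i ∈ s, (-(t (Fin.last m))⁻¹ * t i.castSucc) • z i =
              ∑ i, (-(t (Fin.last m))⁻¹ * t i.castSucc) • z i := by
            apply Finset.sum_subset (Finset.subset_univ _)
            intro i _ hi
            have : t i.castSucc = 0 := by
              by_contra h
              exact hi (Finset.mem_filter.2 ⟨Finset.mem_univ _, h⟩)
            rw [this, mul_zero, zero_smul]
          rw [h3]
          have h4 : ∑ i, (-(t (Fin.last m))⁻¹ * t i.castSucc) • z i =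
              (-(t (Fin.last m))⁻¹) • ∑ i : Fin m, t i.castSucc • z i := by
            rw [Finset.smul_sum]
            exact Finset.sum_congr rfl fun i _ => by rw [smul_smul]
          rw [h4]
          have h5 : ∑ i : Fin m, t i.castSucc • z i = -(t (Fin.last m) • w) :=
            eq_neg_of_add_eq_zero_left hsum
          rw [h5, neg_smul, smul_neg, neg_neg, smul_smul, inv_mul_cancel₀ hl, one_smul]
        rw [h2]
        apply Submodule.sum_mem
        intro i hi
        apply Submodule.smul_mem
        apply Submodule.subset_span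
        exact Finset.mem_coe.2 (Finset.mem_image_of_mem z hi)

end GPV

theorem t_GPV : S_GPV := fun _ m y ε hε => GPV.main m y ε hε

end NMD
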