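import Pool.Agent.NMD.Stmts3

set_option autoImplicit false

namespace NMD

open Set Topology

universe u

namespace MAIN3

theorem exists_le_of_dimVal {P Q : ℕ → Prop} (h : dimVal P = dimVal Q) {n : ℕ} (hn : Q n) :
    ∃ k ≤ n, P k := by
  classical
  have hQ : ∃ n, Q n := ⟨n, hn⟩
  by_cases hP : ∃ n, P n
  · refine ⟨Nat.find hP, ?_, Nat.find_spec hP⟩
    unfold dimVal at h
    rw [dif_pos hP, dif_pos hQ] at h
    have h1 : ((Nat.find hP : ℤ) - 1) = ((Nat.find hQ : ℤ) - 1) := WithTop.coe_injective h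
    have h2 : Nat.find hQ ≤ n := Nat.find_min' hQ hn
    have h3 : Nat.find hP = Nat.find hQ := by
      have : (Nat.find hP : ℤ) = (Nat.find hQ : ℤ) := by linarith
      exact_mod_cast this
    rw [h3]
    exact h2
  · exfalso
    unfold dimVal at h
    rw [dif_neg hP, dif_pos hQ] at h
    exact WithTop.coe_ne_top h.symm

theorem indLT_succ (n : ℕ) : ∀ (X : Type u) [TopologicalSpace X], IndLT n X → IndLT (n + 1) X := by
  induction n with
  | zero =>
    intro X _ h A U _ _ _
    have hX : IsEmpty X := h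
    refine ⟨∅, isOpen_empty, fun x _ => (hX.false x).elim, ?_, ?_⟩
    · rw [closure_empty]
      exact empty_subset _
    · show IsEmpty _
      exact ⟨fun x => hX.false x.1⟩
  | succ n ih =>
    intro X _ h A U hA hU hAU
    obtain ⟨V, hV, h1, h2, h3⟩ := h A U hA hU hAU
    exact ⟨V, hV, h1, h2, ih _ h3⟩

theorem indLT_mono {n m : ℕ} (hnm : n ≤ m) (X : Type u) [TopologicalSpace X] (h : IndLT n X) :
    IndLT m X := by
  induction hnm with
  | refl => exact h
  | step _ ih => exact indLT_succ _ X ih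

theorem developable_of_inducing {X Y : Type u} [TopologicalSpace X] [TopologicalSpace Y]
    (hX : Developable X) {f : Y → X} (hf : IsInducing f) : Developable Y := by
  obtain ⟨G, hG, hd⟩ := hX
  refine ⟨fun n => (fun U => f ⁻¹' U) '' G n, ?_, ?_⟩
  · intro n
    refine ⟨?_, ?_⟩
    · rintro _ ⟨U, hU, rfl⟩
      exact ((hG n).1 U hU).preimage hf.continuous
    · rw [eq_univ_iff_forall]
      intro y
      have h1 : f y ∈ ⋃₀ G n := by rw [(hG n).2]; trivial
      obtain ⟨U, hU, hy⟩ := h1
      exact ⟨f ⁻¹' U, ⟨U, hU, rfl⟩, hy⟩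
  · intro y U hU hy
    obtain ⟨U', hU', rfl⟩ := hf.isOpen_iff.1 hU
    obtain ⟨n, hn⟩ := hd (f y) U' hU' hy
    refine ⟨n, ?_⟩
    rintro z ⟨_, ⟨⟨W, hW, rfl⟩, hyW⟩, hz⟩
    exact hn ⟨W, ⟨hW, hyW⟩, hz⟩

theorem moore_of_inducing {X Y : Type u} [TopologicalSpace X] [TopologicalSpace Y]
    (hX : IsMoore X) {f : Y → X} (hf : IsInducing f) : IsMoore Y := by
  have := hX.1
  exact ⟨hf.regularSpace, developable_of_inducing hX.2 hf⟩

theorem sumT (hCE1 : S_CE1.{u}) (hCE2 : S_CE2.{u}) (X : Type u) [TopologicalSpace X]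
    [PerfectlyNormalSpace X] (n : ℕ) : SumT X n := by
  induction n with
  | zero =>
    intro S F _ h2 h3
    have h4 : ∀ k, F k = ∅ := h3
    show S = ∅
    rw [← h2]
    exact iUnion_eq_empty.2 h4
  | succ n ih => exact hCE2 X n ih (hCE1 X n ih)

end MAIN3

open MAIN3 in
theorem t_MAIN3 : M_MAIN3.{u} := by
  intro hPN hBR hDI hCE1 hCE2 hBR2 hLIND hDCE hGCE hM2 X _ _ hX C hC hcov hloc
  have hXp : PerfectlyNormalSpace X := hPN X hX.2
  have key : ∀ n, DimLT X n → IndLT n X := by
    intro n hn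
    have h1 : ∀ k, RInd n (C k) := by
      intro k
      have hemb : IsClosedEmbedding (Subtype.val : C k → X) := (hC k).isClosedEmbedding_subtypeVal
      have : NormalSpace (C k) := hemb.normalSpace
      have hmk : IsMoore (C k) := moore_of_inducing hX hemb.isInducing
      have : PerfectlyNormalSpace (C k) := hPN (C k) hmk.2
      refine hBR2 X n (C k) (hBR (C k) n (hLIND (C k) hmk.2 n (sumT hCE1 hCE2 (C k) n) ?_))
      intro x
      obtain ⟨O, hO, hx, hgood⟩ := hloc k x
      refine ⟨O, hO, hx, ?_⟩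
      intro C' hC' hsub
      have hemb' : IsClosedEmbedding (Subtype.val : C' → C k) := hC'.isClosedEmbedding_subtypeVal
      have hemb2 : IsClosedEmbedding (inclusion hsub) :=
        IsClosedEmbedding.inclusion hsub (hC'.preimage continuous_subtype_val)
      have hgood' : Good C' := hGCE C' O (inclusion hsub) hemb2 hgood
      have hnorm : NormalSpace C' := hemb'.normalSpace
      have hm' : IsMoore C' := moore_of_inducing hmk hemb'.isInducing
      have hdim : DimLT C' n := hDCE C' X (Subtype.val ∘ Subtype.val) (hemb.comp hemb') n hn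
      obtain ⟨Y, E, D, hY, hE, hD, hcov'⟩ := hgood'
      have heq : Ind C' = covDim C' := hM2 C' hm' Y E D hY hE hD hcov'
      obtain ⟨j, hj, hj'⟩ := exists_le_of_dimVal heq hdim
      exact hBR2 (C k) n C' (indLT_mono hj C' hj')
    have h2 : RInd n (univ : Set X) :=
      sumT hCE1 hCE2 X n univ C (fun k => ⟨C k, hC k, (inter_univ _).symm⟩) hcov h1
    exact hBR X n h2
  have h3 : (fun n => IndLT n X) = fun n => DimLT X n := by
    funext n
    exact propext ⟨hDI X n, key n⟩
  unfold Ind covDim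
  rw [h3]

end NMD
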