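import Pool.Agent.NMD.Stmts

/-!
# Urysohn - Menger
-/

namespace NMD

open Set Topology

universe u

namespace UM

variable {X : Type u} [TopologicalSpace X]

/-- separated sets have disjoint open neighbourhoods -/
theorem sep [CompletelyNormalSpace X] (P Q : Set X) (h1 : closure P ∩ Q = ∅)
    (h2 : P ∩ closure Q = ∅) :
    ∃ G H : Set X, IsOpen G ∧ IsOpen H ∧ P ⊆ G ∧ Q ⊆ H ∧ G ∩ H = ∅ := by
  have h := CompletelyNormalSpace.completely_normal (disjoint_iff_inter_eq_empty.2 h1)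
    (disjoint_iff_inter_eq_empty.2 h2)
  have h' : SeparatedNhds P Q := separatedNhds_iff_disjoint.2 h
  obtain ⟨G, H, hG, hH, hPG, hQH, hd⟩ := h'
  exact ⟨G, H, hG, hH, hPG, hQH, disjoint_iff_inter_eq_empty.1 hd⟩

/-- closed subspaces of zero-dimensional sets -/
theorem zd_inter {Z C : Set X} (hZ : ZD Z) (hC : IsClosed C) : ZD (Z ∩ C) := by
  intro A B hA hB hAB
  obtain ⟨G, H, hG, hH, h1, h2, h3, h4⟩ := hZ (A ∩ C) B (hA.inter hC) hB (by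
    rw [eq_empty_iff_forall_notMem] at hAB ⊢
    rintro x ⟨⟨⟨h1, h2⟩, h3⟩, h4⟩
    exact hAB x ⟨⟨h1, h3⟩, h4, h2⟩)
  refine ⟨G, H, hG, hH, ?_, ?_, ?_, ?_⟩
  · rintro x ⟨hx1, hx2, hx3⟩
    exact h1 ⟨⟨hx1, hx3⟩, hx2⟩
  · rintro x ⟨hx1, hx2, hx3⟩
    exact h2 ⟨hx1, hx2⟩
  · rintro x ⟨hx1, hx2⟩
    exact h3 hx1
  · rw [eq_empty_iff_forall_notMem] at h4 ⊢
    rintro x ⟨hx1, hx2, hx3⟩
    exact h4 x ⟨hx1, hx2⟩

/-- shrinking -/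
theorem shr [CompletelyNormalSpace X] {S A U : Set X} (hA : IsClosed A) (hU : IsOpen U)
    (h : A ∩ S ⊆ U) : ∃ V, IsOpen V ∧ A ∩ S ⊆ V ∧ closure V ∩ S ⊆ U := by
  have hcl : closure (A ∩ S) ⊆ A := hA.closure_subset_iff.2 inter_subset_left
  obtain ⟨G, H, hG, hH, h1, h2, h3⟩ := sep (A ∩ S) (S \ U) (by
      rw [eq_empty_iff_forall_notMem]
      rintro x ⟨hx1, hx2, hx3⟩
      exact hx3 (h ⟨hcl hx1, hx2⟩)) (by
      rw [eq_empty_iff_forall_notMem]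
      rintro x ⟨hx1, hx2⟩
      obtain ⟨y, hy1, hy2, hy3⟩ := mem_closure_iff.1 hx2 U hU (h hx1)
      exact hy3 hy1)
  refine ⟨G, hG, h1, ?_⟩
  rintro x ⟨hx1, hx2⟩
  by_contra hx3
  obtain ⟨y, hy1, hy2⟩ := mem_closure_iff.1 hx1 H hH (h2 ⟨hx2, hx3⟩)
  have : y ∈ G ∩ H := ⟨hy2, hy1⟩
  rw [h3] at this
  exact this

/-- the main step -/
theorem step [CompletelyNormalSpace X] {S Z A B : Set X} (hZS : Z ⊆ S) (hZ : ZD Z)
    (hA : IsClosed A) (hB : IsClosed B) (hAB : A ∩ B ∩ S = ∅) :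
    ∃ G H : Set X, IsOpen G ∧ IsOpen H ∧ A ∩ S ⊆ G ∧ B ∩ S ⊆ H ∧ G ∩ H = ∅ ∧ Z ⊆ G ∪ H := by
  rw [eq_empty_iff_forall_notMem] at hAB
  have hclA : closure (A ∩ S) ⊆ A := hA.closure_subset_iff.2 inter_subset_left
  have hclB : closure (B ∩ S) ⊆ B := hB.closure_subset_iff.2 inter_subset_left
  obtain ⟨U, V, hU, hV, hAU, hBV, hUV⟩ := sep (A ∩ S) (B ∩ S) (by
      rw [eq_empty_iff_forall_notMem]
      rintro x ⟨hx1, hx2, hx3⟩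
      exact hAB x ⟨⟨hclA hx1, hx2⟩, hx3⟩) (by
      rw [eq_empty_iff_forall_notMem]
      rintro x ⟨⟨hx1, hx2⟩, hx3⟩
      exact hAB x ⟨⟨hx1, hclB hx3⟩, hx2⟩)
  obtain ⟨U1, hU1, hAU1, hUU⟩ := shr hA hU hAU
  obtain ⟨V1, hV1, hBV1, hVV⟩ := shr hB hV hBV
  rw [eq_empty_iff_forall_notMem] at hUV
  obtain ⟨G0, H0, hG0, hH0, hg, hh, hc, hd⟩ := hZ (closure U1) (closure V1) isClosed_closure
    isClosed_closure (by
      rw [eq_empty_iff_forall_notMem]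
      rintro x ⟨⟨hx1, hx2⟩, hx3⟩
      exact hUV x ⟨hUU ⟨hx1, hZS hx3⟩, hVV ⟨hx2, hZS hx3⟩⟩)
  rw [eq_empty_iff_forall_notMem] at hd
  obtain ⟨G, H, hG, hH, h1, h2, h3⟩ := sep ((A ∩ S) ∪ (Z ∩ G0)) ((B ∩ S) ∪ (Z ∩ H0)) (by
      rw [closure_union, eq_empty_iff_forall_notMem]
      rintro x ⟨hx | hx, hy | hy⟩
      · exact hAB x ⟨⟨hclA hx, hy.1⟩, hy.2⟩
      · exact hd x ⟨⟨hg ⟨subset_closure (hAU1 ⟨hclA hx, hZS hy.1⟩), hy.1⟩, hy.2⟩, hy.1⟩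
      · obtain ⟨y, hy1, hy2, hy3⟩ := mem_closure_iff.1 hx V1 hV1 (hBV1 hy)
        exact hd y ⟨⟨hy3, hh ⟨subset_closure hy1, hy2⟩⟩, hy2⟩
      · obtain ⟨y, hy1, hy2, hy3⟩ := mem_closure_iff.1 hx H0 hH0 hy.2
        exact hd y ⟨⟨hy3, hy1⟩, hy2⟩) (by
      rw [closure_union, eq_empty_iff_forall_notMem]
      rintro x ⟨hy | hy, hx | hx⟩
      · exact hAB x ⟨⟨hy.1, hclB hx⟩, hy.2⟩
      · obtain ⟨y, hy1, hy2, hy3⟩ := mem_closure_iff.1 hx U1 hU1 (hAU1 hy)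
        exact hd y ⟨⟨hg ⟨subset_closure hy1, hy2⟩, hy3⟩, hy2⟩
      · exact hd x ⟨⟨hy.2, hh ⟨subset_closure (hBV1 ⟨hclB hx, hZS hy.1⟩), hy.1⟩⟩, hy.1⟩
      · obtain ⟨y, hy1, hy2, hy3⟩ := mem_closure_iff.1 hx G0 hG0 hy.2
        exact hd y ⟨⟨hy1, hy3⟩, hy2⟩)
  refine ⟨G, H, hG, hH, fun x hx => h1 (Or.inl hx), fun x hx => h2 (Or.inl hx), h3, ?_⟩
  intro x hx
  rcases hc hx with h | h
  · exact Or.inl (h1 (Or.inr ⟨hx, h⟩))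
  · exact Or.inr (h2 (Or.inr ⟨hx, h⟩))

end UM

theorem t_UM : S_UM.{u} := by
  intro X _ _ q
  induction q with
  | zero =>
    intro Z _
    show (⋃ j, Z j) = ∅
    exact iUnion_of_empty Z
  | succ q ih =>
    intro Z hZ A B hA hB hAB
    obtain ⟨G, H, hG, hH, h1, h2, h3, h4⟩ := UM.step (S := ⋃ j, Z j) (Z := Z 0)
      (subset_iUnion Z 0) (hZ 0) hA hB hAB
    refine ⟨G, H, hG, hH, h1, h2, by rw [h3, empty_inter], ?_⟩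
    have he : (⋃ j, Z j) \ (G ∪ H) = ⋃ j : Fin q, Z j.succ ∩ (G ∪ H)ᶜ := by
      ext x
      constructor
      · rintro ⟨hx, hn⟩
        obtain ⟨j, hj⟩ := mem_iUnion.1 hx
        refine mem_iUnion.2 ?_
        rcases Fin.eq_zero_or_eq_succ j with h | ⟨i, h⟩
        · subst h
          exact absurd (h4 hj) hn
        · subst h
          exact ⟨i, hj, hn⟩
      · intro hx
        obtain ⟨i, hi, hn⟩ := mem_iUnion.1 hx
        exact ⟨mem_iUnion.2 ⟨i.succ, hi⟩, hn⟩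
    rw [he]
    exact ih _ fun j => UM.zd_inter (hZ j.succ) (hG.union hH).isClosed_compl

end NMD
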