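import Pool.Agent.NMD.Defs4
import Pool.Agent.NMD.MAIN3
import Pool.Agent.NMD.BR
import Pool.Agent.NMD.BR2
import Pool.Agent.NMD.UM
import Pool.Agent.NMD.GCE

/-!
# The inequality `Ind X ≤ dim X + m`
-/

set_option autoImplicit false

namespace NMD

open Set Topology

universe u

namespace IGM

/-! ### values of the dimensions -/

theorem dimVal_le_iff (P : ℕ → Prop) (m : ℕ) :
    dimVal P ≤ (m : WithTop ℤ) ↔ ∃ n, n ≤ m + 1 ∧ P n := by
  classical
  unfold dimVal
  split_ifs with h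
  · constructor
    · intro h1
      refine ⟨Nat.find h, ?_, Nat.find_spec h⟩
      have h2 : ((Nat.find h : ℤ) - 1 : ℤ) ≤ (m : ℤ) := by exact_mod_cast h1
      omega
    · rintro ⟨n, hn, hP⟩
      have h1 : Nat.find h ≤ n := Nat.find_min' h hP
      have h2 : ((Nat.find h : ℤ) - 1 : ℤ) ≤ (m : ℤ) := by omega
      exact_mod_cast h2
  · constructor
    · intro h1
      have h2 : (m : WithTop ℤ) < ⊤ := by
        have : ((m : ℤ) : WithTop ℤ) < ⊤ := WithTop.coe_lt_top _
        exact_mod_cast this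
      exact absurd h1 (not_le.2 h2)
    · rintro ⟨n, _, hP⟩
      exact absurd ⟨n, hP⟩ h

theorem dimVal_le (P Q : ℕ → Prop) (m : ℕ) (h : ∀ n, P n → Q (n + m)) :
    dimVal Q ≤ dimVal P + m := by
  classical
  by_cases hP : ∃ n, P n
  · have hQ : ∃ n, Q n := ⟨_, h _ (Nat.find_spec hP)⟩
    have h1 : Nat.find hQ ≤ Nat.find hP + m := Nat.find_min' hQ (h _ (Nat.find_spec hP))
    unfold dimVal
    rw [dif_pos hP, dif_pos hQ]
    have h2 : ((Nat.find hQ : ℤ) - 1 : ℤ) ≤ ((Nat.find hP : ℤ) - 1) + (m : ℤ) := by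
      have : (Nat.find hQ : ℤ) ≤ (Nat.find hP : ℤ) + (m : ℤ) := by exact_mod_cast h1
      linarith
    have h3 : (((Nat.find hQ : ℤ) - 1 : ℤ) : WithTop ℤ) ≤
        ((((Nat.find hP : ℤ) - 1) + (m : ℤ) : ℤ) : WithTop ℤ) := WithTop.coe_le_coe.2 h2
    rw [WithTop.coe_add] at h3
    exact h3
  · have h1 : dimVal P = ⊤ := by
      unfold dimVal
      rw [dif_neg hP]
    rw [h1, top_add]
    exact le_top

/-! ### closed embeddings -/

theorem indLT_ce {X Y : Type u} [TopologicalSpace X] [TopologicalSpace Y] {f : X → Y}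
    (hf : IsClosedEmbedding f) {n : ℕ} (h : IndLT n Y) : IndLT n X := by
  have h1 : RInd n (range (id : Y → Y)) := BR2.main n Y id IsInducing.id h
  rw [range_id] at h1
  have h2 := BR.inter_closed n _ _ h1 hf.isClosed_range
  rw [inter_univ] at h2
  exact BR.main n X f hf.isInducing h2

theorem ind_ce {X Y : Type u} [TopologicalSpace X] [TopologicalSpace Y] {f : X → Y}
    (hf : IsClosedEmbedding f) {m : ℕ} (h : Ind Y ≤ m) : Ind X ≤ m := by
  obtain ⟨n, hn, hP⟩ := (dimVal_le_iff _ m).1 h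
  exact (dimVal_le_iff _ m).2 ⟨n, hn, indLT_ce hf hP⟩

theorem goodM_ce {X Y : Type u} [TopologicalSpace X] [TopologicalSpace Y] {f : X → Y}
    (hf : IsClosedEmbedding f) {m : ℕ} (h : GoodM m Y) : GoodM m X := by
  obtain ⟨Y0, E, D, hR, hE, hDk, hc⟩ := h
  refine ⟨f ⁻¹' Y0, f ⁻¹' E, fun k => f ⁻¹' D k, ?_, ?_, ?_, ?_⟩
  · exact GCE.res_of_inducing (Y0.restrictPreimage f) (hf.isInducing.restrictPreimage Y0) hR
  · refine lt_of_le_of_lt ?_ hE
    exact Cardinal.mk_preimage_of_injective f E hf.injective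
  · intro k
    exact ⟨(hDk k).1.preimage hf.continuous, ind_ce (hf.restrictPreimage (D k)) (hDk k).2⟩
  · rw [← preimage_iUnion, ← preimage_union, ← preimage_union, hc, preimage_univ]

/-! ### partitions -/

/-- a partition that lowers the dimension of a given subset -/
theorem ptn {X : Type u} [TopologicalSpace X] [CompletelyNormalSpace X] {m : ℕ} {S A B : Set X}
    (hS : RInd (m + 1) S) (hA : IsClosed A) (hB : IsClosed B) (hAB : A ∩ B = ∅) :
    ∃ G H : Set X, IsOpen G ∧ IsOpen H ∧ A ⊆ G ∧ B ⊆ H ∧ G ∩ H = ∅ ∧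
      RInd m ((G ∪ H)ᶜ ∩ S) := by
  have hd : Disjoint A B := disjoint_iff_inter_eq_empty.2 hAB
  obtain ⟨U, V, hU, hV, hAU, hBV, hUV⟩ := normal_separation hA hB hd
  obtain ⟨U1, hU1, hAU1, hUU⟩ := normal_exists_closure_subset hA hU hAU
  obtain ⟨V1, hV1, hBV1, hVV⟩ := normal_exists_closure_subset hB hV hBV
  have hcl : closure U1 ∩ closure V1 ∩ S = ∅ := by
    rw [eq_empty_iff_forall_notMem]
    rintro x ⟨⟨h1, h2⟩, _⟩
    exact Set.disjoint_left.1 hUV (hUU h1) (hVV h2)
  obtain ⟨G0, H0, hG0, hH0, hg, hh, hgh, hr⟩ := hS (closure U1) (closure V1) isClosed_closure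
    isClosed_closure hcl
  rw [eq_empty_iff_forall_notMem] at hgh
  obtain ⟨G, H, hG, hH, h1, h2, h3⟩ := UM.sep (A ∪ (S ∩ G0)) (B ∪ (S ∩ H0)) (by
      rw [closure_union, eq_empty_iff_forall_notMem]
      rintro x ⟨hx | hx, hy | hy⟩
      · rw [hA.closure_eq] at hx
        exact Set.disjoint_left.1 hd hx hy
      · rw [hA.closure_eq] at hx
        exact hgh x ⟨⟨hg ⟨subset_closure (hAU1 hx), hy.1⟩, hy.2⟩, hy.1⟩
      · obtain ⟨y, hy1, hy2, hy3⟩ := mem_closure_iff.1 hx V1 hV1 (hBV1 hy)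
        exact hgh y ⟨⟨hy3, hh ⟨subset_closure hy1, hy2⟩⟩, hy2⟩
      · obtain ⟨y, hy1, hy2, hy3⟩ := mem_closure_iff.1 hx H0 hH0 hy.2
        exact hgh y ⟨⟨hy3, hy1⟩, hy2⟩) (by
      rw [closure_union, eq_empty_iff_forall_notMem]
      rintro x ⟨hy | hy, hx | hx⟩
      · rw [hB.closure_eq] at hx
        exact Set.disjoint_left.1 hd hy hx
      · obtain ⟨y, hy1, hy2, hy3⟩ := mem_closure_iff.1 hx U1 hU1 (hAU1 hy)
        exact hgh y ⟨⟨hg ⟨subset_closure hy1, hy2⟩, hy3⟩, hy2⟩
      · rw [hB.closure_eq] at hx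
        exact hgh x ⟨⟨hy.2, hh ⟨subset_closure (hBV1 hx), hy.1⟩⟩, hy.1⟩
      · obtain ⟨y, hy1, hy2, hy3⟩ := mem_closure_iff.1 hx G0 hG0 hy.2
        exact hgh y ⟨⟨hy1, hy3⟩, hy2⟩)
  refine ⟨G, H, hG, hH, fun x hx => h1 (Or.inl hx), fun x hx => h2 (Or.inl hx), h3, ?_⟩
  have h5 := BR.inter_closed m _ ((G ∪ H)ᶜ) hr (hG.union hH).isClosed_compl
  have h6 : (G ∪ H)ᶜ ∩ (S \ (G0 ∪ H0)) = (G ∪ H)ᶜ ∩ S := by
    ext x
    constructor
    · rintro ⟨a, b, _⟩
      exact ⟨a, b⟩
    · rintro ⟨a, b⟩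
      refine ⟨a, b, ?_⟩
      rintro (c | c)
      · exact a (Or.inl (h1 (Or.inr ⟨b, c⟩)))
      · exact a (Or.inr (h2 (Or.inr ⟨b, c⟩)))
  rwa [h6] at h5

/-! ### the induction on `m` -/

theorem indM (hPN : S_PN.{u}) (hDI : S_DI.{u}) (hCE1 : S_CE1.{u}) (hCE2 : S_CE2.{u})
    (hDCE : S_DCE.{u}) (hM2 : MainStatement2.{u}) (m : ℕ) :
    ∀ (X : Type u) [TopologicalSpace X] [NormalSpace X], IsMoore X → ∀ n, DimLT X n →
      GoodM m X → IndLT (n + m) X := by
  induction m with
  | zero =>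
    intro X _ _ hX n hn hg
    have hXp : PerfectlyNormalSpace X := hPN X hX.2
    obtain ⟨Y, E, D, hY, hE, hD, hc⟩ := hg
    have heq : Ind X = covDim X := hM2 X hX Y E D hY hE (by
      intro k
      refine ⟨(hD k).1, ?_⟩
      obtain ⟨j, hj, hP⟩ := (dimVal_le_iff _ 0).1 (hD k).2
      have : NormalSpace (D k) := (hD k).1.isClosedEmbedding_subtypeVal.normalSpace
      have := (dimVal_le_iff (fun n => DimLT (D k) n) 0).2 ⟨j, hj, hDI (D k) j hP⟩
      unfold covDim
      simpa using this) hc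
    obtain ⟨j, hj, hj'⟩ := MAIN3.exists_le_of_dimVal heq hn
    exact MAIN3.indLT_mono (by omega) X hj'
  | succ m ih =>
    intro X _ _ hX n hn hg
    have hXp : PerfectlyNormalSpace X := hPN X hX.2
    obtain ⟨Y, E, D, hY, hE, hD, hc⟩ := hg
    have hDr : RInd (m + 2) (⋃ k, D k) := by
      refine MAIN3.sumT hCE1 hCE2 X (m + 2) _ D (fun k => ⟨D k, (hD k).1, ?_⟩) rfl ?_
      · exact (inter_eq_self_of_subset_left (subset_iUnion D k)).symm
      · intro k
        obtain ⟨j, hj, hP⟩ := (dimVal_le_iff _ (m + 1)).1 (hD k).2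
        have h1 : IndLT (m + 2) (D k) := MAIN3.indLT_mono (by omega) _ hP
        exact t_BR2 X (m + 2) (D k) h1
    show IndLT (n + m + 1) X
    intro A U hA hU hAU
    obtain ⟨G, H, hG, hH, h1, h2, h3, h4⟩ := ptn hDr hA hU.isClosed_compl (by
      rw [eq_empty_iff_forall_notMem]
      rintro x ⟨a, b⟩
      exact b (hAU a))
    have hGH : Disjoint (closure G) H := (disjoint_iff_inter_eq_empty.2 h3).closure_left hH
    refine ⟨G, hG, h1, ?_, ?_⟩
    · intro x hx
      by_contra hc'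
      exact Set.disjoint_left.1 hGH hx (h2 hc')
    · have hemb : IsClosedEmbedding (Subtype.val : frontier G → X) :=
        isClosed_frontier.isClosedEmbedding_subtypeVal
      have hsub : frontier G ⊆ (G ∪ H)ᶜ := by
        intro x hx
        rw [hG.frontier_eq] at hx
        rintro (c | c)
        · exact hx.2 c
        · exact Set.disjoint_left.1 hGH hx.1 c
      have hnorm : NormalSpace (frontier G) := hemb.normalSpace
      refine ih (frontier G) (MAIN3.moore_of_inducing hX hemb.isInducing) n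
        (hDCE (frontier G) X _ hemb n hn) ?_
      refine ⟨Subtype.val ⁻¹' Y, Subtype.val ⁻¹' E, fun k => Subtype.val ⁻¹' D k, ?_, ?_, ?_, ?_⟩
      · exact GCE.res_of_inducing _ (hemb.isInducing.restrictPreimage Y) hY
      · refine lt_of_le_of_lt ?_ hE
        exact Cardinal.mk_preimage_of_injective _ E Subtype.val_injective
      · intro k
        refine ⟨(hD k).1.preimage continuous_subtype_val, ?_⟩
        refine (dimVal_le_iff _ m).2 ⟨m + 1, le_rfl, ?_⟩
        let g : (Subtype.val ⁻¹' D k : Set (frontier G)) → X := fun y => y.1.1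
        have hg : IsInducing g := IsInducing.subtypeVal.comp IsInducing.subtypeVal
        refine BR.main (m + 1) _ g hg ?_
        have h5 := BR.inter_closed (m + 1) _ (frontier G ∩ D k) h4
          (isClosed_frontier.inter (hD k).1)
        have h6 : frontier G ∩ D k ∩ ((G ∪ H)ᶜ ∩ ⋃ k, D k) = range g := by
          ext x
          constructor
          · rintro ⟨⟨a, b⟩, _⟩
            exact ⟨⟨⟨x, a⟩, b⟩, rfl⟩
          · rintro ⟨⟨⟨y, a⟩, b⟩, rfl⟩
            exact ⟨⟨a, b⟩, hsub a, mem_iUnion.2 ⟨k, b⟩⟩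
        rwa [h6] at h5
      · rw [← preimage_iUnion, ← preimage_union, ← preimage_union, hc, preimage_univ]

end IGM

open MAIN3 IGM in
/-- The assembly, given the results of the modules. -/
theorem t_IGM (hPN : S_PN.{u}) (hDI : S_DI.{u}) (hCE1 : S_CE1.{u}) (hCE2 : S_CE2.{u})
    (hLIND : S_LIND.{u}) (hDCE : S_DCE.{u}) (hM2 : MainStatement2.{u}) :
    MainStatement4.{u} := by
  intro X _ _ hX m C hC hcov hloc
  have hXp : PerfectlyNormalSpace X := hPN X hX.2
  have key : ∀ n, DimLT X n → IndLT (n + m) X := by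
    intro n hn
    have h1 : ∀ k, RInd (n + m) (C k) := by
      intro k
      have hemb : IsClosedEmbedding (Subtype.val : C k → X) := (hC k).isClosedEmbedding_subtypeVal
      have : NormalSpace (C k) := hemb.normalSpace
      have hmk : IsMoore (C k) := moore_of_inducing hX hemb.isInducing
      have : PerfectlyNormalSpace (C k) := hPN (C k) hmk.2
      refine t_BR2 X (n + m) (C k) (t_BR (C k) (n + m)
        (hLIND (C k) hmk.2 (n + m) (sumT hCE1 hCE2 (C k) (n + m)) ?_))
      intro x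
      obtain ⟨O, hO, hx, hgood⟩ := hloc k x
      refine ⟨O, hO, hx, ?_⟩
      intro C' hC' hsub
      have hemb' : IsClosedEmbedding (Subtype.val : C' → C k) := hC'.isClosedEmbedding_subtypeVal
      have hemb2 : IsClosedEmbedding (inclusion hsub) :=
        IsClosedEmbedding.inclusion hsub (hC'.preimage continuous_subtype_val)
      have hgood' : GoodM m C' := goodM_ce hemb2 hgood
      have hnorm : NormalSpace C' := hemb'.normalSpace
      have hm' : IsMoore C' := moore_of_inducing hmk hemb'.isInducing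
      have hdim : DimLT C' n := hDCE C' X (Subtype.val ∘ Subtype.val) (hemb.comp hemb') n hn
      exact t_BR2 (C k) (n + m) C' (indM hPN hDI hCE1 hCE2 hDCE hM2 m C' hm' n hdim hgood')
    have h2 : RInd (n + m) (univ : Set X) :=
      sumT hCE1 hCE2 X (n + m) univ C (fun k => ⟨C k, hC k, (inter_univ _).symm⟩) hcov h1
    exact t_BR X (n + m) h2
  constructor
  · have := dimVal_le (fun n => IndLT n X) (fun n => DimLT X n) 0 (fun n hn => hDI X n hn)
    simpa [covDim, Ind] using this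
  · exact dimVal_le (fun n => DimLT X n) (fun n => IndLT n X) m key

end NMD
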