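import Pool.Agent.NMD.Stmts2

set_option autoImplicit false

namespace NMD

open Set Topology

universe u

namespace LIM

theorem step {Z V : Type u} [TopologicalSpace Z] [TopologicalSpace V] {ψ : Z → V}
    (hψ : Continuous ψ) (hZD : ZD (range ψ)) {U U' C : Set V} (hU : IsOpen U) (hU' : IsOpen U')
    (hC : IsClosed C) (hCU : C ⊆ U ∪ U') :
    ∃ P Q : Set Z, IsOpen P ∧ IsOpen Q ∧ IsClosed (P ∪ Q) ∧ P ∩ Q = ∅ ∧ P ⊆ ψ ⁻¹' U ∧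
      Q ⊆ ψ ⁻¹' U' ∧ ψ ⁻¹' C ⊆ P ∪ Q := by
  obtain ⟨G, H, hG, hH, h1, h2, h3, h4⟩ := hZD C (U ∪ U')ᶜ hC (hU.union hU').isClosed_compl (by
    rw [eq_empty_iff_forall_notMem]
    rintro x ⟨⟨a, b⟩, _⟩
    exact b (hCU a))
  rw [eq_empty_iff_forall_notMem] at h4
  obtain ⟨G', H', hG', hH', k1, k2, k3, k4⟩ := hZD (Hᶜ ∩ Uᶜ) (Hᶜ ∩ U'ᶜ)
    (hH.isClosed_compl.inter hU.isClosed_compl) (hH.isClosed_compl.inter hU'.isClosed_compl) (by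
    rw [eq_empty_iff_forall_notMem]
    rintro x ⟨⟨⟨a, b⟩, _, c⟩, d⟩
    exact a (h2 ⟨fun e => e.elim b c, d⟩))
  rw [eq_empty_iff_forall_notMem] at k4
  have e1 : (ψ ⁻¹' G ∩ ψ ⁻¹' H') ∪ (ψ ⁻¹' G ∩ ψ ⁻¹' G') = (ψ ⁻¹' H)ᶜ := by
    ext z
    constructor
    · rintro (⟨a, _⟩ | ⟨a, _⟩) b
      · exact h4 _ ⟨⟨a, b⟩, z, rfl⟩
      · exact h4 _ ⟨⟨a, b⟩, z, rfl⟩
    · intro hz
      have a : ψ z ∈ G := (h3 ⟨z, rfl⟩).resolve_right hz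
      rcases k3 ⟨z, rfl⟩ with b | b
      · exact Or.inr ⟨a, b⟩
      · exact Or.inl ⟨a, b⟩
  refine ⟨ψ ⁻¹' G ∩ ψ ⁻¹' H', ψ ⁻¹' G ∩ ψ ⁻¹' G', (hG.preimage hψ).inter (hH'.preimage hψ),
    (hG.preimage hψ).inter (hG'.preimage hψ), ?_, ?_, ?_, ?_, ?_⟩
  · rw [e1]
    exact (hH.preimage hψ).isClosed_compl
  · rw [eq_empty_iff_forall_notMem]
    rintro z ⟨⟨_, a⟩, _, b⟩
    exact k4 _ ⟨⟨b, a⟩, z, rfl⟩
  · rintro z ⟨a, b⟩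
    by_contra hc
    exact k4 _ ⟨⟨k1 ⟨⟨fun e => h4 _ ⟨⟨a, e⟩, z, rfl⟩, hc⟩, z, rfl⟩, b⟩, z, rfl⟩
  · rintro z ⟨a, b⟩
    by_contra hc
    exact k4 _ ⟨⟨b, k2 ⟨⟨fun e => h4 _ ⟨⟨a, e⟩, z, rfl⟩, hc⟩, z, rfl⟩⟩, z, rfl⟩
  · intro z hz
    rw [e1]
    intro e
    exact h4 _ ⟨⟨h1 ⟨hz, z, rfl⟩, e⟩, z, rfl⟩

end LIM

theorem t_LIM : S_LIM.{u} := by
  classical
  intro X _ Z V _ _ ψ hψ hZD hbase A B hA hB hAB
  rw [eq_empty_iff_forall_notMem] at hAB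
  let U : ∀ k, Set (V k) := fun k => ⋃₀ {O | IsOpen O ∧ ∀ z : Z, ψ k z ∈ O → z.1 ∉ A}
  let U' : ∀ k, Set (V k) := fun k => ⋃₀ {O | IsOpen O ∧ ∀ z : Z, ψ k z ∈ O → z.1 ∉ B}
  have hU : ∀ k, IsOpen (U k) := fun k => isOpen_sUnion fun O hO => hO.1
  have hU' : ∀ k, IsOpen (U' k) := fun k => isOpen_sUnion fun O hO => hO.1
  have hUA : ∀ k (z : Z), ψ k z ∈ U k → z.1 ∉ A := by
    rintro k z ⟨O, hO, hz⟩
    exact hO.2 z hz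
  have hUB : ∀ k (z : Z), ψ k z ∈ U' k → z.1 ∉ B := by
    rintro k z ⟨O, hO, hz⟩
    exact hO.2 z hz
  have hcov : ∀ z : Z, ∃ k, ψ k z ∈ U k ∪ U' k := by
    intro z
    by_cases hz : z.1 ∈ A
    · have hz' : z.1 ∉ B := fun h => hAB _ ⟨⟨hz, h⟩, z.2⟩
      obtain ⟨k, O, hO, h1, h2⟩ := hbase z Bᶜ hB.isOpen_compl hz'
      exact ⟨k, Or.inr ⟨O, ⟨hO, h2⟩, h1⟩⟩
    · obtain ⟨k, O, hO, h1, h2⟩ := hbase z Aᶜ hA.isOpen_compl hz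
      exact ⟨k, Or.inl ⟨O, ⟨hO, h2⟩, h1⟩⟩
  have hF : ∀ k, ∃ C : ℕ → Set (V k), (∀ j, IsClosed (C j)) ∧ U k ∪ U' k = ⋃ j, C j := by
    intro k
    have h1 : IsGδ (U k ∪ U' k)ᶜ := ((hU k).union (hU' k)).isClosed_compl.isGδ
    obtain ⟨T, hT, e⟩ := isGδ_iff_eq_iInter_nat.1 h1
    refine ⟨fun j => (T j)ᶜ, fun j => (hT j).isClosed_compl, ?_⟩
    rw [← compl_iInter, ← e, compl_compl]
  choose C hC hCU using hF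
  have hstep : ∀ k j, ∃ P Q : Set Z, IsOpen P ∧ IsOpen Q ∧ IsClosed (P ∪ Q) ∧ P ∩ Q = ∅ ∧
      P ⊆ ψ k ⁻¹' U k ∧ Q ⊆ ψ k ⁻¹' U' k ∧ ψ k ⁻¹' C k j ⊆ P ∪ Q := by
    intro k j
    refine LIM.step (hψ k) (hZD k) (hU k) (hU' k) (hC k j) ?_
    rw [hCU]
    exact subset_iUnion _ _
  choose P Q hP hQ hPQ hd hPA hQB hcl using hstep
  let p : ℕ → Set Z := fun n => P n.unpair.1 n.unpair.2
  let q : ℕ → Set Z := fun n => Q n.unpair.1 n.unpair.2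
  have hKc : ∀ n, IsClosed (⋃ i ∈ Finset.range n, (p i ∪ q i)) := fun n =>
    (Finset.range n).finite_toSet.isClosed_biUnion fun i _ => hPQ _ _
  let TP : Set Z := ⋃ n, p n \ ⋃ i ∈ Finset.range n, (p i ∪ q i)
  let TQ : Set Z := ⋃ n, q n \ ⋃ i ∈ Finset.range n, (p i ∪ q i)
  have hTP : IsOpen TP := isOpen_iUnion fun n => (hP _ _).sdiff (hKc n)
  have hTQ : IsOpen TQ := isOpen_iUnion fun n => (hQ _ _).sdiff (hKc n)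
  have hTPA : ∀ z ∈ TP, z.1 ∉ A := by
    intro z hz
    obtain ⟨n, hn⟩ := mem_iUnion.1 hz
    exact hUA _ z (hPA _ _ hn.1)
  have hTQB : ∀ z ∈ TQ, z.1 ∉ B := by
    intro z hz
    obtain ⟨n, hn⟩ := mem_iUnion.1 hz
    exact hUB _ z (hQB _ _ hn.1)
  have hTc : ∀ z, z ∈ TQ ∨ z ∈ TP := by
    intro z
    have h1 : ∃ n, z ∈ p n ∪ q n := by
      obtain ⟨k, hk⟩ := hcov z
      rw [hCU] at hk
      obtain ⟨j, hj⟩ := mem_iUnion.1 hk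
      refine ⟨Nat.pair k j, ?_⟩
      have h2 := hcl k j hj
      show z ∈ P (Nat.pair k j).unpair.1 (Nat.pair k j).unpair.2 ∪
        Q (Nat.pair k j).unpair.1 (Nat.pair k j).unpair.2
      rw [Nat.unpair_pair]
      exact h2
    have h2 : z ∉ ⋃ i ∈ Finset.range (Nat.find h1), (p i ∪ q i) := by
      intro h3
      obtain ⟨i, hi, hz⟩ := mem_iUnion₂.1 h3
      exact Nat.find_min h1 (Finset.mem_range.1 hi) hz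
    rcases Nat.find_spec h1 with h3 | h3
    · exact Or.inr (mem_iUnion.2 ⟨_, h3, h2⟩)
    · exact Or.inl (mem_iUnion.2 ⟨_, h3, h2⟩)
  have hTd : ∀ z, z ∈ TQ → z ∈ TP → False := by
    intro z h1 h2
    obtain ⟨n, hn⟩ := mem_iUnion.1 h1
    obtain ⟨m, hm⟩ := mem_iUnion.1 h2
    rcases lt_trichotomy n m with h | h | h
    · exact hm.2 (mem_iUnion₂.2 ⟨n, Finset.mem_range.2 h, Or.inr hn.1⟩)
    · subst h
      have : z ∈ P n.unpair.1 n.unpair.2 ∩ Q n.unpair.1 n.unpair.2 := ⟨hm.1, hn.1⟩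
      rw [hd] at this
      exact this
    · exact hn.2 (mem_iUnion₂.2 ⟨m, Finset.mem_range.2 h, Or.inl hm.1⟩)
  obtain ⟨G, hG, eG⟩ := isOpen_induced_iff.1 hTQ
  obtain ⟨H, hH, eH⟩ := isOpen_induced_iff.1 hTP
  have gG : ∀ z : Z, z.1 ∈ G ↔ z ∈ TQ := fun z => by rw [← eG]; rfl
  have gH : ∀ z : Z, z.1 ∈ H ↔ z ∈ TP := fun z => by rw [← eH]; rfl
  refine ⟨G, H, hG, hH, ?_, ?_, ?_, ?_⟩
  · rintro x ⟨a, hx⟩
    rcases hTc ⟨x, hx⟩ with h | h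
    · exact (gG ⟨x, hx⟩).2 h
    · exact absurd a (hTPA _ h)
  · rintro x ⟨b, hx⟩
    rcases hTc ⟨x, hx⟩ with h | h
    · exact absurd b (hTQB _ h)
    · exact (gH ⟨x, hx⟩).2 h
  · intro x hx
    rcases hTc ⟨x, hx⟩ with h | h
    · exact Or.inl ((gG ⟨x, hx⟩).2 h)
    · exact Or.inr ((gH ⟨x, hx⟩).2 h)
  · rw [eq_empty_iff_forall_notMem]
    rintro x ⟨⟨a, b⟩, hx⟩
    exact hTd ⟨x, hx⟩ ((gG ⟨x, hx⟩).1 a) ((gH ⟨x, hx⟩).1 b)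

end NMD
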