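import Pool.Agent.NMD.Stmts
import Pool.Agent.NMD.Base

/-!
# The property `SCD` is local in developable spaces
-/

namespace NMD

open Set Topology

universe u

namespace LOC

variable {X : Type u} [TopologicalSpace X]

/-- the points of `O i` that are in no earlier `O j` and whose star is contained in `O i` -/
def F {ι : Type u} (O : ι → Set X) (g : Set (Set X)) (i : ι) : Set X :=
  {x | star x g ⊆ O i ∧ ∀ j, WellOrderingRel j i → x ∉ O j}

theorem mem_star {g : Set (Set X)} {x y : X} {U : Set X} (hU : U ∈ g) (hx : x ∈ U) (hy : y ∈ U) :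
    y ∈ star x g := ⟨U, ⟨hU, hx⟩, hy⟩

theorem self_mem_star {g : Set (Set X)} (hg : ⋃₀ g = univ) (x : X) : x ∈ star x g := by
  have : x ∈ ⋃₀ g := by rw [hg]; trivial
  obtain ⟨U, hU, hx⟩ := this
  exact mem_star hU hx hx

theorem F_sub {ι : Type u} {O : ι → Set X} {g : Set (Set X)} (hg : ⋃₀ g = univ) (i : ι) :
    F O g i ⊆ O i := fun x hx => hx.1 (self_mem_star hg x)

/-- a member of the cover meets at most one of the sets -/
theorem F_unique {ι : Type u} {O : ι → Set X} {g : Set (Set X)} {U : Set X} (hU : U ∈ g)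
    {i j : ι} (hi : (F O g i ∩ U).Nonempty) (hj : (F O g j ∩ U).Nonempty) : i = j := by
  obtain ⟨x, hx, hxU⟩ := hi
  obtain ⟨y, hy, hyU⟩ := hj
  have hwo : IsWellOrder ι WellOrderingRel := WellOrderingRel.isWellOrder
  rcases trichotomous_of WellOrderingRel i j with h | h | h
  · exact absurd (hx.1 (mem_star hU hxU hyU)) (hy.2 i h)
  · exact h
  · exact absurd (hy.1 (mem_star hU hyU hxU)) (hx.2 j h)

theorem F_closed {ι : Type u} {O : ι → Set X} {g : Set (Set X)} (ho : ∀ U ∈ g, IsOpen U)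
    (hO : ∀ i, IsOpen (O i)) (i : ι) : IsClosed (F O g i) := by
  have e : F O g i = (⋃₀ {U ∈ g | (U ∩ (O i)ᶜ).Nonempty})ᶜ ∩
      ⋂ j ∈ {j | WellOrderingRel j i}, (O j)ᶜ := by
    ext x
    simp only [F, mem_inter_iff, mem_setOf_eq, mem_iInter, mem_compl_iff]
    constructor
    · rintro ⟨h1, h2⟩
      refine ⟨?_, h2⟩
      rintro ⟨U, ⟨hU, y, hy, hyO⟩, hx⟩
      exact hyO (h1 (mem_star hU hx hy))
    · rintro ⟨h1, h2⟩
      refine ⟨?_, h2⟩
      rintro y ⟨U, ⟨hU, hx⟩, hy⟩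
      by_contra hyO
      exact h1 ⟨U, ⟨hU, y, hy, hyO⟩, hx⟩
  rw [e]
  refine IsClosed.inter ?_ ?_
  · rw [isClosed_compl_iff]
    exact isOpen_sUnion fun U hU => ho U hU.1
  · exact isClosed_biInter fun j _ => (hO j).isClosed_compl

/-- unions of closed subsets of the sets `F i` are closed -/
theorem closed_union {ι : Type u} {O : ι → Set X} {g : Set (Set X)} (ho : ∀ U ∈ g, IsOpen U)
    (hg : ⋃₀ g = univ) (C : ι → Set X) (hC : ∀ i, IsClosed (C i)) (hCF : ∀ i, C i ⊆ F O g i) :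
    IsClosed (⋃ i, C i) := by
  refine LocallyFinite.isClosed_iUnion ?_ hC
  intro x
  have : x ∈ ⋃₀ g := by rw [hg]; trivial
  obtain ⟨U, hU, hx⟩ := this
  refine ⟨U, (ho U hU).mem_nhds hx, ?_⟩
  refine Set.Subsingleton.finite ?_
  intro i hi j hj
  obtain ⟨a, ha, haU⟩ := hi
  obtain ⟨b, hb, hbU⟩ := hj
  exact F_unique hU ⟨a, hCF i ha, haU⟩ ⟨b, hCF j hb, hbU⟩

theorem F_disj {ι : Type u} {O : ι → Set X} {g : Set (Set X)} (hg : ⋃₀ g = univ) {i j : ι}
    {x : X} (hi : x ∈ F O g i) (hj : x ∈ F O g j) : i = j := by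
  have : x ∈ ⋃₀ g := by rw [hg]; trivial
  obtain ⟨U, hU, hx⟩ := this
  exact F_unique hU ⟨x, hi, hx⟩ ⟨x, hj, hx⟩

/-- a discrete union of sets with `σ`-disjoint bases -/
theorem sdb_union {ι : Type u} {O : ι → Set X} {g : Set (Set X)} (ho : ∀ U ∈ g, IsOpen U)
    (hg : ⋃₀ g = univ) (hO : ∀ i, IsOpen (O i)) (P : ι → Set X) (hP : ∀ i, SDB (P i)) :
    SDB (⋃ i, P i ∩ F O g i) := by
  choose B hB using hP
  refine ⟨fun m => {c | ∃ i, ∃ b ∈ B i m, c = b ∩ F O g i}, ?_, ?_, ?_⟩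
  · rintro m _ ⟨i, b, hb, rfl⟩
    obtain ⟨W, hW, e⟩ := (hB i).op m b hb
    have hcl : IsClosed (⋃ j, {x | x ∈ F O g j ∧ j ≠ i}) := by
      refine closed_union ho hg _ ?_ fun j x hx => hx.1
      intro j
      by_cases hji : j = i
      · have : {x | x ∈ F O g j ∧ j ≠ i} = ∅ := by
          ext x
          simp [hji]
        rw [this]
        exact isClosed_empty
      · have : {x | x ∈ F O g j ∧ j ≠ i} = F O g j := by
          ext x
          simp [hji]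
        rw [this]
        exact F_closed ho hO j
    refine ⟨W ∩ (⋃ j, {x | x ∈ F O g j ∧ j ≠ i})ᶜ, hW.inter hcl.isOpen_compl, ?_⟩
    rw [e]
    ext x
    simp only [mem_inter_iff, mem_compl_iff, mem_iUnion, mem_setOf_eq, not_exists]
    constructor
    · rintro ⟨⟨h1, h2⟩, h3⟩
      refine ⟨⟨h1, ?_⟩, ⟨i, h2, h3⟩⟩
      rintro j ⟨h4, h5⟩
      exact h5 (F_disj hg h4 h3)
    · rintro ⟨⟨h1, h2⟩, ⟨j, h3, h4⟩⟩
      have hji : j = i := by
        by_contra hne
        exact h2 j ⟨h4, hne⟩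
      subst hji
      exact ⟨⟨h1, h3⟩, h4⟩
  · rintro m _ ⟨i, b, hb, rfl⟩ _ ⟨j, b', hb', rfl⟩ hne
    show Disjoint (b ∩ F O g i) (b' ∩ F O g j)
    by_cases hij : i = j
    · subst hij
      have hne' : b ≠ b' := fun e => hne (by rw [e])
      have := (hB i).disj m hb hb' hne'
      exact this.mono inter_subset_left inter_subset_left
    · rw [Set.disjoint_left]
      rintro x ⟨_, h1⟩ ⟨_, h2⟩
      exact hij (F_disj hg h1 h2)
  · intro x hx U hU hxU
    obtain ⟨i, hxi, hxF⟩ := mem_iUnion.1 hx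
    obtain ⟨m, b, hb, h1, h2⟩ := (hB i).base x hxi U hU hxU
    exact ⟨m, b ∩ F O g i, ⟨i, b, hb, rfl⟩, ⟨h1, hxF⟩, inter_subset_left.trans h2⟩

end LOC

theorem t_LOC : S_LOC.{u} := by
  intro X _ hX S hS
  obtain ⟨G, hG, hd⟩ := hX
  let ι : Type u := {O : Set X // IsOpen O ∧ SCD (S ∩ O)}
  let O : ι → Set X := fun i => i.1
  have hO : ∀ i, IsOpen (O i) := fun i => i.2.1
  have hP : ∀ i : ι, ∃ P : ℕ → Set X, (∀ k, ∃ C, IsClosed C ∧ P k = C ∩ (S ∩ O i)) ∧
      ⋃ k, P k = S ∩ O i ∧ ∀ k, SDB (P k) := fun i => i.2.2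
  choose P hP1 hP2 hP3 using hP
  choose C hC1 hC2 using hP1
  have hQ : ∀ n k, (⋃ i, P i k ∩ LOC.F O (G n) i) =
      (⋃ i, C i k ∩ LOC.F O (G n) i) ∩ S := by
    intro n k
    ext x
    simp only [mem_iUnion, mem_inter_iff]
    constructor
    · rintro ⟨i, h1, h2⟩
      rw [hC2] at h1
      exact ⟨⟨i, h1.1, h2⟩, h1.2.1⟩
    · rintro ⟨⟨i, h1, h2⟩, h3⟩
      refine ⟨i, ?_, h2⟩
      rw [hC2]
      exact ⟨h1, h3, LOC.F_sub (hG n).2 i h2⟩
  refine ⟨fun p => ⋃ i, P i p.unpair.2 ∩ LOC.F O (G p.unpair.1) i, ?_, ?_, ?_⟩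
  · intro p
    refine ⟨_, ?_, hQ _ _⟩
    refine LOC.closed_union (hG _).1 (hG _).2 _ ?_ fun i => inter_subset_right
    intro i
    exact (hC1 i _).inter (LOC.F_closed (hG _).1 hO i)
  · ext x
    rw [mem_iUnion]
    constructor
    · rintro ⟨p, hp⟩
      rw [hQ] at hp
      exact hp.2
    · intro hx
      have hwo : IsWellOrder ι WellOrderingRel := WellOrderingRel.isWellOrder
      obtain ⟨W, hW1, hW2, hW3⟩ := hS x hx
      let T : Set ι := {i | x ∈ O i}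
      have hT : T.Nonempty := ⟨⟨W, hW1, hW3⟩, hW2⟩
      let i := hwo.wf.min T hT
      have hi : x ∈ O i := hwo.wf.min_mem T hT
      have hmin : ∀ j, WellOrderingRel j i → x ∉ O j := fun j hj hxj =>
        hwo.wf.not_lt_min T hxj hj
      obtain ⟨n, hn⟩ := hd x (O i) (hO i) hi
      have hx' : x ∈ ⋃ k, P i k := by
        rw [hP2]
        exact ⟨hx, hi⟩
      obtain ⟨k, hk⟩ := mem_iUnion.1 hx'
      refine ⟨Nat.pair n k, ?_⟩
      rw [mem_iUnion]
      refine ⟨i, ?_, ?_⟩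
      · rw [Nat.unpair_pair]
        exact hk
      · rw [Nat.unpair_pair]
        exact ⟨hn, hmin⟩
  · intro p
    exact LOC.sdb_union (hG _).1 (hG _).2 hO _ fun i => hP3 i _

end NMD
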