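import Pool.Agent.NMD.Stmts3
import Pool.Agent.NMD.LOC

/-!
# From local to global for the large inductive dimension
-/

namespace NMD

open Set Topology

universe u

theorem t_LIND : M_LIND.{u} := by
  intro hDISC X _ hX n hsum hloc
  obtain ⟨G, hG, hd⟩ := hX
  let ι : Type u := {O : Set X // IsOpen O ∧ ∀ C : Set X, IsClosed C → C ⊆ O → RInd n C}
  let O : ι → Set X := fun i => i.1
  have hO : ∀ i, IsOpen (O i) := fun i => i.2.1
  have hFc : ∀ m i, IsClosed (LOC.F O (G m) i) := fun m i => LOC.F_closed (hG m).1 hO i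
  refine hsum univ (fun m => ⋃ i, LOC.F O (G m) i) ?_ ?_ ?_
  · intro m
    refine ⟨⋃ i, LOC.F O (G m) i, ?_, by simp⟩
    exact LOC.closed_union (hG m).1 (hG m).2 _ (hFc m) fun i => subset_rfl
  · rw [eq_univ_iff_forall]
    intro x
    have hwo : IsWellOrder ι WellOrderingRel := WellOrderingRel.isWellOrder
    obtain ⟨W, hW1, hW2, hW3⟩ := hloc x
    let T : Set ι := {i | x ∈ O i}
    have hT : T.Nonempty := ⟨⟨W, hW1, hW3⟩, hW2⟩
    let i := hwo.wf.min T hT
    have hi : x ∈ O i := hwo.wf.min_mem T hT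
    have hmin : ∀ j, WellOrderingRel j i → x ∉ O j := fun j hj hxj =>
      hwo.wf.not_lt_min T hxj hj
    obtain ⟨m, hm⟩ := hd x (O i) (hO i) hi
    exact mem_iUnion.2 ⟨m, mem_iUnion.2 ⟨i, hm, hmin⟩⟩
  · intro m
    refine hDISC X n ι (fun i => LOC.F O (G m) i) ?_ ?_
    · intro x _
      have : x ∈ ⋃₀ G m := by rw [(hG m).2]; trivial
      obtain ⟨U, hU, hx⟩ := this
      refine ⟨U, (hG m).1 U hU, hx, ?_⟩
      intro i j hi hj
      refine LOC.F_unique (O := O) hU ?_ ?_
      · rw [inter_comm]; exact hi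
      · rw [inter_comm]; exact hj
    · intro i
      exact i.2.2 _ (hFc m i) (LOC.F_sub (hG m).2 i)

end NMD
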