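import Pool.Agent.NMD.Stmts

/-!
# Choice of the level (module LVL)
-/

namespace NMD

open Set Topology

universe u

namespace LVL

theorem interior_empty {F : Set ℝ} (hr : ∀ r : ℚ, 0 < r → (r : ℝ) ∉ F) :
    interior (F ∩ Ici 0) = ∅ := by
  rw [Set.eq_empty_iff_forall_notMem]
  intro x hx
  have hx0 : (0 : ℝ) ≤ x := (interior_subset hx).2
  obtain ⟨ε, hε, hb⟩ := Metric.isOpen_iff.mp isOpen_interior x hx
  obtain ⟨r, h1, h2⟩ := exists_rat_btwn (show x < x + ε by linarith)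
  have h3 : (r : ℝ) ∈ interior (F ∩ Ici 0) := by
    apply hb
    rw [Metric.mem_ball, Real.dist_eq, abs_lt]
    constructor <;> linarith
  have h4 : (0 : ℝ) < r := by linarith
  exact hr r (by exact_mod_cast h4) (interior_subset h3).1

theorem key {ι : Type} [Countable ι] (F : ι → Set ℝ) (hF : ∀ i, IsClosed (F i))
    (hr : ∀ i (r : ℚ), 0 < r → (r : ℝ) ∉ F i) (a b : ℝ) (ha : 0 ≤ a) (hab : a < b)
    (s : Set ℝ) (hs : Cardinal.mk s < Cardinal.continuum) :
    ∃ t, a < t ∧ t < b ∧ t ∉ s ∧ ∀ i, t ∉ F i := by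
  by_contra hcon
  have hCs : (Ioo a b ∩ ⋂ i, (F i)ᶜ) ⊆ s := by
    intro t ht
    by_contra hts
    exact hcon ⟨t, ht.1.1, ht.1.2, hts, fun i => Set.mem_iInter.mp ht.2 i⟩
  set C : Set ℝ := Ioo a b ∩ ⋂ i, (F i)ᶜ with hC
  have hCm : MeasurableSet C :=
    measurableSet_Ioo.inter (MeasurableSet.iInter fun i => (hF i).measurableSet.compl)
  have hCc : Cardinal.mk C < Cardinal.continuum := lt_of_le_of_lt (Cardinal.mk_le_mk_of_subset hCs) hs
  haveI : StandardBorelSpace C := hCm.standardBorel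
  by_cases hcount : Countable C
  · have hd : Dense (⋂ i : ι ⊕ C, (Sum.elim (fun i : ι => (F i ∩ Ici 0)ᶜ)
        (fun c : C => ({(c : ℝ)} : Set ℝ)ᶜ) i)) := by
      apply dense_iInter_of_isOpen
      · rintro (i | c)
        · exact ((hF i).inter isClosed_Ici).isOpen_compl
        · exact isOpen_compl_singleton
      · rintro (i | c)
        · exact interior_eq_empty_iff_dense_compl.mp (interior_empty (hr i))
        · exact dense_compl_singleton _
    obtain ⟨t, ht1, ht2⟩ := hd.exists_mem_open isOpen_Ioo (Set.nonempty_Ioo.mpr hab)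
    rw [Set.mem_iInter] at ht1
    have htC : t ∈ C := by
      refine ⟨ht2, Set.mem_iInter.mpr fun i hi => ?_⟩
      exact ht1 (Sum.inl i) ⟨hi, ha.trans ht2.1.le⟩
    exact ht1 (Sum.inr ⟨t, htC⟩) rfl
  · have hR : ¬ Countable ℝ := by
      intro h
      exact Cardinal.not_countable_real (Set.countable_univ_iff.mpr h)
    have e := PolishSpace.measurableEquivOfNotCountable hcount hR
    have h1 : Cardinal.mk C = Cardinal.mk ℝ := Cardinal.mk_congr e.toEquiv
    rw [h1, Cardinal.mk_real] at hCc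
    exact lt_irrefl _ hCc

theorem mk_image_lt {X : Type u} (f : X → ℝ) (E : Set X)
    (hE : Cardinal.mk E < Cardinal.continuum) : Cardinal.mk (f '' E) < Cardinal.continuum := by
  have h1 := Cardinal.mk_image_le_lift (f := f) (s := E)
  have h2 : Cardinal.lift.{u} (Cardinal.mk (f '' E)) < Cardinal.lift.{u} Cardinal.continuum.{0} := by
    rw [Cardinal.lift_continuum]
    refine lt_of_le_of_lt h1 ?_
    rw [Cardinal.lift_id']
    exact hE
  exact Cardinal.lift_lt.mp h2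

/-- the closed set of the bad levels -/
def FF {X : Type u} {m : ℕ} (g : ℕ → X → ℝ) (q : Fin m → ℕ) (ρ : Fin m → ℚ) : Set ℝ :=
  ⋂ n : ℕ, closure (g 0 '' {x | ∀ j, |g (q j) x - ρ j| < 1 / ((n : ℝ) + 1)})

theorem FF_rat {X : Type u} {m : ℕ} {g : ℕ → X → ℝ} (hA : GenA (m + 1) g) {q : Fin m → ℕ}
    {ρ : Fin m → ℚ} (hq : Function.Injective q) (hq1 : ∀ j, 1 ≤ q j) (hρ : ∀ j, 0 < ρ j)
    (r : ℚ) (hr : 0 < r) : (r : ℝ) ∉ FF g q ρ := by
  intro h
  obtain ⟨δ, hδ, hx⟩ := hA (Fin.cons 0 q) (by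
      rw [Fin.cons_injective_iff]
      refine ⟨?_, hq⟩
      rintro ⟨j, hj⟩
      have := hq1 j
      omega) (Fin.cons r ρ) (by
      intro j
      refine Fin.cases ?_ ?_ j
      · exact hr
      · exact hρ)
  obtain ⟨n, hn⟩ := exists_nat_one_div_lt hδ
  have h1 := Set.mem_iInter.mp h n
  obtain ⟨y, hy, hyr⟩ := Metric.mem_closure_iff.mp h1 δ hδ
  obtain ⟨x, hx1, rfl⟩ := hy
  obtain ⟨j, hj⟩ := hx x
  rw [dist_comm, Real.dist_eq] at hyr
  revert hj
  refine Fin.cases ?_ ?_ j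
  · intro hj
    rw [Fin.cons_zero, Fin.cons_zero] at hj
    linarith
  · intro i hj
    rw [Fin.cons_succ, Fin.cons_succ] at hj
    have := hx1 i
    linarith

end LVL

open LVL in
theorem t_LVL : S_LVL.{u} := by
  intro X m g E D hA hD hE a b ha hab
  obtain ⟨t, h1, h2, h3, h4⟩ := key
    (ι := {p : (Fin m → ℕ) × (Fin m → ℚ) // Function.Injective p.1 ∧ (∀ j, 1 ≤ p.1 j) ∧
      ∀ j, 0 < p.2 j} ⊕ ℕ)
    (Sum.elim (fun p => FF g p.1.1 p.1.2) (fun k => closure (g 0 '' D k)))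
    (by
      rintro (p | k)
      · exact isClosed_iInter fun n => isClosed_closure
      · exact isClosed_closure)
    (by
      rintro (p | k) r hr
      · exact FF_rat hA p.2.1 p.2.2.1 p.2.2.2 r hr
      · intro h
        obtain ⟨δ, hδ, hx⟩ := hD k r hr
        obtain ⟨y, hy, hyr⟩ := Metric.mem_closure_iff.mp h δ hδ
        obtain ⟨x, hx1, rfl⟩ := hy
        have := hx x hx1
        rw [dist_comm, Real.dist_eq] at hyr
        linarith)
    a b ha hab (g 0 '' E) (mk_image_lt _ _ hE)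
  refine ⟨t, h1, h2, fun x hx hxt => h3 ⟨x, hx, hxt⟩, fun k x hx hxt => ?_, ?_⟩
  · exact h4 (Sum.inr k) (subset_closure ⟨x, hx, hxt⟩)
  · rintro q hq hq1 ρ hρ ⟨x, hxt, hxq⟩
    apply h4 (Sum.inl ⟨(q, ρ), hq, hq1, hρ⟩)
    apply Set.mem_iInter.mpr
    intro n
    apply subset_closure
    refine ⟨x, fun j => ?_, hxt⟩
    change |g (q j) x - ρ j| < 1 / ((n : ℝ) + 1)
    rw [hxq j, sub_self, abs_zero]
    positivity

end NMD
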