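import Pool.Agent.NMD.Stmts
import Pool.Agent.NMD.Base

/-!
# Assembly
-/

namespace NMD

open Set Topology

open scoped BoundedContinuousFunction

universe u

namespace MAIN

theorem isEmpty_of_dimLT {X : Type u} [TopologicalSpace X] (h : DimLT X 0) : IsEmpty X := by
  refine ⟨fun x => ?_⟩
  obtain ⟨𝒱, hf, -, hc, -, hn⟩ := h {univ} (finite_singleton _)
    (by rintro U hU; rw [mem_singleton_iff.1 hU]; exact isOpen_univ) (by simp)
  have hx : x ∈ ⋃₀ 𝒱 := by rw [hc]; trivial
  obtain ⟨V, hV, hxV⟩ := hx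
  have h1 : {V ∈ 𝒱 | x ∈ V}.ncard = 0 := Nat.le_zero.1 (hn x)
  have hfin : {V ∈ 𝒱 | x ∈ V}.Finite := hf.subset fun V hV => hV.1
  rw [ncard_eq_zero hfin] at h1
  exact (eq_empty_iff_forall_notMem.1 h1 V) ⟨hV, hxV⟩

theorem dimLT_of_covDim {X : Type u} [TopologicalSpace X] (h : covDim X ≤ 0) : DimLT X 1 := by
  classical
  unfold covDim dimVal at h
  split_ifs at h with h1
  · have h2 := Nat.find_spec h1
    have h3 : ((Nat.find h1 : ℤ) - 1 : ℤ) ≤ 0 := by exact_mod_cast h
    exact h2.mono (by omega)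
  · exact absurd h (by simp)

/-- a continuous function with values in `[0,1]` as a bounded continuous function -/
noncomputable def bcf {X : Type u} [TopologicalSpace X] (f : C(X, ℝ))
    (hf : ∀ x, f x ∈ Icc (0 : ℝ) 1) : X →ᵇ ℝ :=
  BoundedContinuousFunction.ofNormedAddCommGroup f f.continuous 1 (fun x => by
    rw [Real.norm_eq_abs, abs_le]
    exact ⟨by linarith [(hf x).1], (hf x).2⟩)

theorem bcf_apply {X : Type u} [TopologicalSpace X] (f : C(X, ℝ))
    (hf : ∀ x, f x ∈ Icc (0 : ℝ) 1) (x : X) : bcf f hf x = f x := rfl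

theorem inj_of_card {P : ℕ → ℚ → Prop} (s : Finset ℕ) (m : ℕ)
    (hs : ∀ i ∈ s, 1 ≤ i ∧ ∃ ρ : ℚ, 0 < ρ ∧ P i ρ) (hm : m ≤ s.card) :
    ∃ (q : Fin m → ℕ) (ρ : Fin m → ℚ), Function.Injective q ∧ (∀ j, 1 ≤ q j) ∧
      (∀ j, 0 < ρ j) ∧ ∀ j, P (q j) (ρ j) := by
  obtain ⟨r, hr, hc⟩ := Finset.exists_subset_card_eq hm
  let e := (r.equivFinOfCardEq hc).symm
  have h1 : ∀ j : Fin m, 1 ≤ (e j : ℕ) ∧ ∃ ρ : ℚ, 0 < ρ ∧ P (e j) ρ := fun j =>
    hs _ (hr (e j).2)
  choose h2 ρ h3 h4 using h1
  refine ⟨fun j => (e j : ℕ), ρ, ?_, h2, h3, h4⟩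
  intro a b hab
  exact e.injective (Subtype.ext hab)

end MAIN

open MAIN

theorem t_MAIN : M_MAIN.{u} := by
  classical
  intro hSDB hPN hFIN hBR hGEN hLVL hDEC hDI X _ _ hM Y E D hY1 hY2 hE hD hcov
  obtain ⟨-, hdev⟩ := hM
  haveI hpn : PerfectlyNormalSpace X := hPN X hdev
  -- the subspace `Y` is `SCD`
  have hYk : ∀ k, SCD (Y k) := by
    intro k
    obtain ⟨q, M, hq, hM⟩ := hY1 k
    rw [hq]
    exact hFIN X hdev q M fun j => hSDB X (M j) (hM j)
  obtain ⟨P, hP1, hP2, hP3⟩ : SCD (⋃ j, Y j) := SCD.of_iUnion Y hY2 rfl hYk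
  choose B hB using hP3
  -- the functions `F k m`
  have hF : ∀ k m, ∃ F : X →ᵇ ℝ, (∀ x, 0 ≤ F x) ∧ (∀ x ∈ P k \ ⋃₀ B k m, F x = 0) ∧
      ∀ x ∈ ⋃₀ B k m, 0 < F x := by
    intro k m
    obtain ⟨f, hf, hf01⟩ := perfectlyNormalSpace_iff_forall_isClosed_preimage_zero.1 hpn
      (closure (P k \ ⋃₀ B k m)) isClosed_closure
    refine ⟨bcf f hf01, fun x => (hf01 x).1, ?_, ?_⟩
    · intro x hx
      have h1 : x ∈ f ⁻¹' {0} := by rw [← hf]; exact subset_closure hx
      exact h1
    · rintro x ⟨b, hb, hxb⟩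
      obtain ⟨O, hO, hbO⟩ := (hB k).op m b hb
      have h1 : x ∉ closure (P k \ ⋃₀ B k m) := by
        intro hx
        have hxO : x ∈ O := by rw [hbO] at hxb; exact hxb.1
        obtain ⟨y, hyO, hyP, hyB⟩ := mem_closure_iff.1 hx O hO hxO
        exact hyB ⟨b, hb, by rw [hbO]; exact ⟨hyO, hyP⟩⟩
      have h2 : f x ≠ 0 := by
        intro h0
        apply h1
        rw [hf]
        exact h0
      exact lt_of_le_of_ne (hf01 x).1 (Ne.symm h2)
  choose F hF0 hFT hFO using hF
  have hDk : ∀ k, DimLT (D k) 1 := fun k => dimLT_of_covDim (hD k).2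
  have hDcl : ∀ k, IsClosed (D k) := fun k => (hD k).1
  -- the inequality
  have key : ∀ n, DimLT X n → IndLT n X := by
    intro n hn
    cases n with
    | zero => exact isEmpty_of_dimLT hn
    | succ m =>
      apply hBR X (m + 1)
      intro A C hA hC hAC
      have hdis : Disjoint A C := by
        rw [inter_univ] at hAC
        exact disjoint_iff_inter_eq_empty.2 hAC
      obtain ⟨u0, hu0, hu1, hu01⟩ := exists_continuous_zero_one_of_isClosed hA hC hdis
      let f : ℕ → X →ᵇ ℝ := fun i => Nat.casesOn i (bcf u0 hu01)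
        (fun j => F j.unpair.1 j.unpair.2.unpair.1)
      let T : ℕ → Set X := fun i => Nat.casesOn i ∅
        (fun j => P j.unpair.1 \ ⋃₀ B j.unpair.1 j.unpair.2.unpair.1)
      let ε : ℕ → ℝ := fun i => Nat.casesOn i (1 / 4)
        (fun j => 1 / ((j.unpair.2.unpair.2 : ℝ) + 1))
      obtain ⟨g, hadm, hgA, hgD⟩ := hGEN X (m + 1) hn f T ε D
        (by
          intro i
          cases i with
          | zero => change (0 : ℝ) < 1 / 4; norm_num
          | succ j => exact Nat.one_div_pos_of_nat)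
        (by
          intro i x
          cases i with
          | zero => exact (hu01 x).1
          | succ j => exact hF0 _ _ x)
        (by
          intro i x hx
          cases i with
          | zero => exact absurd hx (notMem_empty x)
          | succ j => exact hFT _ _ x hx)
        rfl hDcl hDk
      obtain ⟨t, ht1, ht2, htE, htD, htq⟩ := hLVL X m (fun i x => g i x) E D hgA hgD hE
        (1 / 4) (3 / 4) (by norm_num) (by norm_num)
      have hg0 : ∀ x, |g 0 x - u0 x| ≤ 1 / 4 := by
        intro x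
        have h1 : ‖g 0 - f 0‖ ≤ 1 / 4 := (hadm 0).2.2
        have h2 := (g 0 - f 0).norm_coe_le_norm x
        rw [Real.norm_eq_abs] at h2
        exact h2.trans h1
      have hLY : {x | g 0 x = t} ⊆ ⋃ j, Y j := by
        intro x hx
        have hx1 : x ∈ (⋃ k, Y k) ∪ E ∪ (⋃ k, D k) := by rw [hcov]; trivial
        rcases hx1 with (h | h) | h
        · exact h
        · exact absurd hx (htE x h)
        · obtain ⟨k, hk⟩ := mem_iUnion.1 h
          exact absurd hx (htD k x hk)
      have hL : RInd m {x | g 0 x = t} := by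
        refine hDEC X (⋃ j, Y j) {x | g 0 x = t} P B (fun i x => g i x) m
          (fun i => (g i).continuous) hLY hP1 hP2 hB ?_ ?_
        · intro k r x hx
          have hpos := hFO k r x hx
          obtain ⟨l, hl⟩ := exists_nat_one_div_lt hpos
          have e1 : (Nat.pair k (Nat.pair r l)).unpair.1 = k := by rw [Nat.unpair_pair]
          have e2 : (Nat.pair k (Nat.pair r l)).unpair.2.unpair.1 = r := by
            rw [Nat.unpair_pair, Nat.unpair_pair]
          have e3 : (Nat.pair k (Nat.pair r l)).unpair.2.unpair.2 = l := by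
            rw [Nat.unpair_pair, Nat.unpair_pair]
          obtain ⟨h0, hT, hε⟩ := hadm (Nat.pair k (Nat.pair r l) + 1)
          have hf1 : f (Nat.pair k (Nat.pair r l) + 1) = F k r := by
            change F _ _ = F k r
            rw [e1, e2]
          have hT1 : T (Nat.pair k (Nat.pair r l) + 1) = P k \ ⋃₀ B k r := by
            change P _ \ ⋃₀ B _ _ = P k \ ⋃₀ B k r
            rw [e1, e2]
          have hε1 : ε (Nat.pair k (Nat.pair r l) + 1) = 1 / ((l : ℝ) + 1) := by
            change 1 / ((((Nat.pair k (Nat.pair r l)).unpair.2.unpair.2 : ℕ) : ℝ) + 1) = _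
            rw [e3]
          rw [hf1, hε1] at hε
          rw [hT1] at hT
          refine ⟨Nat.pair k (Nat.pair r l) + 1, by omega, ?_, ?_⟩
          · have h2 := (g (Nat.pair k (Nat.pair r l) + 1) - F k r).norm_coe_le_norm x
            rw [Real.norm_eq_abs] at h2
            have h3 : |g (Nat.pair k (Nat.pair r l) + 1) x - F k r x| ≤ 1 / ((l : ℝ) + 1) :=
              h2.trans hε
            have h4 := (abs_le.1 h3).1
            change 0 < g (Nat.pair k (Nat.pair r l) + 1) x
            linarith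
          · intro y hy hgy
            by_contra hyB
            have := hT y ⟨hy, hyB⟩
            change 0 < g (Nat.pair k (Nat.pair r l) + 1) y at hgy
            linarith
        · intro x hx s hs
          by_contra hcard
          rw [not_lt] at hcard
          obtain ⟨q, ρ, h1, h2, h3, h4⟩ := inj_of_card (P := fun i ρ => g i x = (ρ : ℝ)) s m
            hs hcard
          exact htq q h1 h2 ρ h3 ⟨x, hx, h4⟩
      refine ⟨{x | g 0 x < t}, {x | t < g 0 x}, isOpen_lt (g 0).continuous continuous_const,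
        isOpen_lt continuous_const (g 0).continuous, ?_, ?_, ?_, ?_⟩
      · rintro x ⟨hx, -⟩
        have h1 := (abs_le.1 (hg0 x)).2
        have h2 : u0 x = 0 := hu0 hx
        change g 0 x < t
        linarith
      · rintro x ⟨hx, -⟩
        have h1 := (abs_le.1 (hg0 x)).1
        have h2 : u0 x = 1 := hu1 hx
        change t < g 0 x
        linarith
      · rw [eq_empty_iff_forall_notMem]
        rintro x ⟨⟨h1, h2⟩, -⟩
        change g 0 x < t at h1
        change t < g 0 x at h2
        linarith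
      · have h1 : (univ : Set X) \ ({x | g 0 x < t} ∪ {x | t < g 0 x}) = {x | g 0 x = t} := by
          ext x
          simp only [mem_sdiff, mem_univ, true_and, mem_union, mem_setOf_eq, not_or, not_lt]
          constructor
          · rintro ⟨h1, h2⟩
            exact le_antisymm h2 h1
          · intro h
            exact ⟨h.ge, h.le⟩
        rw [h1]
        exact hL
  unfold Ind covDim
  congr 1
  funext n
  exact propext ⟨hDI X n, key n⟩

end NMD
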