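import Pool.Agent.NMD.Stmts2

/-!
# MAIN2: assembly of the general form
-/

namespace NMD

open Set Topology

open scoped BoundedContinuousFunction

universe u

namespace MAIN2

theorem isEmpty_of {X : Type u} [TopologicalSpace X] (h : DimLT X 0) : IsEmpty X := by
  refine ⟨fun x => ?_⟩
  obtain ⟨𝒱, hf, -, hc, -, hn⟩ := h {univ} (finite_singleton _) (by
    rintro _ rfl
    exact isOpen_univ) (sUnion_singleton _)
  have hx : x ∈ ⋃₀ 𝒱 := by rw [hc]; trivial
  obtain ⟨V, hV, hxV⟩ := hx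
  have h1 : {V ∈ 𝒱 | x ∈ V}.ncard = 0 := Nat.le_zero.1 (hn x)
  rw [ncard_eq_zero (hf.subset fun V hV => hV.1)] at h1
  exact (eq_empty_iff_forall_notMem.1 h1 V) ⟨hV, hxV⟩

theorem dimLT_one {X : Type u} [TopologicalSpace X] (h : covDim X ≤ 0) : DimLT X 1 := by
  classical
  unfold covDim dimVal at h
  split_ifs at h with h1
  · have h2 : DimLT X (Nat.find h1) := Nat.find_spec h1
    refine h2.mono ?_
    have h3 : ((Nat.find h1 : ℤ) - 1 : ℤ) ≤ 0 := by
      have : (((Nat.find h1 : ℤ) - 1 : ℤ) : WithTop ℤ) ≤ ((0 : ℤ) : WithTop ℤ) := h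
      exact WithTop.coe_le_coe.1 this
    omega
  · exact absurd h (by
      rw [top_le_iff]
      exact WithTop.zero_ne_top)

/-- the data of the spaces `Z k` -/
theorem scd_univ (hSDB : S_SDB.{u}) (hFIN : S_FIN.{u}) {Z : Type u} [TopologicalSpace Z]
    (hZ : Developable Z) (h : SigmaFinMet Z) : SCD (univ : Set Z) := by
  obtain ⟨F, hF, hc⟩ := h
  refine SCD.of_iUnion F (fun l => ⟨F l, (hF l).1, (inter_univ _).symm⟩) hc fun l => ?_
  obtain ⟨q, M, e, hM⟩ := (hF l).2
  rw [e]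
  exact hFIN Z hZ q M fun j => hSDB Z (M j) (hM j)

/-- a bounded function with a given closed zero set -/
theorem exists_fun {X : Type u} [TopologicalSpace X] [PerfectlyNormalSpace X] {s : Set X}
    (hs : IsClosed s) : ∃ f : X →ᵇ ℝ, (∀ x, 0 ≤ f x) ∧ ∀ x, f x = 0 ↔ x ∈ s := by
  obtain ⟨f, hf, h1⟩ := perfectlyNormalSpace_iff_forall_isClosed_preimage_zero.1 inferInstance s hs
  refine ⟨⟨f, 1, fun _ _ => Real.dist_le_of_mem_Icc_01 (h1 _) (h1 _)⟩, fun x => (h1 x).1,
    fun x => ?_⟩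
  rw [hf]
  rfl

/-- the four numbers coded by a number -/
def c1 (n : ℕ) : ℕ := n.unpair.1
def c2 (n : ℕ) : ℕ := n.unpair.2.unpair.1
def c3 (n : ℕ) : ℕ := n.unpair.2.unpair.2.unpair.1
def c4 (n : ℕ) : ℕ := n.unpair.2.unpair.2.unpair.2

theorem exists_code (a b c d : ℕ) : ∃ n, c1 n = a ∧ c2 n = b ∧ c3 n = c ∧ c4 n = d :=
  ⟨Nat.pair a (Nat.pair b (Nat.pair c d)), by simp [c1, c2, c3, c4]⟩

/-- the step `n = m + 1` -/
theorem step (hSDB : S_SDB.{u}) (hPN : S_PN.{u}) (hFIN : S_FIN.{u}) (hBR : S_BR.{u})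
    (hGEN : S_GEN.{u}) (hLVL : S_LVL.{u}) (hDEC : S_DEC2.{u})
    (X : Type u) [TopologicalSpace X] [NormalSpace X] (hX : IsMoore X) (Y E : Set X)
    (D : ℕ → Set X) (hY : Res Y) (hE : Cardinal.mk E < Cardinal.continuum)
    (hD : ∀ k, IsClosed (D k) ∧ covDim (D k) ≤ 0) (hc : Y ∪ E ∪ (⋃ k, D k) = univ) (m : ℕ)
    (hn : DimLT X (m + 1)) : IndLT (m + 1) X := by
  classical
  refine hBR X (m + 1) ?_
  intro A B hA hB hAB
  obtain ⟨Z, hZt, h, hZ, hcont, hbase⟩ := hY
  have hPX : PerfectlyNormalSpace X := hPN X hX.2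
  have hPZ : ∀ k, PerfectlyNormalSpace (Z k) := fun k => by
    have := (hZ k).1
    exact hPN (Z k) (hZ k).2.1.2
  have hS : ∀ k, ∃ P : ℕ → Set (Z k), (∀ l, IsClosed (P l)) ∧ ⋃ l, P l = univ ∧
      ∀ l, ∃ C : ℕ → Set (Set (Z k)), IsSDB (P l) C := by
    intro k
    obtain ⟨P, h1, h2, h3⟩ := scd_univ hSDB hFIN (hZ k).2.1.2 (hZ k).2.2
    refine ⟨P, fun l => ?_, h2, h3⟩
    obtain ⟨C, hC, e⟩ := h1 l
    rw [e, inter_univ]
    exact hC
  choose P hPc hPu hPB using hS
  choose C hC using hPB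
  -- the sets `T` and the functions `f`
  let T0 : ℕ → ℕ → ℕ → Set X := fun k l p => Subtype.val '' {y : Y | h k y ∈ P k l \ ⋃₀ C k l p}
  have hf0 : ∀ k l p, ∃ f : X →ᵇ ℝ, (∀ x, 0 ≤ f x) ∧ ∀ x, f x = 0 ↔ x ∈ closure (T0 k l p) :=
    fun k l p => exists_fun isClosed_closure
  choose f0 hf0n hf0z using hf0
  obtain ⟨u, hu0, hu1, hu⟩ := exists_bounded_zero_one_of_closed hA hB (by
    rw [Set.disjoint_iff_inter_eq_empty, ← inter_univ (A ∩ B)]
    exact hAB)
  let f : ℕ → X →ᵇ ℝ := fun i => Nat.casesOn i u fun j => f0 (c1 j) (c2 j) (c3 j)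
  let T : ℕ → Set X := fun i => Nat.casesOn i ∅ fun j => T0 (c1 j) (c2 j) (c3 j)
  let ε : ℕ → ℝ := fun i => Nat.casesOn i (1 / 4) fun j => 1 / ((c4 j : ℝ) + 1)
  obtain ⟨g, hg, hgA, hgD⟩ := hGEN X (m + 1) hn f T ε D (by
      intro i
      cases i with
      | zero => norm_num [ε]
      | succ j =>
        change (0 : ℝ) < 1 / ((c4 j : ℝ) + 1)
        positivity) (by
      intro i x
      cases i with
      | zero => exact (hu x).1
      | succ j => exact hf0n _ _ _ x) (by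
      intro i x hx
      cases i with
      | zero => exact absurd hx (notMem_empty x)
      | succ j => exact (hf0z _ _ _ x).2 (subset_closure hx)) rfl (fun k => (hD k).1)
    (fun k => dimLT_one (hD k).2)
  have hg0 : ∀ x, |g 0 x - u x| ≤ 1 / 4 := fun x => by
    exact ((g 0 - u).norm_coe_le_norm x).trans (hg 0).2.2
  obtain ⟨t, ht1, ht2, htE, htD, htq⟩ := hLVL X m (fun i x => g i x) E D hgA hgD hE (1 / 4) (3 / 4)
    (by norm_num) (by norm_num)
  refine ⟨{x | g 0 x < t}, {x | t < g 0 x}, isOpen_lt (g 0).continuous continuous_const,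
    isOpen_lt continuous_const (g 0).continuous, ?_, ?_, ?_, ?_⟩
  · rintro x ⟨hx, _⟩
    have h1 : u x = 0 := hu0 hx
    have h2 := hg0 x
    rw [h1, abs_le] at h2
    change g 0 x < t
    linarith [h2.2]
  · rintro x ⟨hx, _⟩
    have h1 : u x = 1 := hu1 hx
    have h2 := hg0 x
    rw [h1, abs_le] at h2
    change t < g 0 x
    linarith [h2.1]
  · rw [eq_empty_iff_forall_notMem]
    rintro x ⟨⟨h1, h2⟩, _⟩
    exact lt_asymm (show g 0 x < t from h1) h2
  · have hL : ∀ x ∈ (univ \ ({x | g 0 x < t} ∪ {x | t < g 0 x}) : Set X), g 0 x = t := by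
      rintro x ⟨_, hx⟩
      rcases lt_trichotomy (g 0 x) t with h1 | h1 | h1
      · exact absurd (Or.inl h1) hx
      · exact h1
      · exact absurd (Or.inr h1) hx
    refine hDEC X Y _ Z h P C (fun i x => g i x) m (fun i => (g i).continuous)
      (fun i x => (hg i).1 x) ?_ hcont hPc hPu hC ?_ ?_ ?_
    · intro x hx
      have hxt := hL x hx
      have h1 : x ∈ Y ∪ E ∪ ⋃ k, D k := by rw [hc]; trivial
      rcases h1 with (h1 | h1) | h1
      · exact h1
      · exact absurd hxt (htE x h1)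
      · obtain ⟨k, hk⟩ := mem_iUnion.1 h1
        exact absurd hxt (htD k x hk)
    · intro y U hU hyU
      obtain ⟨k, O, hO, h1, h2⟩ := hbase y (Subtype.val ⁻¹' U) (hU.preimage continuous_subtype_val)
        hyU
      exact ⟨k, O, hO, h1, fun y' hy' => h2 hy'⟩
    · intro k l p y hy
      obtain ⟨b, hb, hyb⟩ := hy
      obtain ⟨O, hO, e⟩ := (hC k l).op p b hb
      have h1 : y.1 ∉ closure (T0 k l p) := by
        intro h1
        have h2 : IsOpen (h k ⁻¹' O) := hO.preimage (hcont k)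
        obtain ⟨W, hW, eW⟩ := isOpen_induced_iff.1 h2
        have hyW : y.1 ∈ W := by
          have h3 : y ∈ h k ⁻¹' O := by
            rw [e] at hyb
            exact hyb.1
          rw [← eW] at h3
          exact h3
        obtain ⟨x, hxW, ⟨y', hy', rfl⟩⟩ := mem_closure_iff.1 h1 W hW hyW
        have h4 : y' ∈ h k ⁻¹' O := by
          rw [← eW]
          exact hxW
        refine hy'.2 ⟨b, hb, ?_⟩
        rw [e]
        exact ⟨h4, hy'.1⟩
      have h5 : 0 < f0 k l p y := lt_of_le_of_ne (hf0n k l p y) fun h6 =>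
        h1 ((hf0z k l p y).1 h6.symm)
      obtain ⟨N, hN⟩ := exists_nat_one_div_lt h5
      obtain ⟨j, e1, e2, e3, e4⟩ := exists_code k l p N
      have hTj : T (j + 1) = T0 k l p := by
        change T0 (c1 j) (c2 j) (c3 j) = _
        rw [e1, e2, e3]
      have hfj : f (j + 1) = f0 k l p := by
        change f0 (c1 j) (c2 j) (c3 j) = _
        rw [e1, e2, e3]
      have hεj : ε (j + 1) = 1 / ((N : ℝ) + 1) := by
        change 1 / ((c4 j : ℝ) + 1) = _
        rw [e4]
      refine ⟨j + 1, by omega, ?_, ?_⟩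
      · have h6 := ((g (j + 1) - f (j + 1)).norm_coe_le_norm y.1).trans (hg (j + 1)).2.2
        rw [hfj, hεj] at h6
        have h7 : |g (j + 1) y.1 - f0 k l p y.1| ≤ 1 / ((N : ℝ) + 1) := by
          simpa [Real.norm_eq_abs] using h6
        rw [abs_le] at h7
        change 0 < g (j + 1) y.1
        linarith [h7.1]
      · intro y' hy' hpos
        by_contra hno
        have h8 : y'.1 ∈ T (j + 1) := by
          rw [hTj]
          exact ⟨y', ⟨hy', hno⟩, rfl⟩
        have h9 := (hg (j + 1)).2.1 y'.1 h8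
        exact absurd h9 (ne_of_gt hpos)
    · intro x hx s hs
      by_contra hcard
      rw [not_lt] at hcard
      obtain ⟨s', hs', hcs'⟩ := Finset.exists_subset_card_eq hcard
      let q : Fin m → ℕ := fun j => s'.orderEmbOfFin hcs' j
      have hqm : ∀ j, q j ∈ s := fun j => hs' (Finset.orderEmbOfFin_mem s' hcs' j)
      have hρ : ∀ j, ∃ ρ : ℚ, 0 < ρ ∧ g (q j) x = ρ := fun j => (hs _ (hqm j)).2
      choose ρ hρ0 hρe using hρ
      exact htq q (s'.orderEmbOfFin hcs').injective (fun j => (hs _ (hqm j)).1) ρ hρ0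
        ⟨x, hL x hx, hρe⟩

end MAIN2

theorem t_MAIN2 : M_MAIN2.{u} := by
  intro hSDB hPN hFIN hBR hGEN hLVL hDEC hDI X _ _ hX Y E D hY hE hD hc
  have h : (fun n => IndLT n X) = fun n => DimLT X n := by
    funext n
    refine propext ⟨fun h => hDI X n h, fun h => ?_⟩
    cases n with
    | zero => exact MAIN2.isEmpty_of h
    | succ m => exact MAIN2.step hSDB hPN hFIN hBR hGEN hLVL hDEC X hX Y E D hY hE hD hc m h
  unfold Ind covDim
  rw [h]

end NMD
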