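import Pool.Agent.NMD.Stmts

/-!
# MP_dfc59c_gt: module PN

A normal developable space is perfectly normal.
-/

set_option autoImplicit false

namespace NMD

open Set Topology

universe u

theorem t_PN : S_PN.{u} := by
  intro X _ _ hD
  obtain ⟨G, hG, hst⟩ := hD
  refine ⟨?_⟩
  intro F hF
  rw [isGδ_iff_eq_iInter_nat]
  refine ⟨fun n => ⋃₀ {U ∈ G n | (U ∩ F).Nonempty}, ?_, ?_⟩
  · intro n
    apply isOpen_sUnion
    rintro U ⟨hU, -⟩
    exact (hG n).1 U hU
  · apply Subset.antisymm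
    · intro x hx
      rw [mem_iInter]
      intro n
      have hxn : x ∈ ⋃₀ G n := by
        rw [(hG n).2]
        trivial
      obtain ⟨U, hU, hxU⟩ := hxn
      exact ⟨U, ⟨hU, x, hxU, hx⟩, hxU⟩
    · intro x hx
      by_contra hxF
      obtain ⟨n, hn⟩ := hst x Fᶜ hF.isOpen_compl hxF
      rw [mem_iInter] at hx
      obtain ⟨U, ⟨hU, y, hyU, hyF⟩, hxU⟩ := hx n
      exact hn ⟨U, ⟨hU, hxU⟩, hyU⟩ hyF

end NMD
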