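import Pool.Agent.NMD.Stmts2

/-!
# NMD, module PROD: products with a separable metrizable space
-/

namespace NMD

open Set Topology

universe u

namespace PROD

theorem main (V : Type u) [TopologicalSpace V] [PerfectlyNormalSpace V] (W : Type)
    [TopologicalSpace W] [PerfectlyNormalSpace W] [SecondCountableTopology W] :
    PerfectlyNormalSpace (V × W) := by
  rw [perfectlyNormalSpace_iff_forall_isClosed_preimage_zero]
  intro s hs
  have hU : IsOpen sᶜ := hs.isOpen_compl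
  have hbas : TopologicalSpace.IsTopologicalBasis (TopologicalSpace.countableBasis W ∪ {∅}) := by
    refine TopologicalSpace.isTopologicalBasis_of_isOpen_of_nhds ?_ ?_
    · rintro u (hu | hu)
      · exact TopologicalSpace.isOpen_of_mem_countableBasis hu
      · rw [mem_singleton_iff] at hu
        rw [hu]
        exact isOpen_empty
    · intro a u ha hu
      obtain ⟨v, hv, h1, h2⟩ :=
        (TopologicalSpace.isBasis_countableBasis W).exists_subset_of_mem_open ha hu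
      exact ⟨v, Or.inl hv, h1, h2⟩
  obtain ⟨B, hB⟩ := ((TopologicalSpace.countable_countableBasis W).union
    (countable_singleton ∅)).exists_eq_range ⟨∅, Or.inr rfl⟩
  rw [hB] at hbas
  have hBo : ∀ n, IsOpen (B n) := fun n => hbas.isOpen ⟨n, rfl⟩
  let U : ℕ → Set V := fun n => ⋃₀ {O | IsOpen O ∧ O ×ˢ B n ⊆ sᶜ}
  have hUo : ∀ n, IsOpen (U n) := fun n => isOpen_sUnion fun O hO => hO.1
  have key : ∀ p : V × W, p ∉ s ↔ ∃ n, p.1 ∈ U n ∧ p.2 ∈ B n := by
    rintro ⟨v, x⟩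
    constructor
    · intro hp
      obtain ⟨O, Q, hO, hQ, hv, hx, hOQ⟩ := isOpen_prod_iff.1 hU v x hp
      obtain ⟨_, ⟨n, rfl⟩, hxn, hn⟩ := hbas.exists_subset_of_mem_open hx hQ
      refine ⟨n, ⟨O, ⟨hO, ?_⟩, hv⟩, hxn⟩
      exact (prod_mono_right hn).trans hOQ
    · rintro ⟨n, ⟨O, ⟨-, hO⟩, hv⟩, hx⟩
      exact hO ⟨hv, hx⟩
  have hf : ∀ n, ∃ f : C(V, ℝ), (U n)ᶜ = f ⁻¹' {0} ∧ ∀ x, f x ∈ Icc (0 : ℝ) 1 := fun n =>
    perfectlyNormalSpace_iff_forall_isClosed_preimage_zero.1 inferInstance _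
      (hUo n).isClosed_compl
  have hg : ∀ n, ∃ f : C(W, ℝ), (B n)ᶜ = f ⁻¹' {0} ∧ ∀ x, f x ∈ Icc (0 : ℝ) 1 := fun n =>
    perfectlyNormalSpace_iff_forall_isClosed_preimage_zero.1 inferInstance _
      (hBo n).isClosed_compl
  choose f hf0 hf1 using hf
  choose g hg0 hg1 using hg
  have hnn : ∀ (n : ℕ) (p : V × W), 0 ≤ f n p.1 * g n p.2 := fun n p =>
    mul_nonneg (hf1 n _).1 (hg1 n _).1
  have hle : ∀ (n : ℕ) (p : V × W), f n p.1 * g n p.2 ≤ 1 := fun n p =>
    mul_le_one₀ (hf1 n _).2 (hg1 n _).1 (hg1 n _).2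
  have hsb (p : V × W) (n : ℕ) : ‖f n p.1 * g n p.2 * (1 / 2 / 2 ^ n)‖ ≤ 1 / 2 / 2 ^ n := by
    rw [Real.norm_eq_abs, abs_of_nonneg (mul_nonneg (hnn n p) (by positivity))]
    calc f n p.1 * g n p.2 * (1 / 2 / 2 ^ n) ≤ 1 * (1 / 2 / 2 ^ n) :=
          mul_le_mul_of_nonneg_right (hle n p) (by positivity)
      _ = 1 / 2 / 2 ^ n := one_mul _
  have hsx (p : V × W) : Summable fun n => f n p.1 * g n p.2 * (1 / 2 / 2 ^ n) :=
    (summable_geometric_two' 1).of_norm_bounded fun n => hsb p n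
  let h : C(V × W, ℝ) :=
    { toFun p := ∑' n, f n p.1 * g n p.2 * (1 / 2 / 2 ^ n)
      continuous_toFun :=
        continuous_tsum (fun n => by fun_prop) (summable_geometric_two' 1) fun n p => hsb p n }
  have hnn' : ∀ (p : V × W) (n : ℕ), 0 ≤ f n p.1 * g n p.2 * (1 / 2 / 2 ^ n) := fun p n =>
    mul_nonneg (hnn n p) (by positivity)
  refine ⟨h, ?_, fun p => ⟨tsum_nonneg (hnn' p), ?_⟩⟩
  · ext p
    rw [mem_preimage, mem_singleton_iff]
    constructor
    · intro hp
      have h0 : ∀ n, f n p.1 * g n p.2 * (1 / 2 / 2 ^ n) = 0 := by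
        intro n
        have h1 : ¬ (p.1 ∈ U n ∧ p.2 ∈ B n) := fun hc => (key p).2 ⟨n, hc⟩ hp
        by_cases hu : p.1 ∈ U n
        · have h2 : p.2 ∈ (B n)ᶜ := fun hb => h1 ⟨hu, hb⟩
          rw [hg0 n] at h2
          have h3 : g n p.2 = 0 := h2
          rw [h3, mul_zero, zero_mul]
        · have h2 : p.1 ∈ (U n)ᶜ := hu
          rw [hf0 n] at h2
          have h3 : f n p.1 = 0 := h2
          rw [h3, zero_mul, zero_mul]
      show ∑' n, f n p.1 * g n p.2 * (1 / 2 / 2 ^ n) = 0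
      simp only [h0, tsum_zero]
    · intro hp
      by_contra hps
      obtain ⟨n, hu, hb⟩ := (key p).1 hps
      have h1 : f n p.1 ≠ 0 := by
        intro hc
        have : p.1 ∈ (U n)ᶜ := by
          rw [hf0 n]
          exact hc
        exact this hu
      have h2 : g n p.2 ≠ 0 := by
        intro hc
        have : p.2 ∈ (B n)ᶜ := by
          rw [hg0 n]
          exact hc
        exact this hb
      have h3 : 0 < f n p.1 * g n p.2 * (1 / 2 / 2 ^ n) :=
        mul_pos (mul_pos (lt_of_le_of_ne (hf1 n _).1 h1.symm)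
          (lt_of_le_of_ne (hg1 n _).1 h2.symm)) (by positivity)
      have h4 : f n p.1 * g n p.2 * (1 / 2 / 2 ^ n) ≤ h p :=
        (hsx p).le_tsum n fun j _ => hnn' p j
      rw [hp] at h4
      exact absurd h3 (not_lt.2 h4)
  · calc h p ≤ ∑' n : ℕ, 1 / 2 / 2 ^ n := by
          refine (hsx p).tsum_le_tsum (fun n => ?_) (summable_geometric_two' 1)
          exact (le_abs_self _).trans (hsb p n)
      _ = 1 := tsum_geometric_two' 1

end PROD

theorem t_PROD : S_PROD.{u} := by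
  intro V _ _
  exact PROD.main V (ℕ → ℝ)

end NMD
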