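import Pool.Agent.NMD.Stmts2

/-!
# SFMP: finite products of spaces with `SigmaFinMet`
-/

namespace NMD

open Set Topology

universe u

namespace SFMP

variable {k : ℕ} {W : Fin k → Type u} [∀ i, TopologicalSpace (W i)]

theorem box_metrizable (s : ∀ i, Set (W i)) (h : ∀ i, TopologicalSpace.MetrizableSpace (s i)) :
    TopologicalSpace.MetrizableSpace (Set.pi univ s) := by
  let f : (Set.pi univ s) → ∀ i, s i := fun x i => ⟨x.1 i, x.2 i (mem_univ i)⟩
  have h1 : IsEmbedding f := by
    refine ⟨⟨?_⟩, ?_⟩
    · have h2 : (instTopologicalSpaceSubtype : TopologicalSpace (Set.pi univ s)) =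
        TopologicalSpace.induced (fun x : (Set.pi univ s) => x.1) Pi.topologicalSpace := rfl
      rw [h2]
      simp only [Pi.topologicalSpace, induced_iInf, induced_compose, instTopologicalSpaceSubtype]
      rfl
    · intro x y hxy
      apply Subtype.ext
      funext i
      exact congrArg (fun z : ∀ i, s i => (z i).1) hxy
  exact h1.metrizableSpace

theorem finMet_box (s : ∀ i, Set (W i)) (h : ∀ i, FinMet (s i)) : FinMet (Set.pi univ s) := by
  choose q M hM hmet using h
  let e := Fintype.equivFin (∀ i, Fin (q i))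
  refine ⟨Fintype.card (∀ i, Fin (q i)), fun n => Set.pi univ fun i => M i (e.symm n i), ?_, ?_⟩
  · ext x
    rw [mem_iUnion]
    constructor
    · intro hx
      have h1 : ∀ i, ∃ j, x i ∈ M i j := by
        intro i
        have h2 := hx i (mem_univ i)
        rw [hM i] at h2
        exact mem_iUnion.1 h2
      choose j hj using h1
      exact ⟨e j, fun i _ => by rw [Equiv.symm_apply_apply]; exact hj i⟩
    · rintro ⟨n, hn⟩ i hi
      rw [hM i]
      exact mem_iUnion.2 ⟨_, hn i hi⟩
  · intro n
    exact box_metrizable _ fun i => hmet i _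

end SFMP

theorem t_SFMP : S_SFMP.{u} := by
  intro k W _ h
  choose F hF hU using h
  let bx : Option (Fin k → ℕ) → Set (∀ i, W i) := fun o =>
    match o with
    | none => ∅
    | some l => Set.pi univ fun i => F i (l i)
  have hbx : ∀ o, IsClosed (bx o) ∧ FinMet (bx o) := by
    rintro (_ | l)
    · refine ⟨isClosed_empty, 0, fun j => ∅, ?_, fun j => j.elim0⟩
      change (∅ : Set (∀ i, W i)) = _
      simp
    · exact ⟨isClosed_set_pi fun i _ => (hF i (l i)).1, SFMP.finMet_box _ fun i => (hF i (l i)).2⟩
  refine ⟨fun n => bx (Encodable.decode n), fun n => hbx _, ?_⟩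
  rw [eq_univ_iff_forall]
  intro x
  have h1 : ∀ i, ∃ l, x i ∈ F i l := by
    intro i
    have h2 : x i ∈ ⋃ l, F i l := by
      rw [hU i]
      exact mem_univ _
    exact mem_iUnion.1 h2
  choose l hl using h1
  refine mem_iUnion.2 ⟨Encodable.encode l, ?_⟩
  change x ∈ bx (Encodable.decode (Encodable.encode l))
  rw [Encodable.encodek]
  exact fun i _ => hl i

end NMD
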