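import Pool.Agent.NMD.Stmts2
import Pool.Agent.NMD.DEVP
import Pool.Agent.NMD.SFMP
import Pool.Agent.NMD.COR

/-!
# Examples of spaces with the property `Res`
-/

namespace NMD

open Set Topology

universe u

/-- a metrizable space -/
theorem sigmaFinMet_of_metrizable (Y : Type u) [TopologicalSpace Y]
    [TopologicalSpace.MetrizableSpace Y] : SigmaFinMet Y := by
  refine ⟨fun _ => univ, fun _ => ⟨isClosed_univ, 1, fun _ => univ, (iUnion_const univ).symm,
    fun _ => ?_⟩, iUnion_const univ⟩
  exact (IsEmbedding.subtypeVal (p := fun y : Y => y ∈ (univ : Set Y))).metrizableSpace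

/-- a finite union of metrizable subspaces -/
theorem sigmaFinMet_of_finMet (Y : Type u) [TopologicalSpace Y] (h : FinMet (univ : Set Y)) :
    SigmaFinMet Y :=
  ⟨fun _ => univ, fun _ => ⟨isClosed_univ, h⟩, iUnion_const univ⟩

/-- normal Moore spaces that are countable unions of closed subspaces which are finite unions of
metrizable subspaces -/
theorem res_of_sigmaFinMet (Y : Type u) [TopologicalSpace Y] [NormalSpace Y] (hY : IsMoore Y)
    (h : SigmaFinMet Y) : Res Y :=
  ⟨fun _ => Y, fun _ => inferInstance, fun _ => id, fun _ => ⟨inferInstance, hY, h⟩,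
    fun _ => continuous_id, fun _ U hU hy => ⟨0, U, hU, hy, subset_rfl⟩⟩

/-- subspaces of countable products of Moore spaces with `SigmaFinMet` all of whose finite subproducts are
normal -/
theorem res_of_product (W : ℕ → Type u) [∀ i, TopologicalSpace (W i)]
    (hW : ∀ i, IsMoore (W i) ∧ SigmaFinMet (W i)) (hn : ∀ k : ℕ, NormalSpace (∀ i : Fin k, W i))
    (Y : Type u) [TopologicalSpace Y] (e : Y → ∀ i, W i) (he : IsInducing e) : Res Y := by
  have hreg : ∀ i, RegularSpace (W i) := fun i => (hW i).1.1
  refine ⟨fun k => ∀ i : Fin k, W i, fun _ => inferInstance, fun k y i => e y i, ?_, ?_, ?_⟩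
  · intro k
    refine ⟨hn k, ⟨inferInstance, t_DEVP k (fun i => W i) fun i => (hW i).1.2⟩, ?_⟩
    exact t_SFMP k (fun i => W i) fun i => (hW i).2
  · intro k
    refine continuous_pi fun i => ?_
    exact (continuous_apply (i : ℕ)).comp he.continuous
  · intro y U hU hy
    obtain ⟨O, hO, rfl⟩ := he.isOpen_iff.1 hU
    obtain ⟨I, v, hv, hI⟩ := isOpen_pi_iff.1 hO (e y) hy
    refine ⟨I.sup id + 1, {z | ∀ i : Fin (I.sup id + 1), (i : ℕ) ∈ I → z i ∈ v i}, ?_, ?_, ?_⟩
    · have h1 : {z : ∀ i : Fin (I.sup id + 1), W i |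
          ∀ i : Fin (I.sup id + 1), (i : ℕ) ∈ I → z i ∈ v i} =
          ⋂ i : Fin (I.sup id + 1), {z | (i : ℕ) ∈ I → z i ∈ v i} := by
        ext z
        simp
      rw [h1]
      refine isOpen_iInter_of_finite fun i => ?_
      by_cases hi : (i : ℕ) ∈ I
      · have h2 : {z : ∀ i : Fin (I.sup id + 1), W i | (i : ℕ) ∈ I → z i ∈ v i} =
            (fun z : ∀ i : Fin (I.sup id + 1), W i => z i) ⁻¹' v i := by
          ext z
          simp [hi]
        rw [h2]
        exact (hv i hi).1.preimage (continuous_apply i)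
      · have h2 : {z : ∀ i : Fin (I.sup id + 1), W i | (i : ℕ) ∈ I → z i ∈ v i} = univ := by
          ext z
          simp [hi]
        rw [h2]
        exact isOpen_univ
    · intro i hi
      exact (hv i hi).2
    · intro x hx
      apply hI
      intro i hi
      have h3 : i < I.sup id + 1 := Nat.lt_succ_of_le (Finset.le_sup (f := id) hi)
      exact hx ⟨i, h3⟩ hi

end NMD
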