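import Pool.Agent.NMD.Stmts

/-!
# Metrizable subspaces have `σ`-disjoint bases
-/

namespace NMD

open Set Topology

universe u

namespace SDB

section Metric

variable {T : Type u} [MetricSpace T]

/-- the radius `2⁻ⁿ` -/
noncomputable def rad (n : ℕ) : ℝ := (1 / 2 : ℝ) ^ n

lemma rad_pos (n : ℕ) : 0 < rad n := by
  unfold rad
  positivity

lemma rad_succ (n : ℕ) : rad (n + 1) = rad n / 2 := by
  unfold rad
  rw [pow_succ]
  ring

lemma exists_rad_lt {e : ℝ} (he : 0 < e) : ∃ n, rad n < e :=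
  exists_pow_lt_of_lt_one he (by norm_num)

/-- the kernel of the index `a` -/
def kern (p n : ℕ) (a : T) : Set T :=
  {x | Metric.ball x (rad n) ⊆ Metric.ball a (rad p) ∧
    ∀ b, WellOrderingRel b a → x ∉ Metric.ball b (rad p)}

/-- the member of the base with the index `a` -/
def mem (p n : ℕ) (a : T) : Set T := ⋃ x ∈ kern p n a, Metric.ball x (rad (n + 1))

lemma mem_open (p n : ℕ) (a : T) : IsOpen (mem p n a) :=
  isOpen_biUnion fun _ _ => Metric.isOpen_ball

lemma mem_sub (p n : ℕ) (a : T) : mem p n a ⊆ Metric.ball a (rad p) := by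
  intro z hz
  simp only [mem, mem_iUnion] at hz
  obtain ⟨x, hx, hz⟩ := hz
  refine hx.1 (Metric.ball_subset_ball ?_ hz)
  rw [rad_succ]
  have := rad_pos n
  linarith

lemma disj_aux (p n : ℕ) {a b : T} (h : WellOrderingRel b a) (z : T) (ha : z ∈ mem p n a)
    (hb : z ∈ mem p n b) : False := by
  simp only [mem, mem_iUnion] at ha hb
  obtain ⟨x, hx, hzx⟩ := ha
  obtain ⟨y, hy, hzy⟩ := hb
  apply hx.2 b h
  apply hy.1
  rw [Metric.mem_ball] at hzx hzy ⊢
  rw [rad_succ] at hzx hzy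
  have h1 := dist_triangle_left x y z
  linarith

lemma disj (p n : ℕ) {a b : T} (h : a ≠ b) : Disjoint (mem p n a) (mem p n b) := by
  rw [Set.disjoint_left]
  intro z ha hb
  rcases trichotomous_of (WellOrderingRel : T → T → Prop) a b with h1 | h1 | h1
  · exact disj_aux p n h1 z hb ha
  · exact h h1
  · exact disj_aux p n h1 z ha hb

lemma base (x : T) (V : Set T) (hV : IsOpen V) (hx : x ∈ V) :
    ∃ p n a, x ∈ mem p n a ∧ mem p n a ⊆ V := by
  obtain ⟨e, he, hb⟩ := Metric.isOpen_iff.1 hV x hx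
  obtain ⟨p, hp⟩ := exists_rad_lt (half_pos he)
  have hne : {a : T | x ∈ Metric.ball a (rad p)}.Nonempty := ⟨x, Metric.mem_ball_self (rad_pos p)⟩
  have wf : WellFounded (WellOrderingRel : T → T → Prop) := IsWellFounded.wf
  obtain ⟨a, ha, hmin⟩ := wf.has_min _ hne
  have ha' : x ∈ Metric.ball a (rad p) := ha
  obtain ⟨e', he', hb'⟩ := Metric.isOpen_iff.1 Metric.isOpen_ball x ha'
  obtain ⟨n, hn⟩ := exists_rad_lt he'
  have hk : x ∈ kern p n a := by
    refine ⟨(Metric.ball_subset_ball hn.le).trans hb', fun b hba hxb => ?_⟩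
    exact hmin b hxb hba
  refine ⟨p, n, a, ?_, ?_⟩
  · simp only [mem, mem_iUnion]
    exact ⟨x, hk, Metric.mem_ball_self (rad_pos _)⟩
  · intro z hz
    apply hb
    have h1 := mem_sub p n a hz
    rw [Metric.mem_ball] at h1 ha' ⊢
    have h2 := dist_triangle_right z x a
    linarith

end Metric

end SDB

theorem t_SDB : S_SDB.{u} := by
  intro X _ S hS
  letI : MetricSpace S := TopologicalSpace.metrizableSpaceMetric S
  refine ⟨fun m => range fun a : S => (Subtype.val '' SDB.mem m.unpair.1 m.unpair.2 a : Set X),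
    ⟨?_, ?_, ?_⟩⟩
  · rintro m b ⟨a, rfl⟩
    obtain ⟨O, hO, hO2⟩ := isOpen_induced_iff.1 (SDB.mem_open m.unpair.1 m.unpair.2 a)
    refine ⟨O, hO, ?_⟩
    change (Subtype.val '' SDB.mem m.unpair.1 m.unpair.2 a : Set X) = O ∩ S
    rw [← hO2, Subtype.image_preimage_coe, inter_comm]
  · rintro m b ⟨a, rfl⟩ b' ⟨a', rfl⟩ hne
    have haa : a ≠ a' := by
      rintro rfl
      exact hne rfl
    exact (disjoint_image_iff Subtype.val_injective).2 (SDB.disj _ _ haa)
  · intro x hx U hU hxU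
    obtain ⟨p, n, a, h1, h2⟩ := SDB.base (⟨x, hx⟩ : S) (Subtype.val ⁻¹' U)
      (hU.preimage continuous_subtype_val) hxU
    refine ⟨Nat.pair p n, _, ⟨a, rfl⟩, ?_, ?_⟩
    · simp only [Nat.unpair_pair]
      exact ⟨⟨x, hx⟩, h1, rfl⟩
    · simp only [Nat.unpair_pair]
      rintro _ ⟨z, hz, rfl⟩
      exact h2 hz

end NMD
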