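import Pool.Agent.NMD.Stmts

/-!
# Module SUM: the countable sum theorem for `Ind ≤ 0`
-/

namespace NMD

open Set Topology

universe u

namespace SUM

/-- `F` is zero-dimensional, relative form in a space `Y` -/
def Z {Y : Type u} [TopologicalSpace Y] (F : Set Y) : Prop :=
  ∀ P Q : Set Y, IsClosed P → IsClosed Q → Disjoint P Q →
    ∃ G H : Set Y, IsOpen G ∧ IsOpen H ∧ P ∩ F ⊆ G ∧ Q ∩ F ⊆ H ∧ F ⊆ G ∪ H ∧ G ∩ H ∩ F = ∅

theorem step {Y : Type u} [TopologicalSpace Y] [NormalSpace Y] {F : Set Y} (hF : IsClosed F)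
    (hZ : Z F) {P Q : Set Y} (hP : IsClosed P) (hQ : IsClosed Q) (hPQ : Disjoint P Q) :
    ∃ U V : Set Y, IsOpen U ∧ IsOpen V ∧ P ⊆ U ∧ Q ⊆ V ∧ F ⊆ U ∪ V ∧
      Disjoint (closure U) (closure V) := by
  obtain ⟨G, H, hG, hH, h1, h2, h3, h4⟩ := hZ P Q hP hQ hPQ
  have c0 : IsClosed (P ∪ F \ H) := hP.union (hF.sdiff hH)
  have c1 : IsClosed (Q ∪ F \ G) := hQ.union (hF.sdiff hG)
  have hd : P ∪ F \ H ⊆ (Q ∪ F \ G)ᶜ := by
    rintro x (hx | ⟨hx, hxH⟩) (hy | ⟨hy, hyG⟩)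
    · exact Set.disjoint_left.1 hPQ hx hy
    · exact hyG (h1 ⟨hx, hy⟩)
    · exact hxH (h2 ⟨hy, hx⟩)
    · rcases h3 hx with h | h
      · exact hyG h
      · exact hxH h
  obtain ⟨U, hU, hU1, hU2⟩ := normal_exists_closure_subset c0 c1.isOpen_compl hd
  have hd2 : Q ∪ F \ G ⊆ (closure U)ᶜ := fun x hx hxU => hU2 hxU hx
  obtain ⟨V, hV, hV1, hV2⟩ :=
    normal_exists_closure_subset c1 isClosed_closure.isOpen_compl hd2
  refine ⟨U, V, hU, hV, fun x hx => hU1 (Or.inl hx), fun x hx => hV1 (Or.inl hx), fun x hx => ?_,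
    Set.disjoint_left.2 fun x hx hy => hV2 hy hx⟩
  by_cases hxH : x ∈ H
  · refine Or.inr (hV1 (Or.inr ⟨hx, fun hxG => ?_⟩))
    have : x ∈ G ∩ H ∩ F := ⟨⟨hxG, hxH⟩, hx⟩
    rw [h4] at this
    exact this
  · exact Or.inl (hU1 (Or.inr ⟨hx, hxH⟩))

/-- the sum theorem in a normal space -/
theorem sum {Y : Type u} [TopologicalSpace Y] [NormalSpace Y] (F : ℕ → Set Y)
    (hF : ∀ k, IsClosed (F k)) (hU : ⋃ k, F k = univ) (hZ : ∀ k, Z (F k)) {A B : Set Y}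
    (hA : IsClosed A) (hB : IsClosed B) (hAB : Disjoint A B) :
    ∃ G H : Set Y, IsOpen G ∧ IsOpen H ∧ A ⊆ G ∧ B ⊆ H ∧ G ∪ H = univ ∧ Disjoint G H := by
  have key : ∀ (k : ℕ) (p : {p : Set Y × Set Y // Disjoint (closure p.1) (closure p.2)}),
      ∃ p' : {p : Set Y × Set Y // Disjoint (closure p.1) (closure p.2)},
        IsOpen p'.1.1 ∧ IsOpen p'.1.2 ∧ closure p.1.1 ⊆ p'.1.1 ∧ closure p.1.2 ⊆ p'.1.2 ∧
          F k ⊆ p'.1.1 ∪ p'.1.2 := by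
    intro k p
    obtain ⟨U, V, h1, h2, h3, h4, h5, h6⟩ :=
      step (hF k) (hZ k) isClosed_closure isClosed_closure p.2
    exact ⟨⟨(U, V), h6⟩, h1, h2, h3, h4, h5⟩
  choose nx hnx using key
  have h0 : Disjoint (closure (A, B).1) (closure (A, B).2) := by
    rw [hA.closure_eq, hB.closure_eq]
    exact hAB
  let s : ℕ → {p : Set Y × Set Y // Disjoint (closure p.1) (closure p.2)} :=
    fun n => Nat.rec ⟨(A, B), h0⟩ (fun k p => nx k p) n
  have hs : ∀ k, s (k + 1) = nx k (s k) := fun _ => rfl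
  have hs0 : s 0 = ⟨(A, B), h0⟩ := rfl
  have o1 : ∀ k, IsOpen (s (k + 1)).1.1 := fun k => by rw [hs]; exact (hnx k (s k)).1
  have o2 : ∀ k, IsOpen (s (k + 1)).1.2 := fun k => by rw [hs]; exact (hnx k (s k)).2.1
  have m1 : Monotone fun k => (s k).1.1 := monotone_nat_of_le_succ fun k => by
    show (s k).1.1 ⊆ (s (k + 1)).1.1
    rw [hs]
    exact subset_closure.trans (hnx k (s k)).2.2.1
  have m2 : Monotone fun k => (s k).1.2 := monotone_nat_of_le_succ fun k => by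
    show (s k).1.2 ⊆ (s (k + 1)).1.2
    rw [hs]
    exact subset_closure.trans (hnx k (s k)).2.2.2.1
  refine ⟨⋃ k, (s (k + 1)).1.1, ⋃ k, (s (k + 1)).1.2, isOpen_iUnion o1, isOpen_iUnion o2,
    ?_, ?_, ?_, ?_⟩
  · intro x hx
    exact mem_iUnion.2 ⟨0, m1 (Nat.zero_le 1) hx⟩
  · intro x hx
    exact mem_iUnion.2 ⟨0, m2 (Nat.zero_le 1) hx⟩
  · rw [eq_univ_iff_forall]
    intro x
    have hx : x ∈ ⋃ k, F k := by rw [hU]; exact mem_univ x
    obtain ⟨k, hk⟩ := mem_iUnion.1 hx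
    rcases (hnx k (s k)).2.2.2.2 hk with h | h
    · exact Or.inl (mem_iUnion.2 ⟨k, h⟩)
    · exact Or.inr (mem_iUnion.2 ⟨k, h⟩)
  · rw [Set.disjoint_left]
    intro x hx hy
    obtain ⟨i, hi⟩ := mem_iUnion.1 hx
    obtain ⟨j, hj⟩ := mem_iUnion.1 hy
    have h1 : x ∈ (s (max (i + 1) (j + 1))).1.1 := m1 (le_max_left _ _) hi
    have h2 : x ∈ (s (max (i + 1) (j + 1))).1.2 := m2 (le_max_right _ _) hj
    exact Set.disjoint_left.1 (s (max (i + 1) (j + 1))).2 (subset_closure h1) (subset_closure h2)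

end SUM

/-- S_SUM -/
theorem t_SUM : S_SUM.{u} := by
  intro X _ _ S F hF hU hZ
  have hFS : ∀ k, F k ⊆ S := fun k => by
    rw [← hU]
    exact subset_iUnion F k
  have hF' : ∀ k, IsClosed ((Subtype.val : S → X) ⁻¹' F k) := by
    intro k
    obtain ⟨C, hC, hk⟩ := hF k
    have e : (Subtype.val : S → X) ⁻¹' F k = Subtype.val ⁻¹' C := by
      rw [hk]
      ext x
      exact ⟨fun h => h.1, fun h => ⟨h, x.2⟩⟩
    rw [e]
    exact hC.preimage continuous_subtype_val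
  have hU' : ⋃ k, ((Subtype.val : S → X) ⁻¹' F k) = univ := by
    rw [← preimage_iUnion, hU]
    exact Subtype.coe_preimage_self S
  have hZ' : ∀ k, SUM.Z ((Subtype.val : S → X) ⁻¹' F k) := by
    intro k P Q hP hQ hPQ
    obtain ⟨A, hA, rfl⟩ := isClosed_induced_iff.1 hP
    obtain ⟨B, hB, rfl⟩ := isClosed_induced_iff.1 hQ
    have hd : A ∩ B ∩ F k = ∅ := by
      rw [eq_empty_iff_forall_notMem]
      rintro x ⟨⟨h1, h2⟩, h3⟩
      exact Set.disjoint_left.1 hPQ (show (⟨x, hFS k h3⟩ : S) ∈ Subtype.val ⁻¹' A from h1) h2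
    obtain ⟨G, H, hG, hH, h1, h2, h3, h4⟩ := hZ k A B hA hB hd
    refine ⟨Subtype.val ⁻¹' G, Subtype.val ⁻¹' H, hG.preimage continuous_subtype_val,
      hH.preimage continuous_subtype_val, fun x hx => h1 hx, fun x hx => h2 hx,
      fun x hx => h3 hx, ?_⟩
    rw [eq_empty_iff_forall_notMem]
    rintro x ⟨⟨h5, h6⟩, h7⟩
    have : (x : X) ∈ G ∩ H ∩ F k := ⟨⟨h5, h6⟩, h7⟩
    rw [h4] at this
    exact this
  intro A B hA hB hAB
  have hd : Disjoint ((Subtype.val : S → X) ⁻¹' A) (Subtype.val ⁻¹' B) := by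
    rw [Set.disjoint_left]
    intro x h1 h2
    have : (x : X) ∈ A ∩ B ∩ S := ⟨⟨h1, h2⟩, x.2⟩
    rw [hAB] at this
    exact this
  obtain ⟨G, H, hG, hH, h1, h2, h3, h4⟩ := SUM.sum (fun k => (Subtype.val : S → X) ⁻¹' F k) hF' hU'
    hZ' (hA.preimage continuous_subtype_val) (hB.preimage continuous_subtype_val) hd
  obtain ⟨G', hG', rfl⟩ := isOpen_induced_iff.1 hG
  obtain ⟨H', hH', rfl⟩ := isOpen_induced_iff.1 hH
  refine ⟨G', H', hG', hH', ?_, ?_, ?_, ?_⟩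
  · rintro x ⟨hx, hxS⟩
    exact h1 (show (⟨x, hxS⟩ : S) ∈ Subtype.val ⁻¹' A from hx)
  · rintro x ⟨hx, hxS⟩
    exact h2 (show (⟨x, hxS⟩ : S) ∈ Subtype.val ⁻¹' B from hx)
  · intro x hxS
    have hx : (⟨x, hxS⟩ : S) ∈ Subtype.val ⁻¹' G' ∪ Subtype.val ⁻¹' H' := by
      rw [h3]
      exact mem_univ _
    exact hx
  · rw [eq_empty_iff_forall_notMem]
    rintro x ⟨⟨h5, h6⟩, h7⟩
    exact Set.disjoint_left.1 h4 (show (⟨x, h7⟩ : S) ∈ Subtype.val ⁻¹' G' from h5) h6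

end NMD
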