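import Pool.Agent.NMD.Defs

/-!
# Statements of the modules

`S_X` is the statement of module `X` (file `Pool/Agent/NMD/X.lean`); the module proves
`theorem t_X : S_X` or, if `M_X` is defined, `theorem t_X : M_X` (an implication `S_Y → … → S_X`).
-/

namespace NMD

open Set Topology

open scoped BoundedContinuousFunction

universe u

variable {X : Type u} [TopologicalSpace X]

/-- The subspace `S` is zero-dimensional in the sense of `Ind`: disjoint (relatively) closed sets are
separated by (relatively) clopen sets. `A`, `B`, `G`, `H` are subsets of the whole space. -/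
def ZD (S : Set X) : Prop :=
  ∀ A B : Set X, IsClosed A → IsClosed B → A ∩ B ∩ S = ∅ →
    ∃ G H : Set X, IsOpen G ∧ IsOpen H ∧ A ∩ S ⊆ G ∧ B ∩ S ⊆ H ∧ S ⊆ G ∪ H ∧ G ∩ H ∩ S = ∅

/-- `Ind S ≤ n - 1` for a subspace `S`, with the sets taken in the whole space -/
def RInd : ℕ → Set X → Prop
  | 0, S => S = ∅
  | n + 1, S => ∀ A B : Set X, IsClosed A → IsClosed B → A ∩ B ∩ S = ∅ →
    ∃ G H : Set X, IsOpen G ∧ IsOpen H ∧ A ∩ S ⊆ G ∧ B ∩ S ⊆ H ∧ G ∩ H ∩ S = ∅ ∧
      RInd n (S \ (G ∪ H))

/-- `B m`, `m = 0, 1, …`, are families of pairwise disjoint relatively open subsets of `S`, and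
together they are a base of the subspace `S` -/
structure IsSDB (S : Set X) (B : ℕ → Set (Set X)) : Prop where
  op : ∀ m, ∀ b ∈ B m, ∃ O, IsOpen O ∧ b = O ∩ S
  disj : ∀ m, (B m).PairwiseDisjoint id
  base : ∀ x ∈ S, ∀ U, IsOpen U → x ∈ U → ∃ m, ∃ b ∈ B m, x ∈ b ∧ b ⊆ U

/-- the subspace `S` has a `σ`-disjoint base -/
def SDB (S : Set X) : Prop := ∃ B, IsSDB S B

/-- the subspace `S` is a countable union of relatively closed subspaces with `σ`-disjoint bases -/
def SCD (S : Set X) : Prop :=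
  ∃ P : ℕ → Set X, (∀ k, ∃ C, IsClosed C ∧ P k = C ∩ S) ∧ ⋃ k, P k = S ∧ ∀ k, SDB (P k)

/-! ### Moore spaces -/

/-- Metrizable subspaces have `σ`-disjoint bases. For an open cover `(U α)` of a metric space, well-order
the indices; `S_(n,α) = {x : ball x 2⁻ⁿ ⊆ U α, x ∉ U β for β < α}`, `V_(n,α)` = the union of the balls
of radius `2⁻ⁿ⁻¹` around the points of `S_(n,α)`; for fixed `n` these are disjoint. Take the covers
by the balls of radius `2⁻ᵖ`. -/
def S_SDB : Prop :=
  ∀ (X : Type u) [TopologicalSpace X] (S : Set X), TopologicalSpace.MetrizableSpace S → SDB S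

/-- A normal developable space is perfectly normal: a closed `F` is the intersection of the sets
`⋃ {G ∈ G n | G meets F}`. -/
def S_PN : Prop :=
  ∀ (X : Type u) [TopologicalSpace X] [NormalSpace X], Developable X → PerfectlyNormalSpace X

/-- The property `SCD` is local in developable spaces. Let `O α` be the given open sets, well-ordered, `G n`
the development, `F_(n,α)` the set of the points of `⋃ O α` that are not in `O β` for `β < α` and not in the
star of the complement of `O α` with respect to `G n`. For fixed `n` every `x ∈ ⋃ O α` has a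
neighbourhood (a member of `G n`) that meets at most one `F_(n,α)`; `F_(n,α)` is closed in `⋃ O α`, contained in `O α`,
and they cover `⋃ O α`. If `S ∩ O α = ⋃ k, P_(α,k)` then the union over `α` of the sets
`P_(α,k) ∩ F_(n,α)` is closed in `S` and has a `σ`-disjoint base. -/
def S_LOC : Prop :=
  ∀ (X : Type u) [TopologicalSpace X], Developable X → ∀ S : Set X,
    (∀ x ∈ S, ∃ O, IsOpen O ∧ x ∈ O ∧ SCD (S ∩ O)) → SCD S

/-- If `M` is a dense subset of `F` with a `σ`-disjoint base then the points of `M` have a `σ`-disjoint base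
in `F`: for `b ∈ B m` contained in some `g ∈ G n` take the open set `O ∩ g`, where
`b = O ∩ M`, and intersect with `F`; the traces on the dense set `M` are disjoint, so they are disjoint. -/
def S_DNS : Prop :=
  ∀ (X : Type u) [TopologicalSpace X], Developable X → ∀ F M : Set X, M ⊆ F → F ⊆ closure M →
    SDB M → ∃ B : ℕ → Set (Set X), (∀ m, ∀ b ∈ B m, ∃ O, IsOpen O ∧ b = O ∩ F) ∧
      (∀ m, (B m).PairwiseDisjoint id) ∧
      ∀ x ∈ M, ∀ U, IsOpen U → x ∈ U → ∃ m, ∃ b ∈ B m, x ∈ b ∧ b ⊆ U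

/-- Finite unions. Induction on `q`. Let `G` be the union of all open `O` with `SCD (S ∩ O)`,
`S = ⋃ M j`; by S_LOC `SCD (S ∩ G)`. Let `F = S \ G`. If some `M j ∩ F` is not dense in `F` there are
`x ∈ F` and an open `O ∋ x` with `F ∩ O ⊆ ⋃ i ≠ j, M i`, so `SCD (F ∩ O)` by induction, and
`SCD (S ∩ O)` as open sets are `F_σ` in developable spaces; contradiction. Otherwise
`SDB F` by S_DNS. In both cases `S = (S ∩ G) ∪ F` with `S ∩ G` relatively `F_σ`. -/
def S_FIN : Prop :=
  ∀ (X : Type u) [TopologicalSpace X], Developable X → ∀ (q : ℕ) (M : Fin q → Set X),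
    (∀ j, SDB (M j)) → SCD (⋃ j, M j)

def M_FIN : Prop := S_LOC.{u} → S_DNS.{u} → S_FIN.{u}

/-! ### Zero-dimensional sets -/

/-- `c i`, `i = 0, 1, …`, are functions on `X` that are locally constant on `Z`, and their fibres are a
base of `Z`. For `x ∈ Z` let `Q n x` be the set of the `y ∈ Z` with `c i y = c i x` for all `i ≤ n`, and
`n x` the least `n` such that `Q n x` does not meet `A` or does not meet `B`; `G` is the union of the
`Q (n x) x` that do not meet `B`, `H` is the union of the others (interiors taken in `X`: choose open sets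
of `X` that have the same trace on `Z`). -/
def S_CYL : Prop :=
  ∀ (X : Type u) [TopologicalSpace X] (κ : Type u) (Z : Set X) (c : ℕ → X → κ),
    (∀ i, ∀ x ∈ Z, ∃ O, IsOpen O ∧ x ∈ O ∧ ∀ y ∈ O ∩ Z, c i y = c i x) →
    (∀ x ∈ Z, ∀ U, IsOpen U → x ∈ U → ∃ i, ∀ y ∈ Z, c i y = c i x → y ∈ U) → ZD Z

/-- The countable sum theorem for `Ind ≤ 0`. Step: if `P`, `Q` are closed, `P ∩ Q ∩ S = ∅`, `F` relatively
closed in `S` and `ZD F` then there are open `U ⊇ P ∩ S`, `V ⊇ Q ∩ S`, `F ⊆ U ∪ V`,
`closure U ∩ closure V ∩ S = ∅`. Iterate and take unions. -/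
def S_SUM : Prop :=
  ∀ (X : Type u) [TopologicalSpace X] [CompletelyNormalSpace X] (S : Set X) (F : ℕ → Set X),
    (∀ k, ∃ C, IsClosed C ∧ F k = C ∩ S) → ⋃ k, F k = S → (∀ k, ZD (F k)) → ZD S

/-- Urysohn - Menger. Induction on `q`, removing `Z 0`. Choose open `U1 ⊇ A ∩ S`, `V1 ⊇ B ∩ S` with
`closure U1 ∩ closure V1 ∩ S = ∅`, apply `ZD (Z 0)` to the closures, let `C = Z 0 ∩ G0`,
`C' = Z 0 ∩ H0`: then `(A ∩ S) ∪ C` and `(B ∩ S) ∪ C'` are separated (neither meets the closure of the
other), so they have disjoint open neighbourhoods `G`, `H`, and `S \ (G ∪ H)` does not meet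
`Z 0`. -/
def S_UM : Prop :=
  ∀ (X : Type u) [TopologicalSpace X] [CompletelyNormalSpace X] (q : ℕ) (Z : Fin q → Set X),
    (∀ j, ZD (Z j)) → RInd q (⋃ j, Z j)

/-- Comparison with the official definition. First `RInd n S → IsClosed C → RInd n (C ∩ S)`. Then, by
induction on `n`, for an inducing map `f : Y → X`: `RInd n (range f) → IndLT n Y`; for
`A ⊆ U` in `Y` take `V = f ⁻¹' G`; `frontier V` is mapped into `range f \ (G ∪ H)`. -/
def S_BR : Prop :=
  ∀ (X : Type u) [TopologicalSpace X] (n : ℕ), RInd n (univ : Set X) → IndLT n X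

/-! ### General position -/

/-- Perturbation of vectors: any `n` of the vectors `z i` are linearly independent. Choose the `z i`
one after the other, outside the finitely many proper subspaces spanned by fewer than `n` of the earlier ones. -/
def S_GPV : Prop :=
  ∀ (n m : ℕ) (y : Fin m → Fin n → ℝ) (ε : ℝ), 0 < ε → ∃ z : Fin m → Fin n → ℝ,
    (∀ i, ‖z i - y i‖ ≤ ε) ∧ ∀ t : Fin m → ℝ, (Finset.univ.filter fun i => t i ≠ 0).card ≤ n →
      ∑ i, t i • z i = 0 → t = 0

/-- General position. Cover the bounded image of `g : X → ℝⁿ` by finitely many `ε/4`-balls with centres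
`y i`; `DimLT` gives an open shrinking `V i` of the preimages such that every point is in at most `n` of the `V i`;
take a subordinate partition of unity `p i` and `z i` with S_GPV for `y i - r`; let
`g' x = r + ∑ i, p i x • z i`. The set of the `t ≥ 0`, `∑ t = 1` with at most `n` nonzero
entries is compact, so `‖∑ t i • z i‖` has a positive minimum on it. -/
def S_GP : Prop :=
  ∀ (X : Type u) [TopologicalSpace X] [NormalSpace X] (n : ℕ), DimLT X n →
    ∀ (g : Fin n → X →ᵇ ℝ) (r : Fin n → ℝ) (ε : ℝ), 0 < ε →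
    ∃ g' : Fin n → X →ᵇ ℝ, (∀ j, ‖g' j - g j‖ ≤ ε) ∧
      ∃ δ : ℝ, 0 < δ ∧ ∀ x, ∃ j, δ ≤ |g' j x - r j|

def M_GP : Prop := S_GPV → S_GP.{u}

/-- `g i` is an admissible function for the data `f i`, `T i`, `ε i` -/
def Adm (f : ℕ → X →ᵇ ℝ) (T : ℕ → Set X) (ε : ℕ → ℝ) (g : ℕ → X →ᵇ ℝ) : Prop :=
  ∀ i, (∀ x, 0 ≤ g i x) ∧ (∀ x ∈ T i, g i x = 0) ∧ ‖g i - f i‖ ≤ ε i

/-- no `n` of the functions have positive rational values at the same point, in a uniform way -/
def GenA (n : ℕ) (g : ℕ → X → ℝ) : Prop :=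
  ∀ q : Fin n → ℕ, Function.Injective q → ∀ ρ : Fin n → ℚ, (∀ j, 0 < ρ j) →
    ∃ δ : ℝ, 0 < δ ∧ ∀ x, ∃ j, δ ≤ |g (q j) x - ρ j|

/-- `g 0` has no positive rational values on `D k`, in a uniform way -/
def GenD (D : ℕ → Set X) (g : ℕ → X → ℝ) : Prop :=
  ∀ (k : ℕ) (ρ : ℚ), 0 < ρ → ∃ δ : ℝ, 0 < δ ∧ ∀ x ∈ D k, δ ≤ |g 0 x - ρ|

/-- Generic functions. The set of admissible sequences is the product over `i` of the closed subsets
`{g ≥ 0, g = 0 on T i, ‖g - f i‖ ≤ ε i}` of `X →ᵇ ℝ`, so it is a Baire space. For `q`, `ρ` the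
condition in GenA defines an open set, and it is dense: move the `g (q j)` a little towards `f (q j)`, apply
S_GP with small `η` and target `ρ j + η`, and replace the new functions `h` by `max (h - η) 0`. The
same for GenD: S_GP with `n = 1` on the space `D k`, extend the difference from `D k` to `X` (Tietze),
then `max (h - η) 0`. -/
def S_GEN : Prop :=
  ∀ (X : Type u) [TopologicalSpace X] [NormalSpace X] (n : ℕ), DimLT X n →
    ∀ (f : ℕ → X →ᵇ ℝ) (T : ℕ → Set X) (ε : ℕ → ℝ) (D : ℕ → Set X),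
    (∀ i, 0 < ε i) → (∀ i x, 0 ≤ f i x) → (∀ i, ∀ x ∈ T i, f i x = 0) → T 0 = ∅ →
    (∀ k, IsClosed (D k)) → (∀ k, DimLT (D k) 1) →
    ∃ g : ℕ → X →ᵇ ℝ, Adm f T ε g ∧ GenA n (fun i x => g i x) ∧ GenD D (fun i x => g i x)

def M_GEN : Prop := S_GP.{u} → S_GEN.{u}

/-- Choice of the level. For `q`, `ρ` the set of the `t` such that for every `δ > 0` there is an `x` with
`|g 0 x - t| < δ` and `|g (q j) x - ρ j| < δ` for all `j` is closed and contains no positive rational
number by GenA (for `m + 1` indices), so it is nowhere dense in `(0, ∞)`; the same for the closure of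
`g 0 (D k)`. The complement `C` of these countably many closed sets is a dense `G_δ` in `(a, b)`; it is
an uncountable Borel set, so it has the cardinality of the continuum
(`MeasurableSet.standardBorel`, `PolishSpace.measurableEquivOfNotCountable`). -/
def S_LVL : Prop :=
  ∀ (X : Type u) (m : ℕ) (g : ℕ → X → ℝ) (E : Set X) (D : ℕ → Set X),
    GenA (m + 1) g → GenD D g → Cardinal.mk E < Cardinal.continuum →
    ∀ a b : ℝ, 0 ≤ a → a < b → ∃ t, a < t ∧ t < b ∧ (∀ x ∈ E, g 0 x ≠ t) ∧
      (∀ k, ∀ x ∈ D k, g 0 x ≠ t) ∧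
      ∀ q : Fin m → ℕ, Function.Injective q → (∀ j, 1 ≤ q j) → ∀ ρ : Fin m → ℚ,
        (∀ j, 0 < ρ j) → ¬ ∃ x, g 0 x = t ∧ ∀ j, g (q j) x = ρ j

/-- Decomposition of a level. For a finite set `σ` of pairs `(i, ρ)`, `i ≥ 1`, `ρ > 0`, let `Z σ` be the
set of the `x ∈ L` such that for all `i ≥ 1` and rational `ρ > 0`: `g i x = ρ ↔ (i, ρ) ∈ σ`. The
set `Z' j` of the points of `L` with exactly `j` indices `i ≥ 1` with a positive rational value is the
union of the countably many `Z σ` with `σ.card = j`, which are relatively closed in `Z' j`, and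
`Z σ ∩ P k` satisfies the hypotheses of S_CYL for the functions `c (i, a)`, `i ≥ 1`, `a > 0` rational:
`c (i, a) x = some (⋃₀ {b ∈ B k m | x ∈ b})` if `g i x > a`, and `none` otherwise, where `m` is an index with
`∀ y ∈ P k, 0 < g i y → y ∈ ⋃₀ B k m` (if there is none, take `c (i, a)` constant; use triples `(i, a, m)`).
Then S_SUM twice (subspaces of `L`) and S_UM. -/
def S_DEC : Prop :=
  ∀ (X : Type u) [TopologicalSpace X] [CompletelyNormalSpace X] (Y L : Set X) (P : ℕ → Set X)
    (B : ℕ → ℕ → Set (Set X)) (g : ℕ → X → ℝ) (n : ℕ), (∀ i, Continuous (g i)) → L ⊆ Y →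
    (∀ k, ∃ C, IsClosed C ∧ P k = C ∩ Y) → ⋃ k, P k = Y → (∀ k, IsSDB (P k) (B k)) →
    (∀ k m, ∀ x ∈ ⋃₀ B k m, ∃ i, 1 ≤ i ∧ 0 < g i x ∧ ∀ y ∈ P k, 0 < g i y → y ∈ ⋃₀ B k m) →
    (∀ x ∈ L, ∀ s : Finset ℕ, (∀ i ∈ s, 1 ≤ i ∧ ∃ ρ : ℚ, 0 < ρ ∧ g i x = ρ) → s.card < n) →
    RInd n L

def M_DEC : Prop := S_CYL.{u} → S_SUM.{u} → S_UM.{u} → S_DEC.{u}

/-! ### The other inequality and the assembly -/

/-- `dim ≤ Ind` for normal spaces. Induction on `n`. For a finite open cover `U i` choose a closed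
shrinking `F i` and open `V i` with `F i ⊆ V i`, `closure V i ⊆ U i`, `IndLT n (frontier (V i))`.
For a closed `C` let `P C` be: every finite family of open sets covering `C` has an open shrinking
`W i` covering `C` such that every point of `C` is in at most `n` of the `W i`. By induction
`P (frontier (V i))`, and `P C ∧ P C' → P (C ∪ C')` (`(V_i) ∪ (U_i \ C)` twice). Hence `P Z` for the union
`Z` of the frontiers; shrink to closed sets and swell (choose `W i` one after the other, avoiding the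
closed set of the points that are in at least `n` of the other sets) to get open `W i ⊆ U i` covering `Z`
with every point of `X` in at most `n` of them. Add the disjoint sets
`V i \ ⋃ j < i, closure (V j)`. -/
def S_DI : Prop :=
  ∀ (X : Type u) [TopologicalSpace X] [NormalSpace X] (n : ℕ), IndLT n X → DimLT X n

/-- Assembly. -/
def M_MAIN : Prop := S_SDB.{u} → S_PN.{u} → S_FIN.{u} → S_BR.{u} → S_GEN.{u} → S_LVL.{u} →
  S_DEC.{u} → S_DI.{u} → MainStatement.{u}

end NMD
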