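import Pool.Agent.NMD.Base

/-!
# Statements of the modules, part 2: countable products

The subspace `Y` of the theorem may be, more generally, any space whose topology has a base of
preimages of open sets under countably many continuous maps into normal Moore spaces that are countable unions of
closed subspaces which are finite unions of metrizable subspaces; for instance a subspace of a countable
product of such spaces all of whose finite subproducts are normal.
-/

namespace NMD

open Set Topology

open scoped BoundedContinuousFunction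

universe u

/-- The space `Z` is a countable union of closed subspaces each of which is a finite union of metrizable
subspaces. -/
def SigmaFinMet (Z : Type u) [TopologicalSpace Z] : Prop :=
  ∃ F : ℕ → Set Z, (∀ k, IsClosed (F k) ∧ FinMet (F k)) ∧ ⋃ k, F k = univ

/-- There are continuous maps `h k`, `k = 0, 1, …`, of `Y` into normal Moore spaces `Z k` with the
property `SigmaFinMet` such that the preimages `h k ⁻¹' O` of the open sets are a base of `Y`. -/
def Res (Y : Type u) [TopologicalSpace Y] : Prop :=
  ∃ (Z : ℕ → Type u) (_ : ∀ k, TopologicalSpace (Z k)) (h : ∀ k, Y → Z k),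
    (∀ k, NormalSpace (Z k) ∧ IsMoore (Z k) ∧ SigmaFinMet (Z k)) ∧ (∀ k, Continuous (h k)) ∧
    ∀ (y : Y) (U : Set Y), IsOpen U → y ∈ U →
      ∃ k, ∃ O : Set (Z k), IsOpen O ∧ h k y ∈ O ∧ h k ⁻¹' O ⊆ U

/-- The theorem: `X` is a normal Moore space, the union of a subspace `Y` with the property `Res`, a set
`E` of cardinality less than the continuum and closed subsets `D k` of covering dimension at
most `0`. Then `Ind X = dim X`. -/
def MainStatement2 : Prop :=
  ∀ (X : Type u) [TopologicalSpace X] [NormalSpace X], IsMoore X →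
    ∀ (Y E : Set X) (D : ℕ → Set X), Res Y → Cardinal.mk E < Cardinal.continuum →
      (∀ k, IsClosed (D k) ∧ covDim (D k) ≤ 0) → Y ∪ E ∪ (⋃ k, D k) = univ →
      Ind X = covDim X

/-- Countable products: `W i`, `i = 0, 1, …`, are Moore spaces with the property `SigmaFinMet`, all finite
products `W 0 × … × W (k - 1)` are normal, and `X` is a normal Moore space that is homeomorphic to a
subspace of the product of all `W i`. Then `Ind X = dim X`. -/
def CorProduct : Prop :=
  ∀ (W : ℕ → Type u) [∀ i, TopologicalSpace (W i)], (∀ i, IsMoore (W i) ∧ SigmaFinMet (W i)) →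
    (∀ k : ℕ, NormalSpace (∀ i : Fin k, W i)) →
    ∀ (X : Type u) [TopologicalSpace X] [NormalSpace X], IsMoore X →
      ∀ e : X → ∀ i, W i, IsInducing e → Ind X = covDim X

/-- Products with a separable metrizable space. By
`perfectlyNormalSpace_iff_forall_isClosed_preimage_zero` it is enough that every open `U` is the set where a
continuous `F ≥ 0` is not `0`: for a countable base `B n` of `ℕ → ℝ` let `U n` be the union of the open
`O ⊆ V` with `O ×ˢ B n ⊆ U`, then `U = ⋃ n, U n ×ˢ B n` and `F = ∑ 2⁻ⁿ⁻¹ f n (v) φ n (x)` with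
`U n = {f n ≠ 0}`, `B n = {φ n ≠ 0}`, values in `[0, 1]`. -/
def S_PROD : Prop :=
  ∀ (V : Type u) [TopologicalSpace V] [PerfectlyNormalSpace V], PerfectlyNormalSpace (V × (ℕ → ℝ))

/-- Limits. Let `A`, `B` be closed in `X`, `A ∩ B ∩ Z = ∅`. Let `U k` be the union of the open `O` of `V k` with
`ψ k ⁻¹' O` disjoint from `A`, `U' k` the same for `B`. The preimages of the `U k ∪ U' k` cover `Z`. The open
set `U k ∪ U' k` is a union of closed `C j` of `V k`; by `ZD (range (ψ k))` there is a relatively clopen `K` of the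
range with `C j ∩ range ⊆ K ⊆ U k ∪ U' k`, and, again by ZD, `K = P ∪ Q`, `P ⊆ U k`, `Q ⊆ U' k`,
`P`, `Q` relatively clopen and disjoint. Enumerate all these `K` and take their preimages `K i = P i ∪ Q i` in `Z`, which
are relatively clopen and cover `Z`; let `G` be the union of the `Q i \ ⋃ j < i, K j` and `H` the union of the
`P i \ ⋃ j < i, K j` (and open sets of `X` with these traces). -/
def S_LIM : Prop :=
  ∀ (X : Type u) [TopologicalSpace X] (Z : Set X) (V : ℕ → Type u) [∀ k, TopologicalSpace (V k)]
    [∀ k, PerfectlyNormalSpace (V k)] (ψ : ∀ k, Z → V k), (∀ k, Continuous (ψ k)) →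
    (∀ k, ZD (range (ψ k))) →
    (∀ (z : Z) (U : Set X), IsOpen U → z.1 ∈ U →
      ∃ k, ∃ O : Set (V k), IsOpen O ∧ ψ k z ∈ O ∧ ∀ y : Z, ψ k y ∈ O → y.1 ∈ U) → ZD Z

/-- Decomposition of a level, general form of S_DEC (see there, and `Pool/Agent/NMD/DEC.lean`, for the sets
`Z σ`). To show `ZD (Z σ)` apply S_LIM to `ψ k : Z σ → V k × (ℕ → ℝ)`, `ψ k y = (h k y, (g (i + 1) y)_i)`.
The range is the union of its relatively closed parts in `P k l × univ`, use S_SUM in `V k × (ℕ → ℝ)` (S_PROD);
these parts satisfy the hypotheses of S_CYL for the functions `(z, v) ↦ some (⋃₀ {b ∈ B k l m | z ∈ b})` if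
`a < v i` and `(i, m)` is such that `∀ y, h k y ∈ P k l → 0 < g (i + 1) y → h k y ∈ ⋃₀ B k l m`, and `none`
otherwise (`a > 0` rational), together with the functions `(z, v) ↦ some ∅` if `a < v i`, and `none` otherwise;
finite intersections of fibres of these functions are a base: enumerate them as `c j` and use the functions
`fun j' => if j' ≤ j then c j' x else none` in S_CYL. (Note that on `Z σ` the `g (i + 1)` are `≥ 0` and either have no positive
rational values or are constant.) -/
def S_DEC2 : Prop :=
  ∀ (X : Type u) [TopologicalSpace X] [CompletelyNormalSpace X] (Y L : Set X) (V : ℕ → Type u)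
    [∀ k, TopologicalSpace (V k)] [∀ k, PerfectlyNormalSpace (V k)] (h : ∀ k, Y → V k)
    (P : ∀ k, ℕ → Set (V k)) (B : ∀ k, ℕ → ℕ → Set (Set (V k))) (g : ℕ → X → ℝ) (n : ℕ),
    (∀ i, Continuous (g i)) → (∀ i x, 0 ≤ g i x) → L ⊆ Y → (∀ k, Continuous (h k)) →
    (∀ k l, IsClosed (P k l)) → (∀ k, ⋃ l, P k l = univ) → (∀ k l, IsSDB (P k l) (B k l)) →
    (∀ (y : Y) (U : Set X), IsOpen U → y.1 ∈ U →
      ∃ k, ∃ O : Set (V k), IsOpen O ∧ h k y ∈ O ∧ ∀ y' : Y, h k y' ∈ O → y'.1 ∈ U) →
    (∀ k l m, ∀ y : Y, h k y ∈ ⋃₀ B k l m → ∃ i, 1 ≤ i ∧ 0 < g i y ∧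
      ∀ y' : Y, h k y' ∈ P k l → 0 < g i y' → h k y' ∈ ⋃₀ B k l m) →
    (∀ x ∈ L, ∀ s : Finset ℕ, (∀ i ∈ s, 1 ≤ i ∧ ∃ ρ : ℚ, 0 < ρ ∧ g i x = ρ) → s.card < n) →
    RInd n L

def M_DEC2 : Prop := S_CYL.{u} → S_SUM.{u} → S_UM.{u} → S_PROD.{u} → S_LIM.{u} → S_DEC2.{u}

/-- Finite products of developable spaces are developable. Replace the development `G n` of each factor by the common
refinements of `G 0, …, G n`, so that the stars `star x (G n)` decrease; take the boxes with sides in
`G n`. -/
def S_DEVP : Prop :=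
  ∀ (k : ℕ) (W : Fin k → Type u) [∀ i, TopologicalSpace (W i)], (∀ i, Developable (W i)) →
    Developable (∀ i, W i)

/-- Finite products of spaces with `SigmaFinMet`. The closed sets are the boxes with sides `F i (l i)`, one for each
`l : Fin k → ℕ`; such a box is the union of the finitely many boxes with sides `M i (j i)`, which are
metrizable, as they embed into the product of the subspaces `M i (j i)`. -/
def S_SFMP : Prop :=
  ∀ (k : ℕ) (W : Fin k → Type u) [∀ i, TopologicalSpace (W i)], (∀ i, SigmaFinMet (W i)) →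
    SigmaFinMet (∀ i, W i)

/-- Assembly, general form of M_MAIN (see `Pool/Agent/NMD/MAIN.lean`). For each `k` the space `Z k` is `SCD` (S_SDB,
S_FIN, `SCD.of_iUnion`): closed `P k l`, families `B k l m`. In `X` take the sets `T` of the points of
`Y` with `h k y ∈ P k l \ ⋃₀ B k l m`, and functions `f` with zero set `closure T`. -/
def M_MAIN2 : Prop := S_SDB.{u} → S_PN.{u} → S_FIN.{u} → S_BR.{u} → S_GEN.{u} → S_LVL.{u} →
  S_DEC2.{u} → S_DI.{u} → MainStatement2.{u}

/-- The corollaries. For `MainStatement` take the constant sequence `Z k = ⋃ j, Y j` (subspaces of normal Moore spaces are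
normal Moore spaces: `S_PN`). For `CorProduct` take `Z k = ∀ i : Fin k, W i`, `Y = univ`. -/
def M_COR : Prop := S_PN.{u} → S_DEVP.{u} → S_SFMP.{u} → MainStatement2.{u} →
  MainStatement.{u} ∧ CorProduct.{u}

end NMD
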