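import Pool.Agent.NMD.Stmts2

/-!
# Statements of the modules, part 3: sum theorems for `Ind` and the local form of the theorem
-/

namespace NMD

open Set Topology

universe u

/-- `X = Y ∪ E ∪ D 0 ∪ D 1 ∪ …` with `Res Y`, `E` of cardinality less than the continuum and closed
`D k` of covering dimension at most `0` -/
def Good (X : Type u) [TopologicalSpace X] : Prop :=
  ∃ (Y E : Set X) (D : ℕ → Set X), Res Y ∧ Cardinal.mk E < Cardinal.continuum ∧
    (∀ k, IsClosed (D k) ∧ covDim (D k) ≤ 0) ∧ Y ∪ E ∪ (⋃ k, D k) = univ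

/-- Local form: `X` is a normal Moore space, a countable union of closed subspaces `C k` that are locally
`Good`. Then `Ind X = dim X`. -/
def MainStatement3 : Prop :=
  ∀ (X : Type u) [TopologicalSpace X] [NormalSpace X], IsMoore X →
    ∀ C : ℕ → Set X, (∀ k, IsClosed (C k)) → ⋃ k, C k = univ →
      (∀ k, ∀ x : C k, ∃ O : Set (C k), IsOpen O ∧ x ∈ O ∧ Good O) → Ind X = covDim X

/-- the countable closed sum theorem for `Ind ≤ n - 1` and subspaces of `X` -/
def SumT (X : Type u) [TopologicalSpace X] (n : ℕ) : Prop :=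
  ∀ (S : Set X) (F : ℕ → Set X), (∀ k, ∃ C, IsClosed C ∧ F k = C ∩ S) → ⋃ k, F k = S →
    (∀ k, RInd n (F k)) → RInd n S

/-- Open subsets. Let `O = {f > 0}`, `f : X → [0, 1]` (`perfectlyNormalSpace_iff_forall_isClosed_preimage_zero`), `A`,
`B` closed with `A ∩ B ∩ S ∩ O = ∅`. For `j ≥ 1` apply `RInd (n + 1) S` to the closed sets
`A j = A ∩ {1/(j+1) ≤ f ≤ 1/j}` and `B ∪ {f ≤ 1/(j+2)} ∪ {f ≥ 1/(j-1)}` (the last one is missing for `j = 1`): open
`G j`, `H j`. Let `G = ⋃ G j`, and `H` an open set whose trace on `S ∩ O` is that of `⋂ H j` (every point of `S ∩ O` has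
a neighbourhood whose trace on `S` is contained in all but finitely many `H j`). Then
`(S ∩ O) \ (G ∪ H)` is the union of its relatively closed parts in the sets `S \ (G j ∪ H j)`, use
`SumT X n`. (`RInd n S → IsClosed C → RInd n (C ∩ S)` is in `Pool/Agent/NMD/BR.lean`.) -/
def S_CE1 : Prop :=
  ∀ (X : Type u) [TopologicalSpace X] [PerfectlyNormalSpace X] (n : ℕ), SumT X n →
    ∀ S O : Set X, RInd (n + 1) S → IsOpen O → RInd (n + 1) (S ∩ O)

/-- The countable sum theorem, step. Given closed `A`, `B` with `A ∩ B ∩ S = ∅` construct sets `L i ⊆ F i` and open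
sets `U i`, `V i` of `X` such that, for `M i = L 0 ∪ … ∪ L i`: `M i` is relatively closed in `S`, it does not meet
`U i ∪ V i`; `A ∩ S ⊆ U i`, `B ∩ S ⊆ V i`; the closures of `U i` and `V i` have no common point in
`S \ M i`; `F i ⊆ U i ∪ V i ∪ M i`; `U i ∩ S ⊆ U (i + 1)`, `V i ∩ S ⊆ V (i + 1)` and `RInd n (L i)`. Step: apply
`RInd (n + 1)` for `F (i + 1) \ M i` (second hypothesis: `M i = S ∩ C` with `C` closed) to the closures of `U i`
and `V i`; `L (i + 1)` = the part of `F (i + 1) \ M i` outside of the resulting open sets `G`, `H`; the sets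
`(closure (U i) ∪ (F (i + 1) ∩ G)) ∩ (S \ M (i+1))` and `(closure (V i) ∪ (F (i + 1) ∩ H)) ∩ (S \ M (i+1))` are
disjoint and relatively closed in `S \ M (i + 1)`, so they have neighbourhoods whose closures are disjoint in
`S \ M (i + 1)` (complete normality, twice; intersect the neighbourhoods with an open set that
has the trace `S \ M (i + 1)` on `S`). Let `G = ⋃ U i`, `H = ⋃ V i`. The set
`L = S \ (G ∪ H)` is contained in `⋃ L i`, and every `L ∩ L i` is a countable union of relatively closed subsets of
`L`: `L i ∪ M (i - 1)` is relatively closed in `S`, and the complement of `M (i - 1)` is relatively `F_σ`; these sets are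
relatively closed in `L i`, so `RInd n` holds for them; use `SumT X n`. -/
def S_CE2 : Prop :=
  ∀ (X : Type u) [TopologicalSpace X] [PerfectlyNormalSpace X] (n : ℕ), SumT X n →
    (∀ S O : Set X, RInd (n + 1) S → IsOpen O → RInd (n + 1) (S ∩ O)) → SumT X (n + 1)

/-- Discrete unions. Every point of the union has a neighbourhood that meets at most one of the `F i`. So
there are open `O i` with `O i ∩ ⋃ F j = F i`. Induction on `n`. -/
def S_DISC : Prop :=
  ∀ (X : Type u) [TopologicalSpace X] (n : ℕ) (ι : Type u) (F : ι → Set X),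
    (∀ x ∈ ⋃ i, F i, ∃ O, IsOpen O ∧ x ∈ O ∧
      ∀ i j, (O ∩ F i).Nonempty → (O ∩ F j).Nonempty → i = j) →
    (∀ i, RInd n (F i)) → RInd n (⋃ i, F i)

/-- The converse of S_BR, for subspaces. By induction on `n`, for every inducing map `f : Y → X`:
`IndLT n Y → RInd n (range f)`; use `f ∘ Subtype.val` on `frontier V`. -/
def S_BR2 : Prop :=
  ∀ (X : Type u) [TopologicalSpace X] (n : ℕ) (S : Set X), IndLT n S → RInd n S

/-- From local to global. Well-order the points (or the sets `O x`), take the sets `F_(k,α)` of S_LOC (copy from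
`Pool/Agent/NMD/LOC.lean`) for the cover by the `O α`: they are closed in `X`, contained in `O α`, discrete for fixed
`k`, and they cover `X`. S_DISC for fixed `k`; the unions over `α` are closed in `X`; then `SumT X n`. -/
def S_LIND : Prop :=
  ∀ (X : Type u) [TopologicalSpace X], Developable X → ∀ n : ℕ, SumT X n →
    (∀ x : X, ∃ O, IsOpen O ∧ x ∈ O ∧ ∀ C : Set X, IsClosed C → C ⊆ O → RInd n C) →
    RInd n (univ : Set X)

def M_LIND : Prop := S_DISC.{u} → S_LIND.{u}

/-- closed embeddings and the covering dimension -/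
def S_DCE : Prop :=
  ∀ (X Y : Type u) [TopologicalSpace X] [TopologicalSpace Y] (f : X → Y), IsClosedEmbedding f →
    ∀ n, DimLT Y n → DimLT X n

/-- A closed embedding into a `Good` space. (`Res` is inherited by all subspaces.) -/
def S_GCE : Prop :=
  ∀ (X Y : Type u) [TopologicalSpace X] [TopologicalSpace Y] (f : X → Y), IsClosedEmbedding f →
    Good Y → Good X

def M_GCE : Prop := S_DCE.{u} → S_GCE.{u}

/-- Assembly. `SumT X n` for all `n` in a perfectly normal space by S_CE1, S_CE2 (`n = 0` is trivial). Let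
`DimLT X n`. For a closed `C' ⊆ C k` that is contained in an open set of `C k` whose subspace is `Good`: the space `C'`
is `Good` by S_GCE, it is a normal Moore space, `DimLT C' n` by S_DCE, so `IndLT n C'` by `MainStatement2` (compare
the definitions of `Ind` and `covDim` by `dimVal`; `IndLT` and `DimLT` are monotone in `n`), and `RInd n` by
S_BR2 (in the space `C k`). So `RInd n univ` in the space `C k` by S_LIND, `IndLT n (C k)` by S_BR,
`RInd n (C k)` by S_BR2, `RInd n univ` by `SumT X n`, `IndLT n X` by S_BR. With S_DI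
the dimensions are equal. -/
def M_MAIN3 : Prop := S_PN.{u} → S_BR.{u} → S_DI.{u} → S_CE1.{u} → S_CE2.{u} → S_BR2.{u} →
  S_LIND.{u} → S_DCE.{u} → S_GCE.{u} → MainStatement2.{u} → MainStatement3.{u}

end NMD
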